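import Pool.Agent.Helper52.DT.Strict

/-! # DT: minimum degree one (piece DT-KOne) -/

namespace Pool.Agent.Helper52.DT

open Finset Pool.Agent.Helper52.LP
open scoped Classical

theorem kone_adj {n : ℕ} {u v : Fin n} :
    (SimpleGraph.pathGraph n).Adj u v ↔ u.val + 1 = v.val ∨ v.val + 1 = u.val :=
  SimpleGraph.pathGraph_adj

/-- a Hamilton path of the path graph is the list of all vertices, or its reverse -/
theorem kone_list {n : ℕ} (hn : 2 ≤ n) {l : List (Fin n)}
    (hl : l ∈ ML (SimpleGraph.pathGraph n) n) :
    l = List.finRange n ∨ l = (List.finRange n).reverse := by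
  obtain ⟨h1, h2, h3⟩ := hl
  rw [List.isChain_iff_getElem] at h2
  have hne : ∀ i j (hi : i < l.length) (hj : j < l.length), i ≠ j → (l[i] : ℕ) ≠ l[j] := by
    intro i j hi hj hij h
    exact hij ((List.Nodup.getElem_inj_iff h1).1 (Fin.ext h))
  have hst : ∀ i (hi : i + 1 < l.length), (l[i] : ℕ) + 1 = l[i + 1] ∨ (l[i + 1] : ℕ) + 1 = l[i] := by
    intro i hi
    exact kone_adj.1 (h2 i hi)
  have h0 : 0 < l.length := by omega
  have h01 : 0 + 1 < l.length := by omega
  rcases hst 0 h01 with h4 | h4
  · left
    have key : ∀ i (hi : i + 1 < l.length), (l[i] : ℕ) = l[0] + i ∧ (l[i + 1] : ℕ) = l[0] + (i + 1) := by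
      intro i
      induction i with
      | zero => intro hi; exact ⟨rfl, by omega⟩
      | succ i ih =>
        intro hi
        have h5 := ih (by omega)
        refine ⟨h5.2, ?_⟩
        have h6 := hst (i + 1) hi
        have h7 := hne i (i + 1 + 1) (by omega) hi (by omega)
        omega
    have h5 := (key (n - 2) (by omega)).2
    have h6 : (l[n - 2 + 1] : ℕ) < n := (l[n - 2 + 1]).isLt
    refine List.ext_getElem (by rw [h3, List.length_finRange]) fun i hi hi' => ?_
    rw [List.getElem_finRange]
    refine Fin.ext ?_
    simp only [Fin.val_cast]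
    rcases Nat.eq_zero_or_pos i with rfl | hi0
    · omega
    · have h7 := (key (i - 1) (by omega)).2
      have h8 : i - 1 + 1 = i := by omega
      simp only [h8] at h7
      omega
  · right
    have key : ∀ i (hi : i + 1 < l.length), (l[i] : ℕ) + i = l[0] ∧ (l[i + 1] : ℕ) + (i + 1) = l[0] := by
      intro i
      induction i with
      | zero => intro hi; exact ⟨rfl, by omega⟩
      | succ i ih =>
        intro hi
        have h5 := ih (by omega)
        refine ⟨h5.2, ?_⟩
        have h6 := hst (i + 1) hi
        have h7 := hne i (i + 1 + 1) (by omega) hi (by omega)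
        omega
    have h5 := (key (n - 2) (by omega)).2
    have h6 : (l[0] : ℕ) < n := (l[0]).isLt
    refine List.ext_getElem (by rw [h3, List.length_reverse, List.length_finRange])
      fun i hi hi' => ?_
    rw [List.getElem_reverse, List.getElem_finRange]
    refine Fin.ext ?_
    simp only [Fin.val_cast, List.length_finRange]
    rcases Nat.eq_zero_or_pos i with rfl | hi0
    · omega
    · have h7 := (key (i - 1) (by omega)).2
      have h8 : i - 1 + 1 = i := by omega
      simp only [h8] at h7
      omega

/-- the list of all vertices is a Hamilton path -/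
theorem kone_mem (n : ℕ) : List.finRange n ∈ ML (SimpleGraph.pathGraph n) n := by
  refine ⟨List.nodup_finRange n, ?_, List.length_finRange⟩
  rw [List.isChain_iff_getElem]
  intro i hi
  rw [kone_adj]
  left
  simp

/-- the path on `n` vertices (vertices `0, .., n - 1`, adjacent if they differ by one): connected,
minimum degree `1`, only one Hamilton path (up to reversal) -/
theorem path_one (n : ℕ) (hn : 2 ≤ n) :
    ∃ G : SimpleGraph (Fin n), Ex 1 G ∧ (RL G n).card = 1 := by
  obtain ⟨k, rfl⟩ : ∃ k, n = k + 2 := ⟨n - 2, by omega⟩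
  refine ⟨SimpleGraph.pathGraph (k + 2), ⟨SimpleGraph.pathGraph_connected (k + 1), ?_, ?_⟩, ?_⟩
  · intro v
    unfold dg
    rw [Nat.one_le_iff_ne_zero, Finset.card_ne_zero]
    rcases Nat.eq_zero_or_pos v.val with h | h
    · exact ⟨⟨1, by omega⟩, by rw [mem_filter, kone_adj]; exact ⟨mem_univ _, Or.inl (by simp [h])⟩⟩
    · exact ⟨⟨v.val - 1, by omega⟩, by
        rw [mem_filter, kone_adj]; exact ⟨mem_univ _, Or.inr (by simp; omega)⟩⟩
  · refine ⟨0, ?_⟩
    unfold dg
    rw [Finset.card_eq_one]
    refine ⟨1, ?_⟩
    ext w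
    rw [mem_filter, kone_adj, mem_singleton, Fin.ext_iff]
    simp only [mem_univ, true_and, Fin.val_zero, Fin.val_one]
    omega
  · have h1 := two_mul_RL (SimpleGraph.pathGraph (k + 2)) hn
    have h2 : ML (SimpleGraph.pathGraph (k + 2)) (k + 2) =
        {List.finRange (k + 2), (List.finRange (k + 2)).reverse} := by
      ext l
      constructor
      · exact kone_list hn
      · rintro (rfl | h)
        · exact kone_mem _
        · rw [Set.mem_singleton_iff] at h
          rw [h]
          exact ML_reverse (kone_mem _)
    have h3 : List.finRange (k + 2) ≠ (List.finRange (k + 2)).reverse := by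
      intro h
      have h4 := basicA_up hn (kone_mem (k + 2))
      rw [← h] at h4
      tauto
    rw [h2, Set.ncard_pair h3] at h1
    omega

variable {V : Type} [Fintype V] [DecidableEq V]

/-- minimum degree two: at least two longest paths (`o :: t` a longest path, `y ≠ t.head` a
neighbour of `o`, `useful` for `y`) -/
theorem two_le_RL {G : SimpleGraph V} {m : ℕ} (hm : 2 ≤ m) (hne : (ML G m).Nonempty)
    (hmax : ML G (m + 1) = ∅) (hd : ∀ v, 2 ≤ dg G v) : 2 ≤ (RL G m).card := by
  obtain ⟨l, hl⟩ := hne
  obtain ⟨o, t, rfl⟩ : ∃ o t, l = o :: t := by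
    cases l with
    | nil =>
      have := hl.2.2
      simp at this
      omega
    | cons o t => exact ⟨o, t, rfl⟩
  have hex : ∃ y, G.Adj o y ∧ y ∉ t.head? := by
    by_contra h
    push Not at h
    have h1 : (univ.filter fun w => G.Adj o w).card ≤ 1 := by
      rw [Finset.card_le_one]
      intro a ha b hb
      have h2 := h a (mem_filter.1 ha).2
      have h3 := h b (mem_filter.1 hb).2
      rw [Option.mem_def] at h2 h3
      rw [h2] at h3
      exact Option.some.inj h3
    have h2 := hd o
    unfold dg at h2
    omega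
  obtain ⟨y, hy, hyt⟩ := hex
  obtain ⟨l', hl', hc⟩ := useful hl hmax hy
  have hnc : ¬ Con o y (o :: t) := by
    intro h
    have h1 := (con_iff (A := []) (R := t) (u := o) (x := y) (by simpa using hl.1)).1 (by simpa using h)
    rcases h1 with h1 | h1
    · simp at h1
    · exact hyt h1
  have hn1 : l' ≠ o :: t := fun h => hnc (h ▸ hc)
  have hn2 : l' ≠ (o :: t).reverse := by
    intro h
    apply hnc
    have h1 := hc.reverse
    rw [h, List.reverse_reverse] at h1
    exact h1
  have h1 := two_mul_RL G hm
  have h2 : 3 ≤ (ML G m).ncard := by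
    have h3 : ({o :: t, (o :: t).reverse, l'} : Set (List V)) ⊆ ML G m := by
      rintro a (rfl | rfl | rfl)
      · exact hl
      · exact ML_reverse hl
      · exact hl'
    have h4 : (o :: t) ≠ (o :: t).reverse := by
      intro h
      have h7 := basicA_up hm hl
      rw [← h] at h7
      tauto
    have h5 : ({o :: t, (o :: t).reverse, l'} : Set (List V)).ncard = 3 :=
      Set.ncard_eq_three.2 ⟨_, _, _, h4, hn1.symm, hn2.symm, rfl⟩
    rw [← h5]
    exact Set.ncard_le_ncard h3 (ML_finite G m)
  omega

end Pool.Agent.Helper52.DT
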