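import Pool.Agent.Helper52.DT.Main
import Pool.Agent.Helper52.DT.KOne

/-! # DT: from detours to lists (typed by helper52) -/

namespace Pool.Agent.Helper52.DT

open Finset Function Pool.Agent.Helper52.LP
open scoped Classical

variable {V : Type} [Fintype V] [DecidableEq V]

omit [DecidableEq V] in
/-- the order of a longest path -/
theorem exists_order [Nonempty V] (G : SimpleGraph V) :
    ∃ m, 1 ≤ m ∧ (ML G m).Nonempty ∧ ML G (m + 1) = ∅ := by
  have h1 : ∀ m, (ML G m).Nonempty → m ≤ Fintype.card V := by
    rintro m ⟨l, hl⟩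
    rw [← hl.2.2]
    exact hl.1.length_le_card
  have h2 : (ML G 1).Nonempty := ⟨[Classical.arbitrary V], by simp, by simp, rfl⟩
  have h3 := Nat.findGreatest_spec (P := fun m => (ML G m).Nonempty) (h1 1 h2) h2
  refine ⟨Nat.findGreatest (fun m => (ML G m).Nonempty) (Fintype.card V), ?_, h3, ?_⟩
  · exact Nat.le_findGreatest (h1 1 h2) h2
  · rw [← Set.not_nonempty_iff_eq_empty]
    intro h4
    have h5 := Nat.le_findGreatest (P := fun m => (ML G m).Nonempty) (h1 _ h4) h4
    omega

omit [Fintype V] [DecidableEq V] in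
theorem length_le {G : SimpleGraph V} {m : ℕ} (hmax : ML G (m + 1) = ∅) {l : List V}
    (h1 : l.Nodup) (h2 : l.IsChain G.Adj) : l.length ≤ m := by
  by_contra hc
  push Not at hc
  have h3 : l.take (m + 1) ∈ ML G (m + 1) := by
    refine ⟨h1.sublist (List.take_sublist _ _), ?_, ?_⟩
    · exact List.IsChain.take h2 _
    · rw [List.length_take]; omega
  rw [hmax] at h3
  exact h3

/-- reversal classes -/
theorem ncard_classes (S : Finset (List V)) (hrev : ∀ l ∈ S, l.reverse ∈ S)
    (hne : ∀ l ∈ S, l.reverse ≠ l) :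
    2 * {q : Set (List V) | ∃ l, l ∈ S ∧ q = {l, l.reverse}}.ncard = S.card := by
  have hN : {q : Set (List V) | ∃ l, l ∈ S ∧ q = {l, l.reverse}}.ncard
      = (S.image fun l => ({l, l.reverse} : Set (List V))).card := by
    rw [← Set.ncard_coe_finset]
    congr 1
    ext q
    simp only [Set.mem_setOf_eq, Finset.coe_image, Set.mem_image, Finset.mem_coe]
    constructor
    · rintro ⟨l, hl, rfl⟩; exact ⟨l, hl, rfl⟩
    · rintro ⟨l, hl, rfl⟩; exact ⟨l, hl, rfl⟩
  rw [hN, Finset.card_eq_sum_card_fiberwise (s := S)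
    (f := fun l => ({l, l.reverse} : Set (List V)))
    (t := S.image fun l => ({l, l.reverse} : Set (List V)))
    (fun l hl => Finset.mem_coe.2 (Finset.mem_image_of_mem _ (Finset.mem_coe.1 hl))),
    Finset.sum_const_nat (m := 2)]
  · ring
  · intro q hq
    obtain ⟨l, hl, rfl⟩ := Finset.mem_image.1 hq
    have : (S.filter fun l' => ({l', l'.reverse} : Set (List V)) = {l, l.reverse})
        = {l, l.reverse} := by
      ext l'
      rw [Finset.mem_filter, Finset.mem_insert, Finset.mem_singleton]
      constructor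
      · rintro ⟨_, h⟩
        have : l' ∈ ({l', l'.reverse} : Set (List V)) := Set.mem_insert _ _
        rw [h] at this
        simpa using this
      · rintro (rfl | rfl)
        · exact ⟨hl, rfl⟩
        · refine ⟨hrev l hl, ?_⟩
          rw [List.reverse_reverse, Set.pair_comm]
    rw [this, Finset.card_pair (hne l hl).symm]

omit [Fintype V] [DecidableEq V] in
theorem reverse_ne {G : SimpleGraph V} {m : ℕ} (hm : 2 ≤ m) {l : List V} (hl : l ∈ ML G m) :
    l.reverse ≠ l := by
  intro h
  obtain ⟨g1, g2, g3⟩ := hl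
  have h1 : l[0]'(by omega) = l[l.length - 1]'(by omega) := by
    have e := List.getElem_reverse (l := l) (i := 0) (by rw [List.length_reverse]; omega)
    simp only [h, Nat.sub_zero] at e
    exact e
  have := (List.Nodup.getElem_inj_iff g1).1 h1
  omega

/-- the number of reversal classes of paths on `m` vertices -/
theorem classes_eq (G : SimpleGraph V) {m : ℕ} (hm : 2 ≤ m) :
    {q : Set (List V) | ∃ l, l ∈ ML G m ∧ q = {l, l.reverse}}.ncard = (RL G m).card := by
  have h1 := ncard_classes (ML_finite G m).toFinset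
    (fun l hl => (ML_finite G m).mem_toFinset.2 (ML_reverse ((ML_finite G m).mem_toFinset.1 hl)))
    (fun l hl => reverse_ne hm ((ML_finite G m).mem_toFinset.1 hl))
  have h2 := two_mul_RL G hm
  have h3 : (ML G m).ncard = (ML_finite G m).toFinset.card := by
    rw [← Set.ncard_coe_finset, Set.Finite.coe_toFinset]
  simp only [Set.Finite.mem_toFinset] at h1
  omega

end Pool.Agent.Helper52.DT
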