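import Pool.Agent.Helper52.DT.Off

/-! # DT: a set without small separators (piece DT-Atom) -/

namespace Pool.Agent.Helper52.DT

open Finset Pool.Agent.Helper52.LP
open scoped Classical

variable {V : Type} [Fintype V] [DecidableEq V]

/-- the vertices outside `C` which can be reached from `a` outside `C` -/
private noncomputable def cls (G : SimpleGraph V) (C : Finset V) (a : V) : Finset V :=
  univ.filter fun v => v ∉ C ∧ (off G C).Reachable a v

private theorem mem_cls {G : SimpleGraph V} {C : Finset V} {a v : V} :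
    v ∈ cls G C a ↔ v ∉ C ∧ (off G C).Reachable a v := by
  simp [cls]

omit [Fintype V] [DecidableEq V] in
private theorem closed_reach {H : SimpleGraph V} {S : V → Prop} (hS : ∀ v w, S v → H.Adj v w → S w)
    {a b : V} (ha : S a) (h : H.Reachable a b) : S b := by
  obtain ⟨w⟩ := h
  induction w with
  | nil => exact ha
  | cons hadj _ ih => exact ih (hS _ _ ha hadj)

omit [Fintype V] [DecidableEq V] in
private theorem reach_in {H H2 : SimpleGraph V} {S : V → Prop} (hS : ∀ v w, S v → H.Adj v w → S w)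
    (h2 : ∀ v w, S v → S w → H.Adj v w → H2.Adj v w) {a b : V} (ha : S a) (h : H.Reachable a b) :
    H2.Reachable a b := by
  obtain ⟨w⟩ := h
  induction w with
  | nil => exact SimpleGraph.Reachable.refl _
  | cons hadj _ ih =>
    exact (h2 _ _ ha (hS _ _ ha hadj) hadj).reachable.trans (ih (hS _ _ ha hadj))

private theorem cls_closed {G : SimpleGraph V} {C : Finset V} {a : V} :
    ∀ v w, v ∈ cls G C a → (off G C).Adj v w → w ∈ cls G C a := by
  intro v w hv hvw
  rw [mem_cls] at hv ⊢
  exact ⟨hvw.2.2, hv.2.trans hvw.reachable⟩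

/-- each vertex of a minimal separator has a neighbour in each part -/
private theorem nb_part {G : SimpleGraph V} {o : V} {Y : Finset V} (ho : o ∉ Y)
    (hmin : ∀ y ∈ Y, OffConn G (insert o (Y.erase y))) {a : V} (ha : a ∉ insert o Y) {y : V}
    (hy : y ∈ Y) : ∃ v ∈ cls G (insert o Y) a, G.Adj v y := by
  by_contra hcon
  push Not at hcon
  have hyo : y ≠ o := fun h => ho (h ▸ hy)
  have hy' : y ∉ insert o (Y.erase y) := by
    rw [mem_insert]
    rintro (h | h)
    · exact hyo h
    · exact (mem_erase.1 h).1 rfl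
  have ha' : a ∉ insert o (Y.erase y) := by
    rw [mem_insert] at ha ⊢
    rintro (h | h)
    · exact ha (Or.inl h)
    · exact ha (Or.inr (mem_erase.1 h).2)
  have h1 := hmin y hy a y ha' hy'
  have h2 : y ∈ cls G (insert o Y) a := by
    refine closed_reach (S := fun v => v ∈ cls G (insert o Y) a) ?_ ?_ h1
    · intro v w hv hvw
      have hwy : w ≠ y := fun h => hcon v hv (h ▸ hvw.1)
      have hw : w ∉ insert o Y := by
        have h3 := hvw.2.2
        rw [mem_insert] at h3 ⊢
        rintro (h | h)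
        · exact h3 (Or.inl h)
        · exact h3 (Or.inr (mem_erase.2 ⟨hwy, h⟩))
      exact cls_closed v w hv ⟨hvw.1, (mem_cls.1 hv).1, hw⟩
    · exact mem_cls.2 ⟨ha, SimpleGraph.Reachable.refl _⟩
  exact (mem_cls.1 h2).1 (mem_insert_of_mem hy)

/-- the pairs of the proof -/
private def Adm (G : SimpleGraph V) (o : V) (T : ℕ) (K X : Finset V) : Prop :=
  K.Nonempty ∧ o ∉ K ∧ o ∉ X ∧ Disjoint K X ∧ X.card ≤ T ∧
    (∀ a ∈ K, ∀ b, G.Adj a b → b ∈ K ∨ b ∈ X ∨ b = o) ∧ OffConn G (insert o K)

private theorem part_adm {G : SimpleGraph V} {o : V} {T : ℕ} {K Y : Finset V} (hoK : o ∉ K)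
    (hYK : Y ⊆ K) (hYT : Y.card ≤ T) (hY0 : Y.Nonempty)
    (hmin : ∀ y ∈ Y, OffConn G (insert o (Y.erase y))) {a b : V} (ha : a ∉ insert o Y)
    (hb : b ∉ insert o Y) (hab : ¬ (off G (insert o Y)).Reachable a b)
    (hD : cls G (insert o Y) a ⊆ K) :
    Adm G o T (cls G (insert o Y) a) Y ∧ (cls G (insert o Y) a).card < K.card := by
  have hoY : o ∉ Y := fun h => hoK (hYK h)
  obtain ⟨y0, hy0⟩ := hY0
  have hnotD : ∀ c, c ∉ insert o Y → c ∉ cls G (insert o Y) a →
      ∀ v ∈ cls G (insert o Y) c, v ∉ insert o (cls G (insert o Y) a) := by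
    intro c hc hca v hv
    rw [mem_insert]
    rintro (h | h)
    · exact (mem_cls.1 hv).1 (by rw [h]; exact mem_insert_self _ _)
    · exact hca (mem_cls.2 ⟨hc, (mem_cls.1 h).2.trans (mem_cls.1 hv).2.symm⟩)
  have hreach : ∀ c, c ∉ insert o Y → c ∉ cls G (insert o Y) a →
      ∀ v ∈ cls G (insert o Y) c, (off G (insert o (cls G (insert o Y) a))).Reachable c v := by
    intro c hc hca v hv
    refine reach_in (H := off G (insert o Y)) (S := fun v => v ∈ cls G (insert o Y) c) cls_closed ?_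
      (mem_cls.2 ⟨hc, SimpleGraph.Reachable.refl _⟩) (mem_cls.1 hv).2
    intro v w hv hw hvw
    exact ⟨hvw.1, hnotD c hc hca v hv, hnotD c hc hca w hw⟩
  have hYD : ∀ y ∈ Y, y ∉ insert o (cls G (insert o Y) a) := by
    intro y hy
    rw [mem_insert]
    rintro (h | h)
    · exact hoY (h ▸ hy)
    · exact (mem_cls.1 h).1 (mem_insert_of_mem hy)
  have hstep : ∀ c, c ∉ insert o Y → c ∉ cls G (insert o Y) a → ∀ y ∈ Y,
      (off G (insert o (cls G (insert o Y) a))).Reachable c y := by
    intro c hc hca y hy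
    obtain ⟨v, hv, hvy⟩ := nb_part hoY hmin hc hy
    have h1 : (off G (insert o (cls G (insert o Y) a))).Adj v y :=
      ⟨hvy, hnotD c hc hca v hv, hYD y hy⟩
    exact (hreach c hc hca v hv).trans h1.reachable
  have hba : b ∉ cls G (insert o Y) a := fun h => hab (mem_cls.1 h).2
  have hall : ∀ c, c ∉ insert o (cls G (insert o Y) a) →
      (off G (insert o (cls G (insert o Y) a))).Reachable c b := by
    intro c hc
    by_cases hcY : c ∈ Y
    · exact (hstep b hb hba c hcY).symm
    · have hc1 : c ∉ insert o Y := by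
        rw [mem_insert] at hc ⊢
        rintro (h | h)
        · exact hc (Or.inl h)
        · exact hcY h
      have hc2 : c ∉ cls G (insert o Y) a := fun h => hc (mem_insert_of_mem h)
      exact (hstep c hc1 hc2 y0 hy0).trans (hstep b hb hba y0 hy0).symm
  refine ⟨⟨⟨a, mem_cls.2 ⟨ha, SimpleGraph.Reachable.refl _⟩⟩, ?_, hoY, ?_, hYT, ?_, ?_⟩, ?_⟩
  · intro h
    exact (mem_cls.1 h).1 (mem_insert_self _ _)
  · rw [Finset.disjoint_left]
    intro v hv hvY
    exact (mem_cls.1 hv).1 (mem_insert_of_mem hvY)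
  · intro v hv w hvw
    by_cases h : w ∈ insert o Y
    · rw [mem_insert] at h
      rcases h with h | h
      · exact Or.inr (Or.inr h)
      · exact Or.inr (Or.inl h)
    · exact Or.inl (cls_closed v w hv ⟨hvw, (mem_cls.1 hv).1, h⟩)
  · intro c d hc hd
    exact (hall c hc).trans (hall d hd).symm
  · refine Finset.card_lt_card (Finset.ssubset_iff_subset_ne.2 ⟨hD, fun h => ?_⟩)
    have h1 : y0 ∈ cls G (insert o Y) a := by
      rw [h]
      exact hYK hy0
    exact (mem_cls.1 h1).1 (mem_insert_of_mem hy0)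

private theorem shrink {G : SimpleGraph V} {o : V} {T : ℕ} (ho : OffConn G {o}) {K X : Finset V}
    (h : Adm G o T K X) {Y : Finset V} (hYK : Y ⊆ K) (hYT : Y.card ≤ T)
    (hn : ¬ OffConn G (insert o Y)) : ∃ D X', Adm G o T D X' ∧ D.card < K.card := by
  obtain ⟨Y', hY', hmin⟩ := Finset.exists_min_image
    (Y.powerset.filter fun Z => ¬ OffConn G (insert o Z)) Finset.card
    ⟨Y, mem_filter.2 ⟨mem_powerset.2 (Finset.Subset.refl _), hn⟩⟩
  rw [mem_filter, mem_powerset] at hY'
  obtain ⟨hYY, hn'⟩ := hY'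
  have hmin' : ∀ y ∈ Y', OffConn G (insert o (Y'.erase y)) := by
    intro y hy
    by_contra hcon
    have h1 := hmin (Y'.erase y) (mem_filter.2 ⟨mem_powerset.2 ((erase_subset _ _).trans hYY), hcon⟩)
    have h2 := Finset.card_erase_lt_of_mem hy
    omega
  have hY0 : Y'.Nonempty := by
    rw [Finset.nonempty_iff_ne_empty]
    intro he
    rw [he] at hn'
    exact hn' (by simpa using ho)
  have hYK' : Y' ⊆ K := hYY.trans hYK
  have hoK := h.2.1
  have hYT' : Y'.card ≤ T := (Finset.card_le_card hYY).trans hYT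
  unfold OffConn at hn'
  push Not at hn'
  obtain ⟨a, b, ha, hb, hab⟩ := hn'
  by_cases h1 : cls G (insert o Y') a ⊆ K
  · exact ⟨_, _, part_adm hoK hYK' hYT' hY0 hmin' ha hb hab h1⟩
  by_cases h2 : cls G (insert o Y') b ⊆ K
  · exact ⟨_, _, part_adm hoK hYK' hYT' hY0 hmin' hb ha (fun h => hab h.symm) h2⟩
  exfalso
  rw [Finset.not_subset] at h1 h2
  obtain ⟨v, hv, hvK⟩ := h1
  obtain ⟨w, hw, hwK⟩ := h2
  have hvK' : v ∉ insert o K := by
    rw [mem_insert]
    rintro (h | h)
    · exact (mem_cls.1 hv).1 (by rw [h]; exact mem_insert_self _ _)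
    · exact hvK h
  have hwK' : w ∉ insert o K := by
    rw [mem_insert]
    rintro (h | h)
    · exact (mem_cls.1 hw).1 (by rw [h]; exact mem_insert_self _ _)
    · exact hwK h
  have h3 := h.2.2.2.2.2.2 v w hvK' hwK'
  have h4 : off G (insert o K) ≤ off G (insert o Y') := by
    intro c d hcd
    exact ⟨hcd.1, fun h => hcd.2.1 (insert_subset_insert _ hYK' h),
      fun h => hcd.2.2 (insert_subset_insert _ hYK' h)⟩
  exact hab (((mem_cls.1 hv).2.trans (h3.mono h4)).trans (mem_cls.1 hw).2.symm)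

/-- Let `G` be connected outside `{o}`.  There is a nonempty set `K` of vertices, with at most `T`
neighbours outside `K` and `o`, such that the deletion of `o` and at most `T` vertices of `K` does
not disconnect `G`.

Proof: consider the pairs `(K, X)` with `K` nonempty, `o ∉ K`, `o ∉ X`, `K`, `X` disjoint,
`X.card ≤ T`, all neighbours of `K` in `K ∪ X ∪ {o}`, and `OffConn G (insert o K)` (the graph
outside `K` and `o` is connected); `K` = all vertices except `o`, `X = ∅` is such a pair.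
Take one with `K.card` minimal.  Assume `Y ⊆ K`, `Y.card ≤ T` and `¬ OffConn G (insert o Y)`.
Let `Y' ⊆ Y` be minimal (for inclusion) with `¬ OffConn G (insert o Y')`.  `Y'` is not empty.
For each component `D` of `off G (insert o Y')` (outside `insert o Y'`) each `y ∈ Y'` has a
neighbour in `D`, because `OffConn G (insert o (Y'.erase y))`.  There are two components, and the set
`W` of the vertices outside `K ∪ {o}` is connected, so it meets at most one of them; let `D` be one
with `D ∩ W = ∅`, i.e. `D ⊆ K`.  Then `(D, Y')` is admissible and `D.card < K.card`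
(as `Y' ⊆ K \ D`). -/
theorem atom (G : SimpleGraph V) (o : V) (T : ℕ) (ho : OffConn G {o}) (hV : ∃ v, v ≠ o) :
    ∃ K X : Finset V, K.Nonempty ∧ o ∉ K ∧ o ∉ X ∧ Disjoint K X ∧ X.card ≤ T ∧
      (∀ a ∈ K, ∀ b, G.Adj a b → b ∈ K ∨ b ∈ X ∨ b = o) ∧
      ∀ Y ⊆ K, Y.card ≤ T → OffConn G (insert o Y) := by
  have hex : ∃ n, ∃ K X : Finset V, Adm G o T K X ∧ K.card = n := by
    refine ⟨_, univ.erase o, ∅, ⟨?_, ?_, ?_, ?_, ?_, ?_, ?_⟩, rfl⟩
    · obtain ⟨v, hv⟩ := hV
      exact ⟨v, mem_erase.2 ⟨hv, mem_univ _⟩⟩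
    · exact fun h => (mem_erase.1 h).1 rfl
    · exact notMem_empty _
    · exact disjoint_empty_right _
    · exact Nat.zero_le _
    · intro a _ b _
      by_cases hb : b = o
      · exact Or.inr (Or.inr hb)
      · exact Or.inl (mem_erase.2 ⟨hb, mem_univ _⟩)
    · intro a b ha _
      exact absurd (by rw [insert_erase (mem_univ o)]; exact mem_univ a) ha
  obtain ⟨K, X, hA, hc⟩ := Nat.find_spec hex
  refine ⟨K, X, hA.1, hA.2.1, hA.2.2.1, hA.2.2.2.1, hA.2.2.2.2.1, hA.2.2.2.2.2.1, ?_⟩
  intro Y hYK hYT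
  by_contra hn
  obtain ⟨D, X', hD, hlt⟩ := shrink ho hA hYK hYT hn
  exact Nat.find_min hex (hc ▸ hlt) ⟨D, X', hD, rfl⟩

end Pool.Agent.Helper52.DT
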