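import Pool.Agent.Helper52.DT.Defs

/-! # DT: basic facts on paths with `m` vertices, first part (piece DT-BasicA) -/

namespace Pool.Agent.Helper52.DT

open Finset Pool.Agent.Helper52.LP
open scoped Classical

variable {V : Type} [Fintype V] [DecidableEq V]

omit [Fintype V] [DecidableEq V] in
theorem ML_reverse {G : SimpleGraph V} {m : ℕ} {l : List V} (h : l ∈ ML G m) :
    l.reverse ∈ ML G m :=
  ⟨by simpa using h.1, chain_reverse h.2.1, by simpa using h.2.2⟩

omit [DecidableEq V] in
theorem basicA_ky_inj {a b : V} (h : ky a = ky b) : a = b :=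
  (Fintype.equivFin V).injective (Fin.ext h)

omit [DecidableEq V] in
theorem basicA_up {G : SimpleGraph V} {m : ℕ} (hm : 2 ≤ m) {l : List V} (h : l ∈ ML G m) :
    Up l.reverse ↔ ¬ Up l := by
  obtain ⟨h1, -, h3⟩ := h
  have h0 : 0 < l.length := by omega
  have hl : l.length - 1 < l.length := by omega
  have ea : l.head? = some l[0] := by
    rw [List.head?_eq_getElem?, List.getElem?_eq_getElem h0]
  have eb : l.getLast? = some l[l.length - 1] := by
    rw [List.getLast?_eq_getElem?, List.getElem?_eq_getElem hl]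
  have hne : l[0] ≠ l[l.length - 1] := by
    intro h
    have := (List.Nodup.getElem_inj_iff h1).1 h
    omega
  have hky : ky l[0] ≠ ky l[l.length - 1] := fun h => hne (basicA_ky_inj h)
  have k1 : Up l ↔ ky l[0] < ky l[l.length - 1] := by
    unfold Up
    rw [ea, eb]
    constructor
    · rintro ⟨a, ha, b, hb, hab⟩
      rw [Option.mem_some_iff] at ha hb
      rw [ha, hb]
      exact hab
    · intro h
      exact ⟨_, rfl, _, rfl, h⟩
  have k2 : Up l.reverse ↔ ky l[l.length - 1] < ky l[0] := by
    unfold Up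
    rw [List.head?_reverse, List.getLast?_reverse, ea, eb]
    constructor
    · rintro ⟨a, ha, b, hb, hab⟩
      rw [Option.mem_some_iff] at ha hb
      rw [ha, hb]
      exact hab
    · intro h
      exact ⟨_, rfl, _, rfl, h⟩
  rw [k1, k2]
  omega

omit [DecidableEq V] in
/-- exactly one of `l`, `l.reverse` is `Up` -/
theorem two_mul_RL (G : SimpleGraph V) {m : ℕ} (hm : 2 ≤ m) :
    (ML G m).ncard = 2 * (RL G m).card := by
  have hmem : ∀ l, l ∈ (ML_finite G m).toFinset ↔ l ∈ ML G m := fun l => (ML_finite G m).mem_toFinset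
  have hSc : (ML G m).ncard = (ML_finite G m).toFinset.card := by
    rw [← Set.ncard_coe_finset, Set.Finite.coe_toFinset]
  have h2 : ((ML_finite G m).toFinset.filter fun l => ¬ Up l).card =
      ((ML_finite G m).toFinset.filter Up).card := by
    refine Finset.card_nbij' List.reverse List.reverse ?_ ?_
      (fun l _ => List.reverse_reverse l) (fun l _ => List.reverse_reverse l)
    · intro l hl
      rw [mem_coe, mem_filter, hmem] at hl ⊢
      exact ⟨ML_reverse hl.1, (basicA_up hm hl.1).2 hl.2⟩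
    · intro l hl
      rw [mem_coe, mem_filter, hmem] at hl ⊢
      refine ⟨ML_reverse hl.1, fun h => ?_⟩
      exact (basicA_up hm hl.1).1 h hl.2
  rw [hSc, ← Finset.card_filter_add_card_filter_not (s := (ML_finite G m).toFinset) Up, h2]
  unfold RL
  ring

omit [Fintype V] [DecidableEq V] in
/-- as `LP.mem_HL_Dv` in `LP/P.lean` -/
theorem mem_ML_Dv (G : SimpleGraph V) (v : V) (F : Finset V) (m : ℕ) (l : List V) :
    l ∈ ML (Dv G v F) m ↔ l ∈ ML G m ∧ ∀ x ∈ F, ¬ Con v x l := by
  constructor
  · rintro ⟨h1, h2, h3⟩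
    refine ⟨⟨h1, List.IsChain.imp (fun a b h => h.1) h2, h3⟩, ?_⟩
    intro x hx hc
    exact (hc.adj h2).2.1 ⟨rfl, hx⟩
  · rintro ⟨⟨h1, h2, h3⟩, h4⟩
    refine ⟨h1, ?_, h3⟩
    rw [List.isChain_iff_getElem] at h2 ⊢
    intro i hi
    refine ⟨h2 i hi, ?_, ?_⟩
    · rintro ⟨e1, e2⟩
      refine h4 _ e2 ?_
      rw [← e1]
      exact con_getElem l i hi
    · rintro ⟨e1, e2⟩
      refine h4 _ e2 ?_
      rw [← e1]
      exact (con_getElem l i hi).symm

omit [Fintype V] [DecidableEq V] in
theorem mem_ML_delete (G : SimpleGraph V) (F : Finset (Sym2 V)) (m : ℕ) (l : List V) :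
    l ∈ ML (G.deleteEdges (F : Set (Sym2 V))) m ↔ l ∈ ML G m ∧ Avoids F l := by
  constructor
  · rintro ⟨h1, h2, h3⟩
    refine ⟨⟨h1, List.IsChain.imp (fun a b h => (SimpleGraph.deleteEdges_adj.1 h).1) h2, h3⟩, ?_⟩
    intro a b hab hc
    exact (SimpleGraph.deleteEdges_adj.1 (hc.adj h2)).2 (Finset.mem_coe.2 hab)
  · rintro ⟨⟨h1, h2, h3⟩, h4⟩
    refine ⟨h1, ?_, h3⟩
    rw [List.isChain_iff_getElem] at h2 ⊢
    intro i hi
    rw [SimpleGraph.deleteEdges_adj]
    exact ⟨h2 i hi, fun h => h4 _ _ (Finset.mem_coe.1 h) (con_getElem l i hi)⟩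

omit [DecidableEq V] in
theorem f_delete (G : SimpleGraph V) (F : Finset (Sym2 V)) (m : ℕ) :
    f (G.deleteEdges (F : Set (Sym2 V))) m = ∑ l ∈ RL G m, av F l := by
  unfold f av
  rw [Finset.sum_boole]
  congr 2
  ext l
  rw [mem_filter, mem_RL, mem_RL, mem_ML_delete]
  tauto

omit [Fintype V] [DecidableEq V] in
theorem av_empty (l : List V) : av ∅ l = 1 := by
  unfold av
  rw [if_pos]
  intro a b h
  exact absurd h (Finset.notMem_empty _)

omit [Fintype V] in
theorem av_union (F F' : Finset (Sym2 V)) (l : List V) : av (F ∪ F') l = av F l * av F' l := by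
  unfold av
  by_cases h : Avoids F l
  · by_cases h' : Avoids F' l
    · have h2 : Avoids (F ∪ F') l := by
        intro a b hab
        rcases Finset.mem_union.1 hab with hab | hab
        · exact h a b hab
        · exact h' a b hab
      rw [if_pos h, if_pos h', if_pos h2, one_mul]
    · have h2 : ¬ Avoids (F ∪ F') l := fun hh => h' fun a b hab => hh a b (Finset.mem_union_right _ hab)
      rw [if_neg h', if_neg h2, mul_zero]
  · have h2 : ¬ Avoids (F ∪ F') l := fun hh => h fun a b hab => hh a b (Finset.mem_union_left _ hab)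
    rw [if_neg h, if_neg h2, zero_mul]

omit [Fintype V] [DecidableEq V] in
theorem av_edge (a b : V) (l : List V) : av {s(a, b)} l = 1 + sc a b l := by
  unfold av sc
  by_cases h : Con a b l
  · have h2 : ¬ Avoids {s(a, b)} l := fun hh => hh a b (Finset.mem_singleton_self _) h
    rw [if_pos h, if_neg h2]
    decide
  · have h2 : Avoids {s(a, b)} l := by
      intro x y hxy hc
      rw [Finset.mem_singleton, Sym2.eq_iff] at hxy
      rcases hxy with ⟨rfl, rfl⟩ | ⟨rfl, rfl⟩
      · exact h hc
      · exact h hc.symm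
    rw [if_neg h, if_pos h2, add_zero]

omit [Fintype V] [DecidableEq V] in
theorem sc_comm (a b : V) (l : List V) : sc a b l = sc b a l := by
  unfold sc
  by_cases h : Con a b l
  · rw [if_pos h, if_pos h.symm]
  · rw [if_neg h, if_neg fun hh => h hh.symm]

end Pool.Agent.Helper52.DT
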