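import Pool.Agent.Helper52.DT.BasicA

/-! # DT: basic facts on paths with `m` vertices, second part (piece DT-BasicB) -/

namespace Pool.Agent.Helper52.DT

open Finset Pool.Agent.Helper52.LP
open scoped Classical

variable {V : Type} [Fintype V] [DecidableEq V]

/-- each inner vertex has two neighbours on the path, a vertex which is not on the path none
(write `l = A ++ c :: R` and use `LP.con_iff`) -/
theorem sum_sc {G : SimpleGraph V} {m : ℕ} (hm : 2 ≤ m) {l : List V} (hl : l ∈ ML G m) {c : V}
    (hc : ¬ End l c) : ∑ y ∈ nb G c, sc c y l = 0 := by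
  by_cases hcl : c ∈ l
  · obtain ⟨A, R, rfl⟩ := List.append_of_mem hcl
    obtain ⟨hn, hch, -⟩ := hl
    have hA : A ≠ [] := by
      rintro rfl
      exact hc (Or.inl (by simp))
    have hR : R ≠ [] := by
      rintro rfl
      exact hc (Or.inr (by simp))
    obtain ⟨A', a, rfl⟩ := (List.eq_nil_or_concat A).resolve_left hA
    obtain ⟨b, R', rfl⟩ := List.exists_cons_of_ne_nil hR
    rw [List.concat_eq_append] at *
    have hcon : ∀ y, Con c y ((A' ++ [a]) ++ c :: b :: R') ↔ y = a ∨ y = b := by
      intro y
      rw [con_iff hn]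
      simp [eq_comm]
    have hab : a ≠ b := by
      rintro rfl
      rw [List.nodup_append] at hn
      exact hn.2.2 a (by simp) a (by simp) rfl
    have ha : a ∈ nb G c := mem_nb.2 (((hcon a).2 (Or.inl rfl)).adj hch)
    have hb : b ∈ nb G c := mem_nb.2 (((hcon b).2 (Or.inr rfl)).adj hch)
    have h1 : ∀ y ∈ nb G c, sc c y ((A' ++ [a]) ++ c :: b :: R')
        = (if y = a then 1 else 0) + (if y = b then 1 else 0) := by
      intro y _
      rw [sc]
      by_cases h1 : y = a
      · subst h1
        rw [if_pos ((hcon y).2 (Or.inl rfl)), if_pos rfl, if_neg hab, add_zero]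
      · by_cases h2 : y = b
        · rw [if_pos ((hcon y).2 (Or.inr h2)), if_neg h1, if_pos h2, zero_add]
        · rw [if_neg, if_neg h1, if_neg h2, add_zero]
          rw [hcon]
          rintro (h | h)
          · exact h1 h
          · exact h2 h
    rw [Finset.sum_congr rfl h1, Finset.sum_add_distrib, Finset.sum_ite_eq', Finset.sum_ite_eq',
      if_pos ha, if_pos hb]
    exact CharTwo.add_self_eq_zero _
  · refine Finset.sum_eq_zero fun y _ => ?_
    rw [sc, if_neg]
    exact fun h => hcl h.mem_left

omit [Fintype V] [DecidableEq V] in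
private theorem nbr_three {l : List V} (hl : l.Nodup) {c : V} {S : Finset V} (hS : 3 ≤ S.card)
    (h : ∀ y ∈ S, Con c y l) : False := by
  have hne : S.Nonempty := by
    rw [← Finset.card_pos]; omega
  obtain ⟨y0, hy0⟩ := hne
  obtain ⟨A, R, rfl⟩ := List.append_of_mem (h y0 hy0).mem_left
  have hsub : S ⊆ (A.getLast?.toList ++ R.head?.toList).toFinset := by
    intro y hy
    rw [List.mem_toFinset, List.mem_append, Option.mem_toList, Option.mem_toList]
    exact (con_iff hl).1 (h y hy)
  have h1 := Finset.card_le_card hsub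
  have h2 := List.toFinset_card_le (A.getLast?.toList ++ R.head?.toList)
  have h4 : ∀ o : Option V, o.toList.length ≤ 1 := by
    rintro (_ | a) <;> simp
  rw [List.length_append] at h2
  have h5 := h4 A.getLast?
  have h6 := h4 R.head?
  omega

omit [Fintype V] [DecidableEq V] in
/-- at most two neighbours on the path -/
theorem sc_three {l : List V} (hl : l.Nodup) {c x y z : V} (hxy : x ≠ y) (hxz : x ≠ z)
    (hyz : y ≠ z) : sc c x l * sc c y l * sc c z l = 0 := by
  by_cases h : Con c x l ∧ Con c y l ∧ Con c z l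
  · exfalso
    refine nbr_three hl (c := c) (S := {x, y, z}) ?_ ?_
    · rw [Finset.card_eq_three.2 ⟨x, y, z, hxy, hxz, hyz, rfl⟩]
    · intro t ht
      simp only [Finset.mem_insert, Finset.mem_singleton] at ht
      rcases ht with rfl | rfl | rfl
      · exact h.1
      · exact h.2.1
      · exact h.2.2
  · unfold sc
    by_cases h1 : Con c x l
    · by_cases h2 : Con c y l
      · rw [if_neg (c := Con c z l) fun h3 => h ⟨h1, h2, h3⟩, mul_zero]
      · rw [if_neg h2, mul_zero, zero_mul]
    · rw [if_neg h1, zero_mul, zero_mul]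

omit [Fintype V] [DecidableEq V] in
/-- a path has only two ends -/
theorem exists_no_end (l : List V) (C : Fin 3 → Finset V)
    (hC : ∀ i j, i ≠ j → Disjoint (C i) (C j)) : ∃ i, ∀ c ∈ C i, ¬ End l c := by
  by_contra hcon
  push Not at hcon
  choose c hc he using hcon
  have hinj : Function.Injective c := by
    intro i j hij
    by_contra hne
    exact (Finset.disjoint_left.1 (hC i j hne)) (hc i) (hij ▸ hc j)
  have hsub : Finset.univ.image c ⊆ (l.head?.toList ++ l.getLast?.toList).toFinset := by
    intro y hy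
    obtain ⟨i, -, rfl⟩ := Finset.mem_image.1 hy
    rw [List.mem_toFinset, List.mem_append, Option.mem_toList, Option.mem_toList]
    exact he i
  have h1 := Finset.card_le_card hsub
  rw [Finset.card_image_of_injective _ hinj, Finset.card_univ, Fintype.card_fin] at h1
  have h2 := List.toFinset_card_le (l.head?.toList ++ l.getLast?.toList)
  have h4 : ∀ o : Option V, o.toList.length ≤ 1 := by
    rintro (_ | a) <;> simp
  rw [List.length_append] at h2
  have h5 := h4 l.head?
  have h6 := h4 l.getLast?
  omega

private theorem f_Dv (G : SimpleGraph V) (m : ℕ) (v : V) (B : Finset V) :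
    f (Dv G v B) m = ∑ l ∈ RL G m, (if ∀ y ∈ B, ¬ Con v y l then (1 : ZMod 2) else 0) := by
  have h1 : RL (Dv G v B) m = (RL G m).filter fun l => ∀ y ∈ B, ¬ Con v y l := by
    ext l
    rw [mem_RL, mem_filter, mem_RL, mem_ML_Dv]
    tauto
  rw [f, h1, Finset.card_filter, Nat.cast_sum]
  refine Finset.sum_congr rfl fun l _ => ?_
  split_ifs <;> simp

/-- the star relation: `f (Dv G v B) m = ∑ l ∈ RL G m, [no edge from v to B on l]`; the sum over all
`B ⊆ Y` is zero (`LP.mob` in `LP/Q.lean`, and a path does not contain three edges at `v`);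
`f (Dv G v ∅) m = f G m ≠ 0` -/
theorem star (G : SimpleGraph V) {m : ℕ} (v : V) (Y : Finset V) (hY : 3 ≤ Y.card)
    (hf : f G m ≠ 0) : ∃ B ⊆ Y, B.Nonempty ∧ f (Dv G v B) m ≠ 0 := by
  by_contra hcon
  push Not at hcon
  have hsum : ∑ B ∈ Y.powerset, f (Dv G v B) m = 0 := by
    simp_rw [f_Dv]
    rw [Finset.sum_comm]
    refine Finset.sum_eq_zero fun l hl => ?_
    rw [mob, if_neg]
    exact fun h => nbr_three ((mem_RL _ _ _).1 hl).1.1 hY h
  have hone : ∑ B ∈ Y.powerset, f (Dv G v B) m = f (Dv G v ∅) m := by
    refine Finset.sum_eq_single ∅ ?_ ?_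
    · intro B hB hne
      exact hcon B (Finset.mem_powerset.1 hB) (Finset.nonempty_iff_ne_empty.2 hne)
    · intro h
      exact absurd (Finset.empty_mem_powerset Y) h
  have hG : f (Dv G v ∅) m = f G m := by
    rw [f_Dv, f, Finset.card_eq_sum_ones, Nat.cast_sum]
    refine Finset.sum_congr rfl fun l _ => ?_
    rw [if_pos] <;> simp
  exact hf (by rw [← hG, ← hone, hsum])

end Pool.Agent.Helper52.DT
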