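import Pool.Agent.Helper52.LP.S

/-! # DT: certificates for three common neighbours (piece DT-Cert23) -/

namespace Pool.Agent.Helper52.DT

open Finset Function Pool.Agent.Helper52.LP

private def dtc_coef (La Lb : List (Finset (Fin 3))) (k1 k2 p q : ZMod 2)
    (X Y : Finset (Fin 3)) : ZMod 2 :=
  coef La Lb k1 k2 p X Y + q * (if X ⊆ {1, 2} ∧ Y ⊆ {1, 2} then 1 else 0)

private theorem dtc_sum {g : Finset (Fin 3) → Finset (Fin 3) → ZMod 2} (h : Rel g)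
    (h4 : NN g {1, 2} {1, 2} = 0) (La Lb : List (Finset (Fin 3))) (k1 k2 p q : ZMod 2) :
    ∑ X, ∑ Y, dtc_coef La Lb k1 k2 p q X Y * g X Y = 0 := by
  calc ∑ X, ∑ Y, dtc_coef La Lb k1 k2 p q X Y * g X Y
      = (∑ X, ∑ Y, coef La Lb k1 k2 p X Y * g X Y) +
        q * (∑ X, ∑ Y, (if X ⊆ {1, 2} ∧ Y ⊆ {1, 2} then 1 else 0) * g X Y) := by
        simp only [Finset.mul_sum, ← Finset.sum_add_distrib]
        refine Finset.sum_congr rfl fun X _ => Finset.sum_congr rfl fun Y _ => ?_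
        unfold dtc_coef
        ring
    _ = 0 := by rw [h.sum_coef, sum_box, h4]; ring

private theorem dtc_exists {g : Finset (Fin 3) → Finset (Fin 3) → ZMod 2} (h : Rel g)
    (h4 : NN g {1, 2} {1, 2} = 0) (La Lb : List (Finset (Fin 3))) (k1 k2 p q : ZMod 2)
    (h0 : dtc_coef La Lb k1 k2 p q ∅ ∅ = 1) (hg : g ∅ ∅ ≠ 0) :
    ∃ X Y, ¬ (X = ∅ ∧ Y = ∅) ∧ dtc_coef La Lb k1 k2 p q X Y ≠ 0 ∧ g X Y ≠ 0 := by
  by_contra hc
  have h1 := dtc_sum h h4 La Lb k1 k2 p q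
  have h2 : ∀ X Y, ¬ (X = ∅ ∧ Y = ∅) → dtc_coef La Lb k1 k2 p q X Y * g X Y = 0 := by
    intro X Y hXY
    by_cases h3 : dtc_coef La Lb k1 k2 p q X Y = 0
    · rw [h3, zero_mul]
    · by_cases h4 : g X Y = 0
      · rw [h4, mul_zero]
      · exact absurd ⟨X, Y, hXY, h3, h4⟩ hc
  rw [Finset.sum_eq_single ∅, Finset.sum_eq_single ∅, h0, one_mul] at h1
  · exact hg h1
  · intro Y _ hY; exact h2 _ _ (fun h => hY h.2)
  · intro h; exact absurd (mem_univ _) h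
  · intro X _ hX
    refine Finset.sum_eq_zero fun Y _ => h2 _ _ (fun h => hX h.1)
  · intro h; exact absurd (mem_univ _) h

/-- The certificates, without the full set.  Everything as in `LP.Rel.exact` (file `LP/S.lean`)
except for the pattern `t = (2, 2, 2)`, where the certificate is the sum of
`∑ X, g X Y` for `Y = {0}, {0, 1}, {0, 2}`, of `∑ Y, g X Y` for `X = {0}, {0, 1}, {0, 2}`, of the
relations `k1`, `k2`, of `p 0`, `p 1`, `p 2` and of `NN g {1, 2} {1, 2} = 0`; it contains `g ∅ ∅`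
and otherwise only admissible pairs different from `(univ, univ)` (by `decide`). -/
theorem exact_full {g : Finset (Fin 3) → Finset (Fin 3) → ZMod 2} (h : Rel g)
    (h4 : NN g {1, 2} {1, 2} = 0) (hg : g ∅ ∅ ≠ 0) (t : Fin 3 → ℕ) (ht : ∀ i, t i = 1 ∨ t i = 2) :
    ∃ X Y, (∀ i, lo X Y i ≤ t i) ∧ (∃ i, lo X Y i = t i) ∧ ¬ (X = univ ∧ Y = univ) ∧
      g X Y ≠ 0 := by
  obtain ⟨La, Lb, k1, k2, p, q, h0, h1⟩ : ∃ (La Lb : List (Finset (Fin 3))) (k1 k2 p q : ZMod 2),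
      dtc_coef La Lb k1 k2 p q ∅ ∅ = 1 ∧ ∀ X Y, ¬ (X = ∅ ∧ Y = ∅) →
        dtc_coef La Lb k1 k2 p q X Y ≠ 0 →
        ((lo X Y 0 ≤ t 0 ∧ lo X Y 1 ≤ t 1 ∧ lo X Y 2 ≤ t 2) ∧
          (lo X Y 0 = t 0 ∨ lo X Y 1 = t 1 ∨ lo X Y 2 = t 2)) ∧ ¬ (X = univ ∧ Y = univ) := by
    rcases ht 0 with a0 | a0 <;> rcases ht 1 with a1 | a1 <;> rcases ht 2 with a2 | a2 <;>
      rw [a0, a1, a2]
    · exact ⟨[], [], 0, 1, 0, 0, by decide +kernel, by decide +kernel⟩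
    · exact ⟨[], [{2}], 0, 1, 0, 0, by decide +kernel, by decide +kernel⟩
    · exact ⟨[], [{1}], 0, 1, 0, 0, by decide +kernel, by decide +kernel⟩
    · exact ⟨[{1, 2}], [{1}, {2}], 0, 1, 0, 0, by decide +kernel, by decide +kernel⟩
    · exact ⟨[], [{0}], 0, 1, 0, 0, by decide +kernel, by decide +kernel⟩
    · exact ⟨[{0, 2}], [{0}, {2}], 0, 1, 0, 0, by decide +kernel, by decide +kernel⟩
    · exact ⟨[{0, 1}], [{0}, {1}], 0, 1, 0, 0, by decide +kernel, by decide +kernel⟩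
    · exact ⟨[{0}, {0, 1}, {0, 2}], [{0}, {0, 1}, {0, 2}], 1, 1, 1, 1,
        by decide +kernel, by decide +kernel⟩
  obtain ⟨X, Y, h2, h3, h5⟩ := dtc_exists h h4 La Lb k1 k2 p q h0 hg
  obtain ⟨⟨⟨b0, b1, b2⟩, b3⟩, b4⟩ := h1 X Y h2 h3
  refine ⟨X, Y, ?_, ?_, b4, h5⟩
  · intro i; fin_cases i
    · exact b0
    · exact b1
    · exact b2
  · rcases b3 with b | b | b
    · exact ⟨0, b⟩
    · exact ⟨1, b⟩
    · exact ⟨2, b⟩

end Pool.Agent.Helper52.DT
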