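import Pool.Agent.Helper52.DT.CertP

/-! # DT: certificates, even k (piece DT-CertE) -/

namespace Pool.Agent.Helper52.DT

open Finset Pool.Agent.Helper52.LP
open scoped Classical

variable {V : Type} [Fintype V] [DecidableEq V]

namespace CertE

theorem sum_av (H : SimpleGraph V) {m : ℕ} (hm : 2 ≤ m) {q : V} {l : List V} (hl : l ∈ ML H m)
    (hc : ¬ End l q) : ∑ y ∈ nb H q, av {s(q, y)} l = (dg H q : ZMod 2) := by
  have h1 : ∑ y ∈ nb H q, av {s(q, y)} l = ∑ y ∈ nb H q, (1 + sc q y l) :=
    Finset.sum_congr rfl fun y _ => av_edge q y l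
  rw [h1, Finset.sum_add_distrib, sum_sc hm hl hc, add_zero, Finset.sum_const, card_nb,
    nsmul_eq_mul, mul_one]

theorem sum_erase (H : SimpleGraph V) {m k : ℕ} (hm : 2 ≤ m) {q : V} (hk : Even k)
    (hq : dg H q = k + 2) {l : List V} (hl : l ∈ ML H m)
    (hc : ¬ End l q) {x : V} (hx : H.Adj q x) :
    ∑ y ∈ (nb H q).erase x, av {s(q, y)} l = av {s(q, x)} l := by
  have h1 := sum_av H hm hl hc
  rw [← Finset.sum_erase_add _ _ (mem_nb.2 hx), hq] at h1
  have h2 : ((k + 2 : ℕ) : ZMod 2) = 0 := by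
    rw [ZMod.natCast_eq_zero_iff_even]
    exact hk.add (by decide)
  rw [h2] at h1
  have h3 : (2 : ZMod 2) = 0 := rfl
  linear_combination h1 - av {s(q, x)} l * h3

theorem good_pq (H : SimpleGraph V) {k : ℕ} {p q r : V} (hpq : H.Adj p q)
    (hrp : r ≠ p) (hrq : r ≠ q)
    (hp : dg H p = k + 2) (hq : dg H q = k + 2) (hr : k + 1 ≤ dg H r) {y : V}
    (hy : H.Adj p y) (hyq : y ≠ q) : Good H k {p, q, r} {s(p, q), s(p, y)} := by
  have hp2 : dF ({s(p, q), s(p, y)} : Finset (Sym2 V)) p = 2 := by
    refine le_antisymm ?_ ?_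
    · exact (CertP.dF_le (T := {s(p, q), s(p, y)}) fun e he _ => he).trans Finset.card_le_two
    · rw [← CertP.card_pair_sym (a := p) hyq.symm]
      refine CertP.le_dF fun e he => ⟨he, ?_⟩
      rw [Finset.mem_insert, Finset.mem_singleton] at he
      rcases he with rfl | rfl <;> exact Sym2.mem_mk_left _ _
  refine ⟨?_, ?_, p, by simp, ?_⟩
  · intro e he
    rw [Finset.mem_insert, Finset.mem_singleton] at he
    rcases he with rfl | rfl
    · exact ⟨hpq, p, by simp, Sym2.mem_mk_left _ _⟩
    · exact ⟨hy, p, by simp, Sym2.mem_mk_left _ _⟩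
  · intro c hc
    simp only [Finset.mem_insert, Finset.mem_singleton] at hc
    rcases hc with rfl | rfl | rfl
    · omega
    · have h2 : dF ({s(p, c), s(p, y)} : Finset (Sym2 V)) c ≤ 2 :=
        (CertP.dF_le (T := {s(p, c), s(p, y)}) fun e he _ => he).trans Finset.card_le_two
      omega
    · have h1 : dF ({s(p, q), s(p, y)} : Finset (Sym2 V)) c ≤ 1 := by
        refine (CertP.dF_le (T := {s(p, c)}) fun e he hce => ?_).trans (Finset.card_singleton _).le
        simp only [Finset.mem_insert, Finset.mem_singleton] at he ⊢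
        rcases he with rfl | rfl
        · rw [Sym2.mem_iff] at hce
          rcases hce with h | h
          · exact absurd h hrp
          · exact absurd h hrq
        · rw [Sym2.mem_iff] at hce
          rcases hce with h | h
          · exact absurd h hrp
          · rw [h]
      omega
  · omega

theorem good_q (H : SimpleGraph V) {k : ℕ} {p q r : V} (hpq : H.Adj p q)
    (hrp : r ≠ p) (hrq : r ≠ q) (hn : ¬ (H.Adj p r ∧ H.Adj q r))
    (hp : dg H p = k + 2) (hq : dg H q = k + 2) (hr : k + 1 ≤ dg H r) {b x : V}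
    (hb : H.Adj q b) (hx : H.Adj q x) (hbx : b ≠ x) (Z : Finset (Sym2 V))
    (hZ : ∀ e ∈ Z, ∃ y, e = s(p, y) ∧ H.Adj p y ∧ y ≠ q) (hZ1 : Z.card ≤ 1) :
    Good H k {p, q, r} (Z ∪ {s(q, b), s(q, x)}) := by
  have hq2 : dF (Z ∪ {s(q, b), s(q, x)} : Finset (Sym2 V)) q = 2 := by
    refine le_antisymm ?_ ?_
    · refine (CertP.dF_le (T := {s(q, b), s(q, x)}) fun e he hce => ?_).trans Finset.card_le_two
      rw [Finset.mem_union] at he
      rcases he with he | he
      · obtain ⟨y, rfl, -, hyq⟩ := hZ e he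
        rw [Sym2.mem_iff] at hce
        rcases hce with h | h
        · exact absurd h.symm hpq.ne
        · exact absurd h.symm hyq
      · exact he
    · rw [← CertP.card_pair_sym (a := q) hbx]
      refine CertP.le_dF fun e he => ⟨Finset.mem_union_right _ he, ?_⟩
      rw [Finset.mem_insert, Finset.mem_singleton] at he
      rcases he with rfl | rfl <;> exact Sym2.mem_mk_left _ _
  refine ⟨?_, ?_, q, by simp, ?_⟩
  · intro e he
    rw [Finset.mem_union, Finset.mem_insert, Finset.mem_singleton] at he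
    rcases he with he | rfl | rfl
    · obtain ⟨y, rfl, hy, -⟩ := hZ e he
      exact ⟨hy, p, by simp, Sym2.mem_mk_left _ _⟩
    · exact ⟨hb, q, by simp, Sym2.mem_mk_left _ _⟩
    · exact ⟨hx, q, by simp, Sym2.mem_mk_left _ _⟩
  · intro c hc
    simp only [Finset.mem_insert, Finset.mem_singleton] at hc
    rcases hc with rfl | rfl | rfl
    · -- the core `p`
      have h1 : dF (Z ∪ {s(q, b), s(q, x)} : Finset (Sym2 V)) c ≤ (Z ∪ {s(q, c)}).card := by
        refine CertP.dF_le fun e he hce => ?_
        rw [Finset.mem_union, Finset.mem_insert, Finset.mem_singleton] at he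
        rw [Finset.mem_union, Finset.mem_singleton]
        rcases he with he | rfl | rfl
        · exact Or.inl he
        · right
          rw [Sym2.mem_iff] at hce
          rcases hce with h | h
          · exact absurd h hpq.ne
          · rw [h]
        · right
          rw [Sym2.mem_iff] at hce
          rcases hce with h | h
          · exact absurd h hpq.ne
          · rw [h]
      have h2 := Finset.card_union_le Z {s(q, c)}
      rw [Finset.card_singleton] at h2
      omega
    · omega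
    · -- the core `r`
      by_cases hpr : H.Adj p c
      · have hqc : ¬ H.Adj q c := fun h => hn ⟨hpr, h⟩
        have h1 : dF (Z ∪ {s(q, b), s(q, x)} : Finset (Sym2 V)) c ≤ Z.card := by
          refine CertP.dF_le fun e he hce => ?_
          rw [Finset.mem_union, Finset.mem_insert, Finset.mem_singleton] at he
          rcases he with he | rfl | rfl
          · exact he
          · rw [Sym2.mem_iff] at hce
            rcases hce with h | h
            · exact absurd h hrq
            · exact absurd (h ▸ hb) hqc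
          · rw [Sym2.mem_iff] at hce
            rcases hce with h | h
            · exact absurd h hrq
            · exact absurd (h ▸ hx) hqc
        omega
      · have h1 : dF (Z ∪ {s(q, b), s(q, x)} : Finset (Sym2 V)) c ≤ 1 := by
          refine (CertP.dF_le (T := {s(q, c)}) fun e he hce => ?_).trans
            (Finset.card_singleton _).le
          rw [Finset.mem_union, Finset.mem_insert, Finset.mem_singleton] at he
          rw [Finset.mem_singleton]
          rcases he with he | rfl | rfl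
          · obtain ⟨y, rfl, hy, -⟩ := hZ e he
            rw [Sym2.mem_iff] at hce
            rcases hce with h | h
            · exact absurd h hrp
            · exact absurd (h ▸ hy) hpr
          · rw [Sym2.mem_iff] at hce
            rcases hce with h | h
            · exact absurd h hrq
            · rw [h]
          · rw [Sym2.mem_iff] at hce
            rcases hce with h | h
            · exact absurd h hrq
            · rw [h]
        omega
  · omega

/-- a summand of the certificate -/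
theorem block (H : SimpleGraph V) {k m : ℕ} (hm : 2 ≤ m) {p q r : V} (hpq : H.Adj p q)
    (hrp : r ≠ p) (hrq : r ≠ q) (hn : ¬ (H.Adj p r ∧ H.Adj q r)) (hk : Even k)
    (hp : dg H p = k + 2) (hq : dg H q = k + 2) (hr : k + 1 ≤ dg H r) {b x : V}
    (hb : H.Adj q b) (hx : H.Adj q x) (hbx : b ≠ x) :
    ∃ φ ∈ Sp H k {p, q, r}, ∀ l ∈ ML H m, (∀ c ∈ ({p, q, r} : Finset V), ¬ End l c) →
      φ l = (1 + av {s(p, q)} l) * (av {s(q, b)} l * av {s(q, x)} l) := by
  refine ⟨av {s(q, b), s(q, x)} + ∑ y ∈ (nb H p).erase q, av ({s(p, y)} ∪ {s(q, b), s(q, x)}),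
    Submodule.add_mem _ ?_ (Submodule.sum_mem _ fun y hy => ?_), ?_⟩
  · have h1 := good_q H hpq hrp hrq hn hp hq hr hb hx hbx ∅ (by simp) (by simp)
    rw [Finset.empty_union] at h1
    exact CertP.mem_Sp h1
  · rw [Finset.mem_erase, mem_nb] at hy
    refine CertP.mem_Sp (good_q H hpq hrp hrq hn hp hq hr hb hx hbx _ ?_ (by simp))
    intro e he
    rw [Finset.mem_singleton] at he
    exact ⟨y, he, hy.2, hy.1⟩
  · intro l hl hE
    have e1 : ∀ y, av ({s(p, y)} ∪ {s(q, b), s(q, x)} : Finset (Sym2 V)) l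
        = (av {s(q, b)} l * av {s(q, x)} l) * av {s(p, y)} l := by
      intro y
      rw [av_union, CertP.av_two]
      ring
    rw [Pi.add_apply, Finset.sum_apply, Finset.sum_congr rfl fun y _ => e1 y, ← Finset.mul_sum,
      sum_erase H hm hk hp hl (hE p (by simp)) hpq, CertP.av_two]
    ring

end CertE

/-- a core of odd degree `k + 1`: the sum of `av {s(p, y)}` over the neighbours `y` of `p` -/
theorem cert_one (H : SimpleGraph V) {k m : ℕ} (hm : 2 ≤ m) (C : Finset V) {p : V} (hp : p ∈ C)
    (hd : dg H p = k + 1) (hk : Even k) (hC : ∀ c ∈ C, k + 1 ≤ dg H c) :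
    ∃ φ ∈ Sp H k C, ∀ l ∈ ML H m, (∀ c ∈ C, ¬ End l c) → φ l = 1 := by
  refine ⟨∑ y ∈ nb H p, av {s(p, y)}, Submodule.sum_mem _ fun y hy => ?_, ?_⟩
  · rw [mem_nb] at hy
    have hle : ∀ c, dF ({s(p, y)} : Finset (Sym2 V)) c ≤ 1 := fun c =>
      (CertP.dF_le (T := {s(p, y)}) fun e he _ => he).trans (Finset.card_singleton _).le
    have hge : 1 ≤ dF ({s(p, y)} : Finset (Sym2 V)) p := by
      rw [← Finset.card_singleton s(p, y)]
      refine CertP.le_dF fun e he => ⟨he, ?_⟩
      rw [Finset.mem_singleton] at he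
      rw [he]
      exact Sym2.mem_mk_left _ _
    refine CertP.mem_Sp ⟨?_, ?_, p, hp, ?_⟩
    · intro e he
      rw [Finset.mem_singleton] at he
      subst he
      exact ⟨hy, p, hp, Sym2.mem_mk_left _ _⟩
    · intro c hc
      have h1 := hle c
      have h2 := hC c hc
      omega
    · have h1 := hle p
      omega
  · intro l hl hE
    rw [Finset.sum_apply, CertE.sum_av H hm hl (hE p hp), hd]
    have h2 : ((k : ℕ) : ZMod 2) = 0 := (ZMod.natCast_eq_zero_iff_even).2 hk
    push_cast
    rw [h2, zero_add]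

/-- two adjacent cores `p`, `q` of even degree `k + 2`.  Write `a_xy = av {s(x, y)}`,
`A = ∑ a_py` over the neighbours `y ≠ q` of `p`, let `b`, `c` be two neighbours of `q` other than
`p`, `Q_b = ∑ a_qb a_qy` over the neighbours `y ≠ b` of `q`; then
`1 = a_pq A + (1 + A) (Q_b + Q_c + a_qb a_qc)`.
(Values: `A = 1 + σ`, `Q_b = a_qb`, where `σ = 1 + a_pq`, and `(1 + a_pq) (1 + a_qb) (1 + a_qc) = 0`.)
-/
theorem cert_two (H : SimpleGraph V) {k m : ℕ} (hm : 2 ≤ m) {p q r : V} (hpq : H.Adj p q)
    (hrp : r ≠ p) (hrq : r ≠ q) (hn : ¬ (H.Adj p r ∧ H.Adj q r)) (hk : Even k) (hk2 : 2 ≤ k)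
    (hp : dg H p = k + 2) (hq : dg H q = k + 2) (hr : k + 1 ≤ dg H r) :
    ∃ φ ∈ Sp H k {p, q, r}, ∀ l ∈ ML H m, (∀ c ∈ ({p, q, r} : Finset V), ¬ End l c) →
      φ l = 1 := by
  have h3 : 1 < ((nb H q).erase p).card := by
    rw [Finset.card_erase_of_mem (mem_nb.2 hpq.symm), card_nb, hq]
    omega
  obtain ⟨b, hb, c, hc, hbc⟩ := Finset.one_lt_card.1 h3
  rw [Finset.mem_erase, mem_nb] at hb hc
  have hB : ∀ x ∈ (nb H q).erase b, ∃ φ ∈ Sp H k {p, q, r}, ∀ l ∈ ML H m,
      (∀ c ∈ ({p, q, r} : Finset V), ¬ End l c) →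
      φ l = (1 + av {s(p, q)} l) * (av {s(q, b)} l * av {s(q, x)} l) := by
    intro x hx
    rw [Finset.mem_erase, mem_nb] at hx
    exact CertE.block H hm hpq hrp hrq hn hk hp hq hr hb.2 hx.2 hx.1.symm
  have hCc : ∀ x ∈ (nb H q).erase c, ∃ φ ∈ Sp H k {p, q, r}, ∀ l ∈ ML H m,
      (∀ c ∈ ({p, q, r} : Finset V), ¬ End l c) →
      φ l = (1 + av {s(p, q)} l) * (av {s(q, c)} l * av {s(q, x)} l) := by
    intro x hx
    rw [Finset.mem_erase, mem_nb] at hx
    exact CertE.block H hm hpq hrp hrq hn hk hp hq hr hc.2 hx.2 hx.1.symm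
  choose! g hg1 hg2 using hB
  choose! g' hg1' hg2' using hCc
  obtain ⟨ψ, hψ1, hψ2⟩ := CertE.block H hm hpq hrp hrq hn hk hp hq hr hb.2 hc.2 hbc
  refine ⟨∑ y ∈ (nb H p).erase q, av {s(p, q), s(p, y)} + ∑ x ∈ (nb H q).erase b, g x +
    ∑ x ∈ (nb H q).erase c, g' x + ψ, ?_, ?_⟩
  · refine Submodule.add_mem _ (Submodule.add_mem _ (Submodule.add_mem _
      (Submodule.sum_mem _ fun y hy => ?_) (Submodule.sum_mem _ hg1)) (Submodule.sum_mem _ hg1')) hψ1
    rw [Finset.mem_erase, mem_nb] at hy
    exact CertP.mem_Sp (CertE.good_pq H hpq hrp hrq hp hq hr hy.2 hy.1)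
  · intro l hl hE
    have hEp := hE p (by simp)
    have hEq := hE q (by simp)
    have e1 : ∑ y ∈ (nb H p).erase q, av {s(p, q), s(p, y)} l
        = av {s(p, q)} l * av {s(p, q)} l := by
      have e : ∀ y, av {s(p, q), s(p, y)} l = av {s(p, q)} l * av {s(p, y)} l := fun y =>
        CertP.av_two _ _ _
      rw [Finset.sum_congr rfl fun y _ => e y, ← Finset.mul_sum,
        CertE.sum_erase H hm hk hp hl hEp hpq]
    have e2 : ∑ x ∈ (nb H q).erase b, g x l
        = (1 + av {s(p, q)} l) * (av {s(q, b)} l * av {s(q, b)} l) := by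
      rw [Finset.sum_congr rfl fun x hx => hg2 x hx l hl hE, ← Finset.mul_sum, ← Finset.mul_sum,
        CertE.sum_erase H hm hk hq hl hEq hb.2]
    have e3 : ∑ x ∈ (nb H q).erase c, g' x l
        = (1 + av {s(p, q)} l) * (av {s(q, c)} l * av {s(q, c)} l) := by
      rw [Finset.sum_congr rfl fun x hx => hg2' x hx l hl hE, ← Finset.mul_sum, ← Finset.mul_sum,
        CertE.sum_erase H hm hk hq hl hEq hc.2]
    have t1 := sc_three hl.1 (c := q) hb.1.symm hc.1.symm hbc
    rw [Pi.add_apply, Pi.add_apply, Pi.add_apply, Finset.sum_apply, Finset.sum_apply,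
      Finset.sum_apply, e1, e2, e3, hψ2 l hl hE, av_edge p q, av_edge q b, av_edge q c,
      sc_comm p q l]
    generalize sc q p l = a at *
    generalize sc q b l = b' at *
    generalize sc q c l = c' at *
    clear e1 e2 e3
    revert a b' c'
    decide

end Pool.Agent.Helper52.DT
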