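import Pool.Agent.Helper52.DT.BasicB

/-! # DT: certificates, odd k, degrees k + 1 and k + 2 (piece DT-CertM) -/

namespace Pool.Agent.Helper52.DT

open Finset Pool.Agent.Helper52.LP
open scoped Classical

variable {V : Type} [Fintype V] [DecidableEq V]

/-- The edges from `q` to `U` and from `p` to `W`. -/
private noncomputable def cmF (p q : V) (U W : Finset V) : Finset (Sym2 V) :=
  U.image (fun u => s(q, u)) ∪ W.image fun y => s(p, y)

omit [Fintype V] in
private theorem cm_image (a : V) (U : Finset V) (l : List V) :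
    av (U.image fun u => s(a, u)) l = ∏ u ∈ U, (1 + sc a u l) := by
  induction U using Finset.induction_on with
  | empty => rw [image_empty, prod_empty, av_empty]
  | insert u U hu ih =>
    rw [image_insert, Finset.insert_eq, av_union, ih, prod_insert hu, av_edge]

omit [Fintype V] in
private theorem cm_av (p q : V) (U W : Finset V) (l : List V) :
    av (cmF p q U W) l = (∏ u ∈ U, (1 + sc q u l)) * ∏ y ∈ W, (1 + sc p y l) := by
  rw [cmF, av_union, cm_image, cm_image]

omit [Fintype V] [DecidableEq V] in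
private theorem cm_inj (a : V) : Function.Injective fun u : V => s(a, u) := by
  intro u v h
  exact Sym2.congr_right.mp h

private theorem cm_good (H : SimpleGraph V) {k : ℕ} {p q r : V} (hpq : H.Adj p q)
    (hrp : r ≠ p) (hrq : r ≠ q) (hn : ¬ (H.Adj p r ∧ H.Adj q r))
    (hp : dg H p = k + 1) (hq : dg H q = k + 2) (hr : k + 1 ≤ dg H r) (U W : Finset V)
    (hU : U ⊆ (nb H q).erase p) (hW : W ⊆ (nb H p).erase q) (hU2 : U.card ≤ 2)
    (hW1 : W.card ≤ 1) (h : W.card = 1 ∨ U.card = 2) :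
    Good H k {p, q, r} (cmF p q U W) := by
  have hUa : ∀ u ∈ U, H.Adj q u ∧ u ≠ p := fun u hu =>
    ⟨mem_nb.mp (mem_erase.mp (hU hu)).2, (mem_erase.mp (hU hu)).1⟩
  have hWa : ∀ y ∈ W, H.Adj p y ∧ y ≠ q := fun y hy =>
    ⟨mem_nb.mp (mem_erase.mp (hW hy)).2, (mem_erase.mp (hW hy)).1⟩
  have dq : dF (cmF p q U W) q = U.card := by
    have e : (cmF p q U W).filter (fun e => q ∈ e) = U.image fun u => s(q, u) := by
      ext e
      simp only [cmF, mem_filter, mem_union, mem_image]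
      constructor
      · rintro ⟨⟨u, hu, rfl⟩ | ⟨y, hy, rfl⟩, h2⟩
        · exact ⟨u, hu, rfl⟩
        · rw [Sym2.mem_iff] at h2
          rcases h2 with h2 | h2
          · exact absurd h2.symm hpq.ne
          · exact absurd h2.symm (hWa y hy).2
      · rintro ⟨u, hu, rfl⟩
        exact ⟨Or.inl ⟨u, hu, rfl⟩, by rw [Sym2.mem_iff]; exact Or.inl rfl⟩
    rw [dF, e, card_image_of_injective _ (cm_inj q)]
  have dp : dF (cmF p q U W) p = W.card := by
    have e : (cmF p q U W).filter (fun e => p ∈ e) = W.image fun y => s(p, y) := by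
      ext e
      simp only [cmF, mem_filter, mem_union, mem_image]
      constructor
      · rintro ⟨⟨u, hu, rfl⟩ | ⟨y, hy, rfl⟩, h2⟩
        · rw [Sym2.mem_iff] at h2
          rcases h2 with h2 | h2
          · exact absurd h2 hpq.ne
          · exact absurd h2.symm (hUa u hu).2
        · exact ⟨y, hy, rfl⟩
      · rintro ⟨y, hy, rfl⟩
        exact ⟨Or.inr ⟨y, hy, rfl⟩, by rw [Sym2.mem_iff]; exact Or.inl rfl⟩
    rw [dF, e, card_image_of_injective _ (cm_inj p)]
  have dr : dF (cmF p q U W) r ≤ 1 := by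
    rw [dF, card_le_one]
    have key : ∀ e ∈ (cmF p q U W).filter (fun e => r ∈ e),
        (e = s(q, r) ∧ H.Adj q r) ∨ (e = s(p, r) ∧ H.Adj p r) := by
      intro e he
      simp only [cmF, mem_filter, mem_union, mem_image] at he
      obtain ⟨⟨u, hu, rfl⟩ | ⟨y, hy, rfl⟩, h2⟩ := he
      · rw [Sym2.mem_iff] at h2
        rcases h2 with h2 | h2
        · exact absurd h2 hrq
        · subst h2
          exact Or.inl ⟨rfl, (hUa _ hu).1⟩
      · rw [Sym2.mem_iff] at h2
        rcases h2 with h2 | h2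
        · exact absurd h2 hrp
        · subst h2
          exact Or.inr ⟨rfl, (hWa _ hy).1⟩
    intro e he e' he'
    rcases key e he with ⟨h1, h2⟩ | ⟨h1, h2⟩ <;> rcases key e' he' with ⟨h3, h4⟩ | ⟨h3, h4⟩
    · rw [h1, h3]
    · exact absurd ⟨h4, h2⟩ hn
    · exact absurd ⟨h2, h4⟩ hn
    · rw [h1, h3]
  refine ⟨?_, ?_, ?_⟩
  · intro e he
    simp only [cmF, mem_union, mem_image] at he
    rcases he with ⟨u, hu, rfl⟩ | ⟨y, hy, rfl⟩
    · exact ⟨(hUa u hu).1, q, by simp, by rw [Sym2.mem_iff]; exact Or.inl rfl⟩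
    · exact ⟨(hWa y hy).1, p, by simp, by rw [Sym2.mem_iff]; exact Or.inl rfl⟩
  · intro c hc
    simp only [mem_insert, mem_singleton] at hc
    rcases hc with rfl | rfl | rfl
    · rw [dp, hp]
      omega
    · rw [dq, hq]
      omega
    · omega
  · rcases h with h | h
    · exact ⟨p, by simp, by rw [dp, hp]; omega⟩
    · exact ⟨q, by simp, by rw [dq, hq]; omega⟩

/-- adjacent cores `p` of even degree `k + 1` and `q` of degree `k + 2`.  Write
`a_xy = av {s(x, y)}`, `A = ∑ a_py` over the neighbours `y ≠ q` of `p`, let `b`, `c`, `d` be three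
neighbours of `q` other than `p`; then
`1 = (a_qb a_qc + a_qb a_qd + a_qc a_qd) +
  A ((1 + a_qb) (1 + a_qc) + (1 + a_qb) (1 + a_qd) + (1 + a_qc) (1 + a_qd))`.
(Values: `A = 1 + σ`, `σ = 1 + a_pq = [pq on the path]`.) -/
theorem cert_mix (H : SimpleGraph V) {k m : ℕ} (hm : 2 ≤ m) {p q r : V} (hpq : H.Adj p q)
    (hrp : r ≠ p) (hrq : r ≠ q) (hn : ¬ (H.Adj p r ∧ H.Adj q r)) (hk : Odd k) (hk2 : 2 ≤ k)
    (hp : dg H p = k + 1) (hq : dg H q = k + 2) (hr : k + 1 ≤ dg H r) :
    ∃ φ ∈ Sp H k {p, q, r}, ∀ l ∈ ML H m, (∀ c ∈ ({p, q, r} : Finset V), ¬ End l c) →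
      φ l = 1 := by
  have hY : ((nb H p).erase q).card = k := by
    rw [card_erase_of_mem (mem_nb.mpr hpq), card_nb, hp]
    omega
  have hZ : 3 ≤ ((nb H q).erase p).card := by
    rw [card_erase_of_mem (mem_nb.mpr hpq.symm), card_nb, hq]
    obtain ⟨j, hj⟩ := hk
    omega
  obtain ⟨T, hT, hT3⟩ := exists_subset_card_eq hZ
  obtain ⟨b, c, d, hbc, hbd, hcd, rfl⟩ := card_eq_three.mp hT3
  have hb : b ∈ (nb H q).erase p := hT (by simp)
  have hc : c ∈ (nb H q).erase p := hT (by simp)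
  have hd : d ∈ (nb H q).erase p := hT (by simp)
  have hsp : ∀ U W : Finset V, U ⊆ (nb H q).erase p → W ⊆ (nb H p).erase q → U.card ≤ 2 →
      W.card ≤ 1 → (W.card = 1 ∨ U.card = 2) → av (cmF p q U W) ∈ Sp H k {p, q, r} := by
    intro U W h1 h2 h3 h4 h5
    exact Submodule.subset_span ⟨_, cm_good H hpq hrp hrq hn hp hq hr U W h1 h2 h3 h4 h5, rfl⟩
  have h0 : (∅ : Finset V) ⊆ (nb H q).erase p := empty_subset _
  have h1 : ∀ u ∈ (nb H q).erase p, ({u} : Finset V) ⊆ (nb H q).erase p := fun u hu =>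
    singleton_subset_iff.mpr hu
  have h2 : ∀ u ∈ (nb H q).erase p, ∀ v ∈ (nb H q).erase p,
      ({u, v} : Finset V) ⊆ (nb H q).erase p := fun u hu v hv =>
    insert_subset hu (singleton_subset_iff.mpr hv)
  have hP : ∀ u ∈ (nb H q).erase p, ∀ v ∈ (nb H q).erase p, u ≠ v →
      av (cmF p q {u, v} ∅) ∈ Sp H k {p, q, r} := fun u hu v hv huv =>
    hsp _ _ (h2 u hu v hv) (empty_subset _) (by rw [card_pair huv]) (by simp)
      (Or.inr (card_pair huv))
  have hQ : ∀ u ∈ (nb H q).erase p, ∀ v ∈ (nb H q).erase p, u ≠ v →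
      (∑ y ∈ (nb H p).erase q, (av (cmF p q ∅ {y}) + av (cmF p q {u} {y}) +
        av (cmF p q {v} {y}) + av (cmF p q {u, v} {y}))) ∈ Sp H k {p, q, r} := by
    intro u hu v hv huv
    refine Submodule.sum_mem _ fun y hy => ?_
    have hy1 := singleton_subset_iff.mpr hy
    exact Submodule.add_mem _ (Submodule.add_mem _ (Submodule.add_mem _
      (hsp _ _ h0 hy1 (by simp) (by simp) (Or.inl (by simp)))
      (hsp _ _ (h1 u hu) hy1 (by simp) (by simp) (Or.inl (by simp))))
      (hsp _ _ (h1 v hv) hy1 (by simp) (by simp) (Or.inl (by simp))))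
      (hsp _ _ (h2 u hu v hv) hy1 (by rw [card_pair huv]) (by simp) (Or.inl (by simp)))
  refine ⟨av (cmF p q {b, c} ∅) + av (cmF p q {b, d} ∅) + av (cmF p q {c, d} ∅) +
    ((∑ y ∈ (nb H p).erase q, (av (cmF p q ∅ {y}) + av (cmF p q {b} {y}) +
        av (cmF p q {c} {y}) + av (cmF p q {b, c} {y}))) +
      (∑ y ∈ (nb H p).erase q, (av (cmF p q ∅ {y}) + av (cmF p q {b} {y}) +
        av (cmF p q {d} {y}) + av (cmF p q {b, d} {y}))) +
      ∑ y ∈ (nb H p).erase q, (av (cmF p q ∅ {y}) + av (cmF p q {c} {y}) +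
        av (cmF p q {d} {y}) + av (cmF p q {c, d} {y}))),
    Submodule.add_mem _ (Submodule.add_mem _ (Submodule.add_mem _ (hP b hb c hc hbc)
      (hP b hb d hd hbd)) (hP c hc d hd hcd)) (Submodule.add_mem _ (Submodule.add_mem _
      (hQ b hb c hc hbc) (hQ b hb d hd hbd)) (hQ c hc d hd hcd)), ?_⟩
  intro l hl hE
  have two : (2 : ZMod 2) = 0 := by decide
  -- the value of the sums
  have hsum : ∀ u v : V, u ≠ v → (∑ y ∈ (nb H p).erase q, (av (cmF p q ∅ {y}) +
      av (cmF p q {u} {y}) + av (cmF p q {v} {y}) + av (cmF p q {u, v} {y}))) l =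
      (∑ y ∈ (nb H p).erase q, (1 + sc p y l)) * (sc q u l * sc q v l) := by
    intro u v huv
    rw [Finset.sum_apply, Finset.sum_mul]
    refine Finset.sum_congr rfl fun y _ => ?_
    simp only [Pi.add_apply, cm_av, prod_empty, prod_singleton, prod_pair huv]
    linear_combination ((1 + sc p y l) * (2 + sc q u l + sc q v l)) * two
  have hA : ∑ y ∈ (nb H p).erase q, (1 + sc p y l) = 1 + sc p q l := by
    rw [sum_add_distrib, sum_const, hY, nsmul_eq_mul, mul_one]
    have h3 := sum_sc hm hl (hE p (by simp))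
    rw [← add_sum_erase _ _ (mem_nb.mpr hpq)] at h3
    have h4 : (k : ZMod 2) = 1 := by
      obtain ⟨j, rfl⟩ := hk
      push_cast
      linear_combination (j : ZMod 2) * two
    rw [h4]
    linear_combination h3 - sc p q l * two
  have hpb : b ≠ p := (mem_erase.mp hb).1
  have hpc : c ≠ p := (mem_erase.mp hc).1
  have hpd : d ≠ p := (mem_erase.mp hd).1
  have t1 := sc_three (c := q) hl.1 hpb.symm hpc.symm hbc
  have t2 := sc_three (c := q) hl.1 hpb.symm hpd.symm hbd
  have t3 := sc_three (c := q) hl.1 hpc.symm hpd.symm hcd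
  rw [sc_comm q p] at t1 t2 t3
  simp only [Pi.add_apply, hsum b c hbc, hsum b d hbd, hsum c d hcd, hA, cm_av, prod_empty,
    prod_pair hbc, prod_pair hbd, prod_pair hcd]
  linear_combination t1 + t2 + t3 + (1 + sc q b l + sc q c l + sc q d l + sc q b l * sc q c l +
    sc q b l * sc q d l + sc q c l * sc q d l) * two

end Pool.Agent.Helper52.DT
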