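import Pool.Agent.Helper52.DT.BasicB

/-! # DT: certificates, odd k, degrees k + 1 (piece DT-CertO) -/

namespace Pool.Agent.Helper52.DT

open Finset Pool.Agent.Helper52.LP
open scoped Classical

variable {V : Type} [Fintype V] [DecidableEq V]

private theorem certO_sum (H : SimpleGraph V) {k m : ℕ} (hm : 2 ≤ m) {p q : V}
    (hpq : H.Adj p q) (hk : Odd k) (hp : dg H p = k + 1) {l : List V} (hl : l ∈ ML H m)
    (he : ¬ End l p) : ∑ y ∈ (nb H p).erase q, av {s(p, y)} l = 1 + sc p q l := by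
  have h1 := sum_sc hm hl he
  rw [← Finset.add_sum_erase _ _ (mem_nb.2 hpq)] at h1
  have h2 : ∑ y ∈ (nb H p).erase q, sc p y l = sc p q l := by
    rw [← sub_eq_zero, sub_eq_add_neg, ZMod.neg_eq_self_mod_two, add_comm]
    exact h1
  simp only [av_edge, Finset.sum_add_distrib, h2]
  rw [Finset.sum_const, Finset.card_erase_of_mem (mem_nb.2 hpq), card_nb, hp, Nat.add_sub_cancel]
  obtain ⟨j, rfl⟩ := hk
  have h3 : (2 : ZMod 2) = 0 := rfl
  rw [nsmul_eq_mul, mul_one, Nat.cast_add, Nat.cast_mul, Nat.cast_ofNat, h3, zero_mul, zero_add,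
    Nat.cast_one]

/-- `F` has exactly one edge at the cores in `S`, and no edge at the other cores in `C`. -/
private structure Tr (H : SimpleGraph V) (C S : Finset V) (F : Finset (Sym2 V)) : Prop where
  edge : ∀ e ∈ F, ∃ c ∈ C, ∃ y, H.Adj c y ∧ e = s(c, y)
  zero : ∀ c ∈ C, c ∉ S → dF F c = 0
  one : ∀ c ∈ C, c ∈ S → dF F c = 1

omit [Fintype V] in
private theorem dF_union {F F' : Finset (Sym2 V)} {c : V} (h : dF F' c = 0) :
    dF (F ∪ F') c = dF F c := by
  unfold dF at *
  rw [Finset.card_eq_zero] at h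
  rw [Finset.filter_union, h, Finset.union_empty]

omit [Fintype V] in
private theorem Tr.union {H : SimpleGraph V} {C S S' : Finset V} {F F' : Finset (Sym2 V)}
    (h : Tr H C S F) (h' : Tr H C S' F') (hd : ∀ c ∈ S, c ∉ S') :
    Tr H C (S ∪ S') (F ∪ F') := by
  refine ⟨?_, ?_, ?_⟩
  · intro e he
    rcases Finset.mem_union.1 he with he | he
    · exact h.edge e he
    · exact h'.edge e he
  · intro c hc hcS
    rw [Finset.mem_union, not_or] at hcS
    rw [dF_union (h'.zero c hc hcS.2), h.zero c hc hcS.1]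
  · intro c hc hcS
    by_cases h1 : c ∈ S
    · rw [dF_union (h'.zero c hc (hd c h1)), h.one c hc h1]
    · have h2 := (Finset.mem_union.1 hcS).resolve_left h1
      rw [Finset.union_comm, dF_union (h.zero c hc h1), h'.one c hc h2]

omit [Fintype V] in
private theorem Tr.single {H : SimpleGraph V} {C : Finset V} {c y : V} (hc : c ∈ C) (hy : y ∉ C)
    (h : H.Adj c y) : Tr H C {c} {s(c, y)} := by
  refine ⟨?_, ?_, ?_⟩
  · intro e he
    rw [Finset.mem_singleton] at he
    exact ⟨c, hc, y, h, he⟩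
  · intro d hd hdc
    rw [Finset.mem_singleton] at hdc
    unfold dF
    rw [Finset.card_eq_zero, Finset.filter_eq_empty_iff]
    intro e he hde
    rw [Finset.mem_singleton] at he
    rw [he, Sym2.mem_iff] at hde
    rcases hde with h1 | h1
    · exact hdc h1
    · exact hy (h1 ▸ hd)
  · intro d hd hdc
    rw [Finset.mem_singleton] at hdc
    subst hdc
    unfold dF
    rw [Finset.filter_true_of_mem, Finset.card_singleton]
    intro e he
    rw [Finset.mem_singleton] at he
    rw [he]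
    exact Sym2.mem_mk_left _ _

private theorem Tr.mem {H : SimpleGraph V} {k : ℕ} {C S : Finset V} {F : Finset (Sym2 V)}
    (h : Tr H C S F) (hC : ∀ c ∈ C, dg H c = k + 1) (hS : ∃ c ∈ C, c ∈ S) :
    av F ∈ Sp H k C := by
  refine Submodule.subset_span ⟨F, ⟨?_, ?_, ?_⟩, rfl⟩
  · intro e he
    obtain ⟨c, hc, y, hy, rfl⟩ := h.edge e he
    exact ⟨hy, c, hc, Sym2.mem_mk_left c y⟩
  · intro c hc
    rw [hC c hc]
    by_cases h1 : c ∈ S
    · rw [h.one c hc h1]
      omega
    · rw [h.zero c hc h1]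
      omega
  · obtain ⟨c, hc, h1⟩ := hS
    refine ⟨c, hc, ?_⟩
    rw [hC c hc, h.one c hc h1]
    omega

/-- three cores of even degree `k + 1`, `q` adjacent to `p` and `r`.  Write `A = ∑ a_py` over the
neighbours `y ≠ q` of `p`, `B = ∑ a_ry` over the neighbours `y ≠ q` of `r`, let `b` be a neighbour
of `q` other than `p` and `r`; then `1 = (A + B + A B) (1 + a_qb) + a_qb`.
(Values: `A = a_pq`, `B = a_rq`, `(1 + a_pq) (1 + a_rq) (1 + a_qb) = 0`.) -/
theorem cert_one_one_one (H : SimpleGraph V) {k m : ℕ} (hm : 2 ≤ m) {p q r : V}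
    (hpq : H.Adj p q) (hqr : H.Adj q r) (hpr : p ≠ r) (hn : ¬ H.Adj p r) (hk : Odd k)
    (hk2 : 2 ≤ k) (hp : dg H p = k + 1) (hq : dg H q = k + 1) (hr : dg H r = k + 1) :
    ∃ φ ∈ Sp H k {p, q, r}, ∀ l ∈ ML H m, (∀ c ∈ ({p, q, r} : Finset V), ¬ End l c) →
      φ l = 1 := by
  set C : Finset V := {p, q, r} with hCdef
  have memC : ∀ c, c ∈ C ↔ c = p ∨ c = q ∨ c = r := by
    intro c
    simp [hCdef]
  have hC : ∀ c ∈ C, dg H c = k + 1 := by
    intro c hc
    rcases (memC c).1 hc with rfl | rfl | rfl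
    · exact hp
    · exact hq
    · exact hr
  have mp : p ∈ C := (memC p).2 (Or.inl rfl)
  have mq : q ∈ C := (memC q).2 (Or.inr (Or.inl rfl))
  have mr : r ∈ C := (memC r).2 (Or.inr (Or.inr rfl))
  have hpq' := hpq.ne
  have hqr' := hqr.ne
  -- the neighbour `b`
  obtain ⟨b, hb⟩ : (((nb H q).erase p).erase r).Nonempty := by
    rw [← Finset.card_pos]
    have h1 := Finset.pred_card_le_card_erase (s := nb H q) (a := p)
    have h2 := Finset.pred_card_le_card_erase (s := (nb H q).erase p) (a := r)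
    rw [card_nb, hq] at h1
    omega
  rw [Finset.mem_erase, Finset.mem_erase, mem_nb] at hb
  obtain ⟨hbr, hbp, hqb⟩ := hb
  have hbC : b ∉ C := by
    intro h
    rcases (memC b).1 h with h | h | h
    · exact hbp h
    · exact hqb.ne' h
    · exact hbr h
  have tp : ∀ y ∈ (nb H p).erase q, Tr H C {p} {s(p, y)} := by
    intro y hy
    rw [Finset.mem_erase, mem_nb] at hy
    refine Tr.single mp ?_ hy.2
    intro h
    rcases (memC y).1 h with h | h | h
    · exact hy.2.ne' h
    · exact hy.1 h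
    · exact hn (h ▸ hy.2)
  have tr : ∀ y ∈ (nb H r).erase q, Tr H C {r} {s(r, y)} := by
    intro y hy
    rw [Finset.mem_erase, mem_nb] at hy
    refine Tr.single mr ?_ hy.2
    intro h
    rcases (memC y).1 h with h | h | h
    · exact hn (h ▸ hy.2).symm
    · exact hy.1 h
    · exact hy.2.ne' h
  have tq : Tr H C {q} {s(q, b)} := Tr.single mq hbC hqb
  refine ⟨∑ y ∈ (nb H p).erase q, av {s(p, y)} + ∑ z ∈ (nb H r).erase q, av {s(r, z)} +
    ∑ y ∈ (nb H p).erase q, ∑ z ∈ (nb H r).erase q, av ({s(p, y)} ∪ {s(r, z)}) +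
    ∑ y ∈ (nb H p).erase q, av ({s(p, y)} ∪ {s(q, b)}) +
    ∑ z ∈ (nb H r).erase q, av ({s(r, z)} ∪ {s(q, b)}) +
    ∑ y ∈ (nb H p).erase q, ∑ z ∈ (nb H r).erase q, av ({s(p, y)} ∪ {s(r, z)} ∪ {s(q, b)}) +
    av {s(q, b)}, ?_, ?_⟩
  · have d1 : ∀ c ∈ ({p} : Finset V), c ∉ ({r} : Finset V) := by
      intro c hc
      rw [Finset.mem_singleton] at hc ⊢
      rw [hc]
      exact hpr
    have d2 : ∀ c ∈ ({p} : Finset V), c ∉ ({q} : Finset V) := by
      intro c hc
      rw [Finset.mem_singleton] at hc ⊢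
      rw [hc]
      exact hpq'
    have d3 : ∀ c ∈ ({r} : Finset V), c ∉ ({q} : Finset V) := by
      intro c hc
      rw [Finset.mem_singleton] at hc ⊢
      rw [hc]
      exact hqr'.symm
    have d4 : ∀ c ∈ ({p} ∪ {r} : Finset V), c ∉ ({q} : Finset V) := by
      intro c hc
      rcases Finset.mem_union.1 hc with hc | hc
      · exact d2 c hc
      · exact d3 c hc
    refine Submodule.add_mem _ (Submodule.add_mem _ (Submodule.add_mem _ (Submodule.add_mem _
      (Submodule.add_mem _ (Submodule.add_mem _ ?_ ?_) ?_) ?_) ?_) ?_) ?_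
    · exact Submodule.sum_mem _ fun y hy => (tp y hy).mem hC ⟨p, mp, by simp⟩
    · exact Submodule.sum_mem _ fun y hy => (tr y hy).mem hC ⟨r, mr, by simp⟩
    · exact Submodule.sum_mem _ fun y hy => Submodule.sum_mem _ fun z hz =>
        ((tp y hy).union (tr z hz) d1).mem hC ⟨p, mp, by simp⟩
    · exact Submodule.sum_mem _ fun y hy => ((tp y hy).union tq d2).mem hC ⟨p, mp, by simp⟩
    · exact Submodule.sum_mem _ fun y hy => ((tr y hy).union tq d3).mem hC ⟨r, mr, by simp⟩
    · exact Submodule.sum_mem _ fun y hy => Submodule.sum_mem _ fun z hz =>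
        (((tp y hy).union (tr z hz) d1).union tq d4).mem hC ⟨p, mp, by simp⟩
    · exact tq.mem hC ⟨q, mq, by simp⟩
  · intro l hl he
    have hA := certO_sum H hm hpq hk hp hl (he p mp)
    have hB := certO_sum H hm hqr.symm hk hr hl (he r mr)
    have h3 : sc q p l * sc q r l * sc q b l = 0 := sc_three hl.1 hpr hbp.symm hbr.symm
    rw [sc_comm q p, sc_comm q r] at h3
    simp only [Pi.add_apply, Finset.sum_apply, av_union, ← Finset.sum_mul, ← Finset.mul_sum]
    rw [hA, hB, av_edge]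
    revert h3
    generalize sc p q l = x
    generalize sc r q l = y
    generalize sc q b l = z
    revert x y z
    decide

end Pool.Agent.Helper52.DT
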