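import Pool.Agent.Helper52.DT.BasicB

/-! # DT: certificates, odd k, degrees k + 2 (piece DT-CertP) -/

namespace Pool.Agent.Helper52.DT

open Finset Pool.Agent.Helper52.LP
open scoped Classical

variable {V : Type} [Fintype V] [DecidableEq V]

namespace CertP

omit [Fintype V] in
theorem dF_le {F T : Finset (Sym2 V)} {c : V} (h : ∀ e ∈ F, c ∈ e → e ∈ T) : dF F c ≤ T.card := by
  refine Finset.card_le_card fun e he => ?_
  rw [Finset.mem_filter] at he
  exact h e he.1 he.2

omit [Fintype V] in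
theorem le_dF {F T : Finset (Sym2 V)} {c : V} (h : ∀ e ∈ T, e ∈ F ∧ c ∈ e) : T.card ≤ dF F c := by
  refine Finset.card_le_card fun e he => ?_
  rw [Finset.mem_filter]
  exact h e he

omit [Fintype V] in
theorem card_pair_sym {a x y : V} (h : x ≠ y) : ({s(a, x), s(a, y)} : Finset (Sym2 V)).card = 2 := by
  refine Finset.card_pair fun e => h ?_
  rw [Sym2.eq_iff] at e
  rcases e with ⟨_, e⟩ | ⟨e1, e2⟩
  · exact e
  · exact e2.trans e1

theorem good2 (H : SimpleGraph V) {k : ℕ} {C : Finset V} {p q r : V}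
    (hC : ∀ c, c ∈ C ↔ c = p ∨ c = q ∨ c = r) (hpq : H.Adj p q) (hqr : H.Adj q r) (hpr : p ≠ r)
    (hp : dg H p = k + 2) (hq : dg H q = k + 2) (hr : dg H r = k + 2) {x : V} (hx : H.Adj q x)
    (hxr : x ≠ r) : Good H k C {s(q, x), s(q, r)} := by
  have hqC : q ∈ C := (hC q).2 (Or.inr (Or.inl rfl))
  refine ⟨?_, ?_, q, hqC, ?_⟩
  · intro e he
    rw [Finset.mem_insert, Finset.mem_singleton] at he
    rcases he with rfl | rfl
    · exact ⟨hx, q, hqC, Sym2.mem_mk_left _ _⟩
    · exact ⟨hqr, q, hqC, Sym2.mem_mk_left _ _⟩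
  · intro c hc
    have h2 : dF ({s(q, x), s(q, r)} : Finset (Sym2 V)) c ≤ 2 :=
      (dF_le (T := {s(q, x), s(q, r)}) fun e he _ => he).trans Finset.card_le_two
    rcases (hC c).1 hc with rfl | rfl | rfl <;> omega
  · have h2 : dF ({s(q, x), s(q, r)} : Finset (Sym2 V)) q ≤ 2 :=
      (dF_le (T := {s(q, x), s(q, r)}) fun e he _ => he).trans Finset.card_le_two
    have h3 : 2 ≤ dF ({s(q, x), s(q, r)} : Finset (Sym2 V)) q := by
      rw [← card_pair_sym (a := q) hxr]
      refine le_dF fun e he => ⟨he, ?_⟩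
      rw [Finset.mem_insert, Finset.mem_singleton] at he
      rcases he with rfl | rfl <;> exact Sym2.mem_mk_left _ _
    omega

theorem good4 (H : SimpleGraph V) {k : ℕ} {C : Finset V} {p q r : V}
    (hC : ∀ c, c ∈ C ↔ c = p ∨ c = q ∨ c = r) (hpq : H.Adj p q) (hqr : H.Adj q r) (hpr : p ≠ r)
    (hn : ¬ H.Adj p r)
    (hp : dg H p = k + 2) (hq : dg H q = k + 2) (hr : dg H r = k + 2) {x y b c : V}
    (hx : H.Adj q x) (hxr : x ≠ r) (hy : H.Adj q y) (hyr : y ≠ r) (hb : H.Adj r b) (hbq : b ≠ q)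
    (hc : H.Adj r c) (hcq : c ≠ q) (hbc : b ≠ c) :
    Good H k C {s(q, x), s(q, y), s(r, b), s(r, c)} := by
  have hqC : q ∈ C := (hC q).2 (Or.inr (Or.inl rfl))
  have hrC : r ∈ C := (hC r).2 (Or.inr (Or.inr rfl))
  have hbp : p ≠ b := fun e => hn (e ▸ hb.symm)
  have hcp : p ≠ c := fun e => hn (e ▸ hc.symm)
  have hqr' : q ≠ r := hqr.ne
  refine ⟨?_, ?_, r, hrC, ?_⟩
  · intro e he
    simp only [Finset.mem_insert, Finset.mem_singleton] at he
    rcases he with rfl | rfl | rfl | rfl
    · exact ⟨hx, q, hqC, Sym2.mem_mk_left _ _⟩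
    · exact ⟨hy, q, hqC, Sym2.mem_mk_left _ _⟩
    · exact ⟨hb, r, hrC, Sym2.mem_mk_left _ _⟩
    · exact ⟨hc, r, hrC, Sym2.mem_mk_left _ _⟩
  · intro c' hc'
    rcases (hC c').1 hc' with rfl | rfl | rfl
    · have h1 : dF ({s(q, x), s(q, y), s(r, b), s(r, c)} : Finset (Sym2 V)) c' ≤ 1 := by
        refine (dF_le (T := {s(q, c')}) fun e he hce => ?_).trans (Finset.card_singleton _).le
        simp only [Finset.mem_insert, Finset.mem_singleton] at he ⊢
        rcases he with rfl | rfl | rfl | rfl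
        · rw [Sym2.mem_iff] at hce
          rcases hce with h | h
          · exact absurd h hpq.ne
          · rw [h]
        · rw [Sym2.mem_iff] at hce
          rcases hce with h | h
          · exact absurd h hpq.ne
          · rw [h]
        · rw [Sym2.mem_iff] at hce
          rcases hce with h | h
          · exact absurd h hpr
          · exact absurd h hbp
        · rw [Sym2.mem_iff] at hce
          rcases hce with h | h
          · exact absurd h hpr
          · exact absurd h hcp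
      omega
    · have h1 : dF ({s(c', x), s(c', y), s(r, b), s(r, c)} : Finset (Sym2 V)) c' ≤ 2 := by
        refine (dF_le (T := {s(c', x), s(c', y)}) fun e he hce => ?_).trans Finset.card_le_two
        simp only [Finset.mem_insert, Finset.mem_singleton] at he ⊢
        rcases he with rfl | rfl | rfl | rfl
        · exact Or.inl rfl
        · exact Or.inr rfl
        · rw [Sym2.mem_iff] at hce
          rcases hce with h | h
          · exact absurd h hqr'
          · exact absurd h.symm hbq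
        · rw [Sym2.mem_iff] at hce
          rcases hce with h | h
          · exact absurd h hqr'
          · exact absurd h.symm hcq
      omega
    · have h1 : dF ({s(q, x), s(q, y), s(c', b), s(c', c)} : Finset (Sym2 V)) c' ≤ 2 := by
        refine (dF_le (T := {s(c', b), s(c', c)}) fun e he hce => ?_).trans Finset.card_le_two
        simp only [Finset.mem_insert, Finset.mem_singleton] at he ⊢
        rcases he with rfl | rfl | rfl | rfl
        · rw [Sym2.mem_iff] at hce
          rcases hce with h | h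
          · exact absurd h.symm hqr'
          · exact absurd h.symm hxr
        · rw [Sym2.mem_iff] at hce
          rcases hce with h | h
          · exact absurd h.symm hqr'
          · exact absurd h.symm hyr
        · exact Or.inl rfl
        · exact Or.inr rfl
      omega
  · have h1 : dF ({s(q, x), s(q, y), s(r, b), s(r, c)} : Finset (Sym2 V)) r ≤ 2 := by
      refine (dF_le (T := {s(r, b), s(r, c)}) fun e he hce => ?_).trans Finset.card_le_two
      simp only [Finset.mem_insert, Finset.mem_singleton] at he ⊢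
      rcases he with rfl | rfl | rfl | rfl
      · rw [Sym2.mem_iff] at hce
        rcases hce with h | h
        · exact absurd h.symm hqr'
        · exact absurd h.symm hxr
      · rw [Sym2.mem_iff] at hce
        rcases hce with h | h
        · exact absurd h.symm hqr'
        · exact absurd h.symm hyr
      · exact Or.inl rfl
      · exact Or.inr rfl
    have h2 : 2 ≤ dF ({s(q, x), s(q, y), s(r, b), s(r, c)} : Finset (Sym2 V)) r := by
      rw [← card_pair_sym (a := r) hbc]
      refine le_dF fun e he => ?_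
      simp only [Finset.mem_insert, Finset.mem_singleton] at he ⊢
      rcases he with rfl | rfl
      · exact ⟨Or.inr (Or.inr (Or.inl rfl)), Sym2.mem_mk_left _ _⟩
      · exact ⟨Or.inr (Or.inr (Or.inr rfl)), Sym2.mem_mk_left _ _⟩
    omega

theorem mem_Sp {H : SimpleGraph V} {k : ℕ} {C : Finset V} {F : Finset (Sym2 V)}
    (h : Good H k C F) : av F ∈ Sp H k C := Submodule.subset_span ⟨F, h, rfl⟩

omit [Fintype V] in
theorem av_two (a b : Sym2 V) (l : List V) : av {a, b} l = av {a} l * av {b} l := by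
  rw [Finset.insert_eq, av_union]

omit [Fintype V] in
theorem av_four (a b c d : Sym2 V) (l : List V) :
    av {a, b, c, d} l = av {a} l * (av {b} l * (av {c} l * av {d} l)) := by
  rw [Finset.insert_eq, av_union, Finset.insert_eq, av_union, av_two]

/-- The sum over all neighbours. -/
theorem sum_av (H : SimpleGraph V) {k m : ℕ} (hm : 2 ≤ m) {q : V} (hk : Odd k)
    (hq : dg H q = k + 2) {l : List V} (hl : l ∈ ML H m) (hc : ¬ End l q) :
    ∑ y ∈ nb H q, av {s(q, y)} l = 1 := by
  have h1 : ∑ y ∈ nb H q, av {s(q, y)} l = ∑ y ∈ nb H q, (1 + sc q y l) :=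
    Finset.sum_congr rfl fun y _ => av_edge q y l
  rw [h1, Finset.sum_add_distrib, sum_sc hm hl hc, add_zero, Finset.sum_const, card_nb, hq,
    nsmul_eq_mul, mul_one]
  obtain ⟨j, rfl⟩ := hk
  push_cast
  have h2 : (2 : ZMod 2) = 0 := rfl
  linear_combination ((j : ZMod 2) + 1) * h2

/-- A function of the span with the values `av {s(q, x)}`. -/
theorem block (H : SimpleGraph V) {k m : ℕ} (hm : 2 ≤ m) {p q r : V} {C : Finset V}
    (hC : ∀ c, c ∈ C ↔ c = p ∨ c = q ∨ c = r)
    (hpq : H.Adj p q) (hqr : H.Adj q r) (hpr : p ≠ r) (hn : ¬ H.Adj p r) (hk : Odd k)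
    (hk2 : 2 ≤ k) (hp : dg H p = k + 2) (hq : dg H q = k + 2) (hr : dg H r = k + 2) {x : V}
    (hx : H.Adj q x) (hxr : x ≠ r) :
    ∃ φ ∈ Sp H k C, ∀ l ∈ ML H m, (∀ c ∈ C, ¬ End l c) → φ l = av {s(q, x)} l := by
  have hqC : q ∈ C := (hC q).2 (Or.inr (Or.inl rfl))
  have hrC : r ∈ C := (hC r).2 (Or.inr (Or.inr rfl))
  have h3 : 2 < ((nb H r).erase q).card := by
    rw [Finset.card_erase_of_mem (mem_nb.2 hqr.symm), card_nb, hr]
    omega
  obtain ⟨b, hb, c, hc, d, hd, hbc, hbd, hcd⟩ := Finset.two_lt_card.1 h3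
  rw [Finset.mem_erase, mem_nb] at hb hc hd
  refine ⟨av {s(q, x), s(q, r)} + ∑ y ∈ (nb H q).erase r,
    (av {s(q, x), s(q, y), s(r, b), s(r, c)} + av {s(q, x), s(q, y), s(r, b), s(r, d)} +
      av {s(q, x), s(q, y), s(r, c), s(r, d)}), ?_, ?_⟩
  · refine Submodule.add_mem _ (mem_Sp (good2 H hC hpq hqr hpr hp hq hr hx hxr))
      (Submodule.sum_mem _ fun y hy => ?_)
    rw [Finset.mem_erase, mem_nb] at hy
    exact Submodule.add_mem _ (Submodule.add_mem _
      (mem_Sp (good4 H hC hpq hqr hpr hn hp hq hr hx hxr hy.2 hy.1 hb.2 hb.1 hc.2 hc.1 hbc))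
      (mem_Sp (good4 H hC hpq hqr hpr hn hp hq hr hx hxr hy.2 hy.1 hb.2 hb.1 hd.2 hd.1 hbd)))
      (mem_Sp (good4 H hC hpq hqr hpr hn hp hq hr hx hxr hy.2 hy.1 hc.2 hc.1 hd.2 hd.1 hcd))
  · intro l hl hE
    have e1 := sum_av H hm hk hq hl (hE q hqC)
    rw [← Finset.sum_erase_add _ _ (mem_nb.2 hqr), av_edge q r] at e1
    have e2 : ∑ y ∈ (nb H q).erase r, av {s(q, y)} l = sc q r l := by
      have h2 : (2 : ZMod 2) = 0 := rfl
      linear_combination e1 - sc q r l * h2
    have e3 : sc q r l * ((1 + sc r b l) * (1 + sc r c l) + (1 + sc r b l) * (1 + sc r d l) +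
        (1 + sc r c l) * (1 + sc r d l)) = sc q r l := by
      have t1 := sc_three hl.1 (c := r) hb.1.symm hc.1.symm hbc
      have t2 := sc_three hl.1 (c := r) hb.1.symm hd.1.symm hbd
      have t3 := sc_three hl.1 (c := r) hc.1.symm hd.1.symm hcd
      rw [sc_comm q r l]
      generalize sc r q l = a at *
      generalize sc r b l = b' at *
      generalize sc r c l = c' at *
      generalize sc r d l = d' at *
      revert a b' c' d'
      decide
    have e4 : ∀ y, (av {s(q, x), s(q, y), s(r, b), s(r, c)} +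
        av {s(q, x), s(q, y), s(r, b), s(r, d)} + av {s(q, x), s(q, y), s(r, c), s(r, d)} :
        List V → ZMod 2) l = av {s(q, x)} l * ((1 + sc r b l) * (1 + sc r c l) +
        (1 + sc r b l) * (1 + sc r d l) + (1 + sc r c l) * (1 + sc r d l)) * av {s(q, y)} l := by
      intro y
      rw [Pi.add_apply, Pi.add_apply, av_four, av_four, av_four, av_edge r b, av_edge r c,
        av_edge r d]
      ring
    rw [Pi.add_apply, Finset.sum_apply, Finset.sum_congr rfl fun y _ => e4 y, ← Finset.mul_sum, e2,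
      av_two, av_edge q r]
    have h2 : (2 : ZMod 2) = 0 := rfl
    linear_combination av {s(q, x)} l * e3 + av {s(q, x)} l * sc q r l * h2

end CertP

/-- three cores of odd degree `k + 2`, `q` adjacent to `p` and `r`.  Write `a_xy = av {s(x, y)}`.
Let `b`, `c`, `d` be three neighbours of `r` other than `q`,
`M_r = a_rb a_rc + a_rb a_rd + a_rc a_rd`, `B_r = ∑ a_qy` over the neighbours `y ≠ r` of `q`;
`M_p` and `B_p` in the same way with `p` in place of `r`.  Then
`1 = ∑ (a_qx a_qr + a_qx B_r M_r) [over the neighbours x ≠ r of q] + (a_qr a_qp + a_qr B_p M_p)`.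
(Values: `B_r = σ` with `σ = 1 + a_qr = [qr on the path]`, `σ M_r = σ`; hence each summand is `a_qx`
and the last term is `a_qr`; the sum of `a_qx` over all neighbours `x` of `q` is the degree.) -/
theorem cert_two_two_two (H : SimpleGraph V) {k m : ℕ} (hm : 2 ≤ m) {p q r : V}
    (hpq : H.Adj p q) (hqr : H.Adj q r) (hpr : p ≠ r) (hn : ¬ H.Adj p r) (hk : Odd k)
    (hk2 : 2 ≤ k) (hp : dg H p = k + 2) (hq : dg H q = k + 2) (hr : dg H r = k + 2) :
    ∃ φ ∈ Sp H k {p, q, r}, ∀ l ∈ ML H m, (∀ c ∈ ({p, q, r} : Finset V), ¬ End l c) →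
      φ l = 1 := by
  have hC1 : ∀ c, c ∈ ({p, q, r} : Finset V) ↔ c = p ∨ c = q ∨ c = r := by
    intro c
    simp only [Finset.mem_insert, Finset.mem_singleton]
  have hC2 : ∀ c, c ∈ ({p, q, r} : Finset V) ↔ c = r ∨ c = q ∨ c = p := by
    intro c
    rw [hC1]
    tauto
  have key : ∀ x ∈ nb H q, ∃ φ ∈ Sp H k {p, q, r}, ∀ l ∈ ML H m,
      (∀ c ∈ ({p, q, r} : Finset V), ¬ End l c) → φ l = av {s(q, x)} l := by
    intro x hx
    rw [mem_nb] at hx
    by_cases hxr : x = r
    · subst hxr
      exact CertP.block H hm hC2 hqr.symm hpq.symm hpr.symm (fun h => hn h.symm) hk hk2 hr hq hp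
        hx hpr.symm
    · exact CertP.block H hm hC1 hpq hqr hpr hn hk hk2 hp hq hr hx hxr
  choose! g hg1 hg2 using key
  refine ⟨∑ x ∈ nb H q, g x, Submodule.sum_mem _ hg1, fun l hl hE => ?_⟩
  rw [Finset.sum_apply, Finset.sum_congr rfl fun x hx => hg2 x hx l hl hE]
  exact CertP.sum_av H hm hk hq hl (hE q ((hC1 q).2 (Or.inr (Or.inl rfl))))

end Pool.Agent.Helper52.DT
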