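import Pool.Agent.Helper52.DT.Defs

/-! # DT: nine cores, three induced paths on three vertices without edges between them -/

namespace Pool.Agent.Helper52.DT

open Finset Pool.Agent.Helper52.LP
open scoped Classical

variable {V : Type} [Fintype V] [DecidableEq V]

/-- `c i 0`, `c i 1`, `c i 2` is an induced path for each `i`, no other adjacencies -/
structure Cores (G : SimpleGraph V) (c : Fin 3 → Fin 3 → V) : Prop where
  inj : ∀ i j a b, c i a = c j b → i = j ∧ a = b
  adj01 : ∀ i, G.Adj (c i 0) (c i 1)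
  adj12 : ∀ i, G.Adj (c i 1) (c i 2)
  nadj : ∀ i j a b, G.Adj (c i a) (c j b) → i = j ∧ (a = 1 ∨ b = 1)

/-- the set of the nine cores -/
def cs (c : Fin 3 → Fin 3 → V) : Finset V := univ.image fun p : Fin 3 × Fin 3 => c p.1 p.2

omit [Fintype V] in
theorem mem_cs {c : Fin 3 → Fin 3 → V} {v : V} : v ∈ cs c ↔ ∃ i a, c i a = v := by
  simp [cs]

end Pool.Agent.Helper52.DT
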