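import Pool.Agent.Helper52.DT.Cores

/-! # DT: counting common neighbours (piece DT-Count) -/

namespace Pool.Agent.Helper52.DT

open Finset Pool.Agent.Helper52.LP
open scoped Classical

variable {V : Type} [Fintype V] [DecidableEq V]

/-- vertices with three neighbours in `C`: count the triples `(y, a, b)` with `a ≠ b` in `C`
adjacent to `y` in `K`; at most `2 * C.card * (C.card - 1)` triples, at least `6` for each such `y` -/
theorem full_card (G : SimpleGraph V) (K C : Finset V)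
    (h : ∀ a ∈ C, ∀ b ∈ C, a ≠ b → (nb G a ∩ nb G b ∩ K).card ≤ 2) :
    3 * (K.filter fun y => 3 ≤ (nb G y ∩ C).card).card ≤ C.card * (C.card - 1) := by
  have h1 : ∀ y ∈ K.filter fun y => 3 ≤ (nb G y ∩ C).card, 6 ≤ ((nb G y ∩ C).offDiag).card := by
    intro y hy
    rw [offDiag_card]
    have h3 := (mem_filter.1 hy).2
    obtain ⟨m, hm⟩ : ∃ m, (nb G y ∩ C).card = m + 3 := ⟨(nb G y ∩ C).card - 3, by omega⟩
    rw [hm]
    have h4 : (m + 3) * (m + 3) = m * m + 6 * m + 9 := by ring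
    omega
  have e1 : ∀ y, ((nb G y ∩ C).offDiag).card =
      ∑ p ∈ C.offDiag, if (G.Adj y p.1 ∧ G.Adj y p.2) then 1 else 0 := by
    intro y
    rw [← card_filter]
    congr 1
    ext p
    simp only [mem_offDiag, mem_inter, mem_nb, mem_filter]
    tauto
  have h2 : ∑ y ∈ K.filter (fun y => 3 ≤ (nb G y ∩ C).card), ((nb G y ∩ C).offDiag).card ≤
      2 * C.offDiag.card := by
    simp only [e1]
    rw [sum_comm]
    calc _ ≤ ∑ _p ∈ C.offDiag, 2 := by
          refine sum_le_sum fun p hp => ?_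
          rw [← card_filter]
          rw [mem_offDiag] at hp
          refine le_trans (card_le_card ?_) (h p.1 hp.1 p.2 hp.2.1 hp.2.2)
          intro y hy
          simp only [mem_filter, mem_inter, mem_nb] at hy ⊢
          exact ⟨⟨hy.2.1.symm, hy.2.2.symm⟩, hy.1.1⟩
      _ = 2 * C.offDiag.card := by rw [sum_const, smul_eq_mul, mul_comm]
  have h3 : (K.filter fun y => 3 ≤ (nb G y ∩ C).card).card * 6 ≤
      ∑ y ∈ K.filter (fun y => 3 ≤ (nb G y ∩ C).card), ((nb G y ∩ C).offDiag).card := by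
    rw [← smul_eq_mul]
    exact card_nsmul_le_sum _ _ _ h1
  rw [offDiag_card] at h2
  have h5 : C.card * C.card - C.card = C.card * (C.card - 1) := by
    rw [Nat.mul_sub_one]
  omega

/-- a neighbour `x` of `z` in `S` outside `E` which is not adjacent to the vertices in `Q` -/
theorem pick (G : SimpleGraph V) (o : V) (K S : Finset V) (hSK : S ⊆ K)
    (hco : ∀ y z, y ≠ z → y ≠ o → z ≠ o → (nb G y ∩ nb G z ∩ K).card ≤ 2)
    (z : V) (hz : z ≠ o) (Q E : Finset V) (hQo : o ∉ Q) (hQz : z ∉ Q) {M : ℕ}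
    (hdeg : M ≤ (nb G z ∩ S).card) (hM : 2 * Q.card + E.card < M) :
    ∃ x ∈ S, G.Adj z x ∧ x ∉ E ∧ ∀ y ∈ Q, ¬ G.Adj y x := by
  have h1 : (Q.biUnion fun y => nb G y ∩ nb G z ∩ K).card ≤ 2 * Q.card := by
    refine card_biUnion_le.trans ?_
    calc _ ≤ ∑ _y ∈ Q, 2 := by
          refine sum_le_sum fun y hy => hco y z ?_ ?_ hz
          · rintro rfl
            exact hQz hy
          · rintro rfl
            exact hQo hy
      _ = 2 * Q.card := by rw [sum_const, smul_eq_mul, mul_comm]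
  have h2 : (E ∪ Q.biUnion fun y => nb G y ∩ nb G z ∩ K).card < (nb G z ∩ S).card := by
    have := card_union_le E (Q.biUnion fun y => nb G y ∩ nb G z ∩ K)
    omega
  obtain ⟨x, hx, hx'⟩ := exists_mem_notMem_of_card_lt_card h2
  rw [mem_inter, mem_nb] at hx
  rw [mem_union, not_or] at hx'
  refine ⟨x, hx.2, hx.1, hx'.1, fun y hy hyx => hx'.2 ?_⟩
  rw [mem_biUnion]
  refine ⟨y, hy, ?_⟩
  rw [mem_inter, mem_inter, mem_nb, mem_nb]
  exact ⟨⟨hyx, hx.1⟩, hSK hx.2⟩

end Pool.Agent.Helper52.DT
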