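import Pool.Agent.Helper52.LP.W

/-! # Project DT: detours in arbitrary connected graphs, definitions

`Con a b l` (file `LP/O.lean`): `a`, `b` are consecutive in the list `l`, in one of the two orders.
`dg G v` (file `LP/H.lean`): the degree.  `Dv G v F` (file `LP/M.lean`): delete the edges from `v`
to `F`. -/

namespace Pool.Agent.Helper52.DT

open Finset Pool.Agent.Helper52.LP
open scoped Classical

variable {V : Type} [Fintype V] [DecidableEq V]

/-- the (directed) paths on `m` vertices -/
def ML (G : SimpleGraph V) (m : ℕ) : Set (List V) := {l | l.Nodup ∧ l.IsChain G.Adj ∧ l.length = m}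

/-- a numbering of the vertices -/
noncomputable def ky (v : V) : ℕ := (Fintype.equivFin V v : ℕ)

/-- the first vertex has the smaller number -/
def Up (l : List V) : Prop := ∃ a ∈ l.head?, ∃ b ∈ l.getLast?, ky a < ky b

omit [DecidableEq V] in
theorem ML_finite (G : SimpleGraph V) (m : ℕ) : (ML G m).Finite := by
  refine Set.Finite.subset (List.finite_length_le V (Fintype.card V)) ?_
  intro l hl
  exact hl.1.length_le_card

/-- the undirected paths on `m` vertices: one of the two directions is chosen -/
noncomputable def RL (G : SimpleGraph V) (m : ℕ) : Finset (List V) :=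
  (ML_finite G m).toFinset.filter Up

omit [DecidableEq V] in
theorem mem_RL (G : SimpleGraph V) (m : ℕ) (l : List V) : l ∈ RL G m ↔ l ∈ ML G m ∧ Up l := by
  simp [RL]

/-- the parity of the number of paths on `m` vertices -/
noncomputable def f (G : SimpleGraph V) (m : ℕ) : ZMod 2 := ((RL G m).card : ZMod 2)

/-- `c` is an end of `l` -/
def End (l : List V) (c : V) : Prop := c ∈ l.head? ∨ c ∈ l.getLast?

/-- the neighbours -/
noncomputable def nb (G : SimpleGraph V) (v : V) : Finset V := univ.filter fun w => G.Adj v w

omit [DecidableEq V] in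
theorem mem_nb {G : SimpleGraph V} {v w : V} : w ∈ nb G v ↔ G.Adj v w := by
  simp [nb]

omit [DecidableEq V] in
theorem card_nb (G : SimpleGraph V) (v : V) : (nb G v).card = dg G v := rfl

/-- the edge `c y` is on the path `l` -/
noncomputable def sc (c y : V) (l : List V) : ZMod 2 := if Con c y l then 1 else 0

/-- the path `l` avoids the edges in `F` -/
def Avoids (F : Finset (Sym2 V)) (l : List V) : Prop := ∀ a b, s(a, b) ∈ F → ¬ Con a b l

/-- the function: `1` if `l` avoids the edges in `F`, otherwise `0` -/
noncomputable def av (F : Finset (Sym2 V)) (l : List V) : ZMod 2 := if Avoids F l then 1 else 0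

/-- the graph without the vertices in `C` (they become isolated) -/
def off (G : SimpleGraph V) (C : Finset V) : SimpleGraph V where
  Adj a b := G.Adj a b ∧ a ∉ C ∧ b ∉ C
  symm := ⟨fun _ _ h => ⟨h.1.symm, h.2.2, h.2.1⟩⟩
  loopless := ⟨fun _ h => h.1.ne rfl⟩

/-- `G` is connected outside `C` -/
def OffConn (G : SimpleGraph V) (C : Finset V) : Prop :=
  ∀ a b, a ∉ C → b ∉ C → (off G C).Reachable a b

/-- connected, with minimum degree exactly `k` -/
def Ex (k : ℕ) (G : SimpleGraph V) : Prop := G.Connected ∧ (∀ v, k ≤ dg G v) ∧ ∃ v, dg G v = k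

/-- the number of edges in `F` at `c` -/
def dF (F : Finset (Sym2 V)) (c : V) : ℕ := (F.filter fun e => c ∈ e).card

/-- `F` consists of edges of `H` at the cores in `C`, after the deletion of `F` all cores have
degree at least `k` and one of them has degree exactly `k` -/
def Good (H : SimpleGraph V) (k : ℕ) (C : Finset V) (F : Finset (Sym2 V)) : Prop :=
  (∀ e ∈ F, e ∈ H.edgeSet ∧ ∃ c ∈ C, c ∈ e) ∧ (∀ c ∈ C, dF F c + k ≤ dg H c) ∧
    ∃ c ∈ C, dF F c + k = dg H c

/-- the functions spanned by the avoidance functions of the good sets -/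
noncomputable def Sp (H : SimpleGraph V) (k : ℕ) (C : Finset V) :
    Submodule (ZMod 2) (List V → ZMod 2) :=
  Submodule.span (ZMod 2) ((fun F => av F) '' {F | Good H k C F})

end Pool.Agent.Helper52.DT
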