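import Pool.Agent.Helper52.DT.Defs

/-! # DT: connectedness outside a set (piece DT-Off) -/

namespace Pool.Agent.Helper52.DT

open Finset Pool.Agent.Helper52.LP
open scoped Classical

variable {V : Type} [Fintype V] [DecidableEq V]

omit [Fintype V] [DecidableEq V] in
theorem OffConn.mono {G H : SimpleGraph V} {C : Finset V} (h : OffConn G C)
    (hGH : ∀ a b, a ∉ C → b ∉ C → G.Adj a b → H.Adj a b) : OffConn H C := by
  intro a b ha hb
  have hle : off G C ≤ off H C := fun x y hxy => ⟨hGH x y hxy.2.1 hxy.2.2 hxy.1, hxy.2.1, hxy.2.2⟩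
  exact (h a b ha hb).mono hle

omit [Fintype V] in
/-- put one vertex with a neighbour outside back -/
theorem OffConn.erase {G : SimpleGraph V} {C : Finset V} {o : V} (h : OffConn G (insert o C))
    (ho : o ∉ C) {x : V} (hx : x ∉ C) (hox : G.Adj o x) : OffConn G C := by
  have hle : off G (insert o C) ≤ off G C := by
    intro a b hab
    exact ⟨hab.1, fun h => hab.2.1 (Finset.mem_insert_of_mem h),
      fun h => hab.2.2 (Finset.mem_insert_of_mem h)⟩
  have hxo : x ∉ insert o C := by
    rw [Finset.mem_insert, not_or]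
    exact ⟨hox.ne', hx⟩
  have key : ∀ a, a ∉ C → (off G C).Reachable a x := by
    intro a ha
    by_cases hao : a = o
    · subst hao
      exact SimpleGraph.Adj.reachable ⟨hox, ha, hx⟩
    · have ha' : a ∉ insert o C := by
        rw [Finset.mem_insert, not_or]
        exact ⟨hao, ha⟩
      exact (h a x ha' hxo).mono hle
  intro a b ha hb
  exact (key a ha).trans (key b hb).symm

omit [Fintype V] [DecidableEq V] in
/-- if each vertex of `C` can be joined to a vertex outside `C` -/
theorem OffConn.connected {G : SimpleGraph V} {C : Finset V} (h : OffConn G C) [Nonempty V]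
    (hC : ∀ c ∈ C, ∃ x ∉ C, G.Reachable c x) : G.Connected := by
  have hle : off G C ≤ G := fun a b hab => hab.1
  have key : ∀ a, ∃ x ∉ C, G.Reachable a x := by
    intro a
    by_cases ha : a ∈ C
    · exact hC a ha
    · exact ⟨a, ha, SimpleGraph.Reachable.refl _⟩
  refine ⟨fun a b => ?_⟩
  obtain ⟨x, hx, hax⟩ := key a
  obtain ⟨y, hy, hby⟩ := key b
  exact hax.trans (((h x y hx hy).mono hle).trans hby.symm)

end Pool.Agent.Helper52.DT
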