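import Pool.Agent.Helper52.DT.CertE
import Pool.Agent.Helper52.DT.CertM
import Pool.Agent.Helper52.DT.CertO
import Pool.Agent.Helper52.DT.CertP

/-! # DT: the gadget, a path on three vertices (piece DT-Gadget) -/

namespace Pool.Agent.Helper52.DT

open Finset Pool.Agent.Helper52.LP
open scoped Classical

variable {V : Type} [Fintype V] [DecidableEq V]

/-- All patterns of degrees.  `k` even: `cert_one` if one of `p`, `q` has degree `k + 1`, otherwise
`cert_two`.  `k` odd: `cert_mix` for an edge with degrees `k + 1`, `k + 2` (for the edge `q r` and
for the reversed edges use that `{p, q, r}` does not depend on the order), otherwise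
`cert_one_one_one` or `cert_two_two_two`. -/
theorem gadget (H : SimpleGraph V) {k m : ℕ} (hm : 2 ≤ m) (hk2 : 2 ≤ k) {p q r : V}
    (hpq : H.Adj p q) (hqr : H.Adj q r) (hpr : p ≠ r) (hn : ¬ H.Adj p r)
    (hp : dg H p = k + 1 ∨ dg H p = k + 2) (hq : dg H q = k + 1 ∨ dg H q = k + 2)
    (hr : dg H r = k + 1 ∨ dg H r = k + 2) :
    ∃ φ ∈ Sp H k {p, q, r}, ∀ l ∈ ML H m, (∀ c ∈ ({p, q, r} : Finset V), ¬ End l c) →
      φ l = 1 := by
  have hne1 : r ≠ p := hpr.symm
  have hne2 : r ≠ q := hqr.ne'
  have hne3 : p ≠ q := hpq.ne
  have hC : ∀ c ∈ ({p, q, r} : Finset V), k + 1 ≤ dg H c := by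
    intro c hc
    simp only [mem_insert, mem_singleton] at hc
    rcases hc with rfl | rfl | rfl <;> omega
  rcases Nat.even_or_odd k with hk | hk
  · rcases hp with hp | hp
    · exact cert_one H hm {p, q, r} (by simp) hp hk hC
    · rcases hq with hq | hq
      · exact cert_one H hm {p, q, r} (p := q) (by simp) hq hk hC
      · exact cert_two H hm hpq hne1 hne2 (fun h => hn h.1) hk hk2 hp hq (by omega)
  · rcases hp with hp | hp
    · rcases hq with hq | hq
      · rcases hr with hr | hr
        · exact cert_one_one_one H hm hpq hqr hpr hn hk hk2 hp hq hr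
        · have h := cert_mix H hm (p := q) (q := r) (r := p) hqr hne3 hpr
            (fun h => hn h.2.symm) hk hk2 hq hr (by omega)
          have he : ({q, r, p} : Finset V) = {p, q, r} := by
            ext x
            simp only [mem_insert, mem_singleton]
            tauto
          rw [he] at h
          exact h
      · exact cert_mix H hm hpq hne1 hne2 (fun h => hn h.1) hk hk2 hp hq (by omega)
    · rcases hq with hq | hq
      · have h := cert_mix H hm (p := q) (q := p) (r := r) hpq.symm hne2 hne1
          (fun h => hn h.2) hk hk2 hq hp (by omega)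
        have he : ({q, p, r} : Finset V) = {p, q, r} := by
          ext x
          simp only [mem_insert, mem_singleton]
          tauto
        rw [he] at h
        exact h
      · rcases hr with hr | hr
        · have h := cert_mix H hm (p := r) (q := q) (r := p) hqr.symm hpr hne3
            (fun h => hn h.1.symm) hk hk2 hr hq (by omega)
          have he : ({r, q, p} : Finset V) = {p, q, r} := by
            ext x
            simp only [mem_insert, mem_singleton]
            tauto
          rw [he] at h
          exact h
        · exact cert_two_two_two H hm hpq hqr hpr hn hk hk2 hp hq hr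

end Pool.Agent.Helper52.DT
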