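import Pool.Agent.Helper52.DT.BasicA

/-! # DT: the product of three gadgets (piece DT-Prod) -/

namespace Pool.Agent.Helper52.DT

open Finset Pool.Agent.Helper52.LP
open scoped Classical

variable {V : Type} [Fintype V] [DecidableEq V]

/-- the generators which belong to the set `t` of factors -/
private def gens (S : Fin 3 → Set (Finset (Sym2 V))) (t : Finset (Fin 3)) :
    Set (List V → ZMod 2) :=
  {g | ∃ F : Fin 3 → Finset (Sym2 V), (∀ i ∈ t, F i ∈ S i) ∧ (∀ i, i ∉ t → F i = ∅) ∧
    g = av (univ.biUnion F)}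

omit [Fintype V] in
private theorem biUnion_update (F : Fin 3 → Finset (Sym2 V)) (a : Fin 3) (ha : F a = ∅)
    (X : Finset (Sym2 V)) :
    (univ.biUnion (Function.update F a X) : Finset (Sym2 V)) = X ∪ univ.biUnion F := by
  ext e
  simp only [mem_biUnion, mem_univ, true_and, mem_union]
  constructor
  · rintro ⟨i, hi⟩
    by_cases h : i = a
    · subst h
      rw [Function.update_self] at hi
      exact Or.inl hi
    · rw [Function.update_of_ne h] at hi
      exact Or.inr ⟨i, hi⟩
  · rintro (h | ⟨i, hi⟩)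
    · exact ⟨a, by rw [Function.update_self]; exact h⟩
    · refine ⟨i, ?_⟩
      have h : i ≠ a := by
        rintro rfl
        rw [ha] at hi
        simp at hi
      rw [Function.update_of_ne h]
      exact hi

omit [Fintype V] in
private theorem prod_mem_span (φ : Fin 3 → List V → ZMod 2)
    (S : Fin 3 → Set (Finset (Sym2 V)))
    (hφ : ∀ i, φ i ∈ Submodule.span (ZMod 2) ((fun F => av F) '' S i)) (t : Finset (Fin 3)) :
    (∏ i ∈ t, φ i) ∈ Submodule.span (ZMod 2) (gens S t) := by
  induction t using Finset.induction_on with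
  | empty =>
    refine Submodule.subset_span ⟨fun _ => ∅, by simp, by simp, ?_⟩
    funext l
    have h0 : (univ.biUnion (fun _ : Fin 3 => (∅ : Finset (Sym2 V)))) = ∅ := by
      ext e
      simp
    rw [h0, av_empty, prod_empty]
    rfl
  | insert a t ha ih =>
    rw [prod_insert ha]
    have h1 := Submodule.mul_mem_mul (hφ a) ih
    rw [Submodule.span_mul_span] at h1
    refine Submodule.span_mono ?_ h1
    rintro g ⟨g1, ⟨X, hX, rfl⟩, g2, ⟨F, hF1, hF2, rfl⟩, rfl⟩
    refine ⟨Function.update F a X, ?_, ?_, ?_⟩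
    · intro i hi
      by_cases h : i = a
      · subst h
        rw [Function.update_self]
        exact hX
      · rw [Function.update_of_ne h]
        exact hF1 i ((mem_insert.mp hi).resolve_left h)
    · intro i hi
      have h : i ≠ a := by
        rintro rfl
        exact hi (mem_insert_self _ _)
      rw [Function.update_of_ne h]
      exact hF2 i fun h' => hi (mem_insert_of_mem h')
    · rw [biUnion_update F a (hF2 a ha) X]
      funext l
      exact (av_union X (univ.biUnion F) l).symm

/-- For each path `l` one factor of `∏ i, (1 + φ i l)` is `0`; expand (`Finset.prod_add` or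
`Finset.prod_one_add`): `1 = ∑ I ≠ ∅, ∏ i ∈ I, φ i l`.  Sum over `RL H m`: some `I ≠ ∅` has
`∑ l, ∏ i ∈ I, φ i l ≠ 0`.  This product is in the span of the functions `∏ i ∈ I, av (F i)`
(`F i ∈ S i`), which is `av` of the union (`av_union`); if all the sums `∑ l, av (...) l` were `0`
the sum of the product would be `0`.  `f_delete` translates. -/
theorem prod_span (H : SimpleGraph V) (m : ℕ) (φ : Fin 3 → List V → ZMod 2)
    (S : Fin 3 → Set (Finset (Sym2 V)))
    (hφ : ∀ i, φ i ∈ Submodule.span (ZMod 2) ((fun F => av F) '' S i))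
    (h : ∀ l ∈ RL H m, ∃ i, φ i l = 1) (hf : f H m ≠ 0) :
    ∃ (I : Finset (Fin 3)) (F : Fin 3 → Finset (Sym2 V)), I.Nonempty ∧ (∀ i ∈ I, F i ∈ S i) ∧
      (∀ i, i ∉ I → F i = ∅) ∧
      f (H.deleteEdges ((univ.biUnion F : Finset (Sym2 V)) : Set (Sym2 V))) m ≠ 0 := by
  by_contra hcon
  push Not at hcon
  -- the functional
  let L : (List V → ZMod 2) →ₗ[ZMod 2] ZMod 2 :=
    { toFun := fun g => ∑ l ∈ RL H m, g l
      map_add' := fun g g' => by simp [sum_add_distrib]
      map_smul' := fun c g => by simp [mul_sum] }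
  have hL : ∀ t : Finset (Fin 3), t.Nonempty → L (∏ i ∈ t, φ i) = 0 := by
    intro t ht
    have hker : Submodule.span (ZMod 2) (gens S t) ≤ LinearMap.ker L := by
      rw [Submodule.span_le]
      rintro g ⟨F, hF1, hF2, rfl⟩
      have := hcon t F ht hF1 hF2
      rw [f_delete] at this
      exact this
    exact hker (prod_mem_span φ S hφ t)
  -- expansion
  have h0 : ∀ l ∈ RL H m, ∑ t ∈ (univ : Finset (Fin 3)).powerset, ∏ i ∈ t, φ i l = 0 := by
    intro l hl
    obtain ⟨i, hi⟩ := h l hl
    rw [← prod_one_add]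
    refine prod_eq_zero (mem_univ i) ?_
    rw [hi]
    decide
  have h1 : ∑ t ∈ (univ : Finset (Fin 3)).powerset, L (∏ i ∈ t, φ i) = 0 := by
    have : ∀ t ∈ (univ : Finset (Fin 3)).powerset,
        L (∏ i ∈ t, φ i) = ∑ l ∈ RL H m, ∏ i ∈ t, φ i l := by
      intro t _
      change ∑ l ∈ RL H m, (∏ i ∈ t, φ i) l = _
      refine sum_congr rfl fun l _ => ?_
      rw [prod_apply]
    rw [sum_congr rfl this, sum_comm]
    exact sum_eq_zero h0
  rw [sum_eq_single ∅] at h1
  · apply hf
    rw [prod_empty] at h1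
    change ∑ l ∈ RL H m, (1 : ZMod 2) = 0 at h1
    rw [f]
    simpa using h1
  · intro t _ ht
    exact hL t (nonempty_iff_ne_empty.mpr ht)
  · intro hh
    exact absurd (mem_powerset.mpr (empty_subset _)) hh

end Pool.Agent.Helper52.DT
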