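import Pool.Agent.Helper52.DT.Cores
import Pool.Agent.Helper52.DT.Gadget
import Pool.Agent.Helper52.DT.Prod
import Pool.Agent.Helper52.DT.BasicB

/-! # DT: the three gadgets together (piece DT-Reduced) -/

namespace Pool.Agent.Helper52.DT

open Finset Pool.Agent.Helper52.LP
open scoped Classical

variable {V : Type} [Fintype V] [DecidableEq V]

/-- the cores of the path `i` -/
private def ci (c : Fin 3 → Fin 3 → V) (i : Fin 3) : Finset V := {c i 0, c i 1, c i 2}

omit [Fintype V] in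
private theorem mem_ci {c : Fin 3 → Fin 3 → V} {i : Fin 3} {x : V} (h : x ∈ ci c i) : ∃ a, x = c i a := by
  unfold ci at h
  rw [mem_insert, mem_insert, mem_singleton] at h
  rcases h with h | h | h
  · exact ⟨0, h⟩
  · exact ⟨1, h⟩
  · exact ⟨2, h⟩

omit [Fintype V] in
private theorem ci_mem (c : Fin 3 → Fin 3 → V) (i a : Fin 3) : c i a ∈ ci c i := by
  unfold ci
  rw [mem_insert, mem_insert, mem_singleton]
  fin_cases a
  · exact Or.inl rfl
  · exact Or.inr (Or.inl rfl)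
  · exact Or.inr (Or.inr rfl)

/-- Second phase: `gadget` for each of the three paths `c i 0`, `c i 1`, `c i 2`, `exists_no_end`,
`prod_span`.  An edge of `F i` is at a core of the `i`-th path, so it is not at a core of another
path (`hc.nadj`); hence for a core `x` of the `i`-th path `dF (⋃ F) x = dF (F i) x`. -/
theorem reduced (H : SimpleGraph V) {m k : ℕ} (hm : 2 ≤ m) (hk : 2 ≤ k)
    (c : Fin 3 → Fin 3 → V) (hc : Cores H c)
    (hcd : ∀ i a, dg H (c i a) = k + 1 ∨ dg H (c i a) = k + 2) (hf : f H m ≠ 0) :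
    ∃ F : Finset (Sym2 V), f (H.deleteEdges (F : Set (Sym2 V))) m ≠ 0 ∧
      (∀ e ∈ F, e ∈ H.edgeSet ∧ ∃ x ∈ cs c, x ∈ e) ∧ (∀ x ∈ cs c, dF F x + k ≤ dg H x) ∧
      ∃ x ∈ cs c, dF F x + k = dg H x := by
  have hg : ∀ i, ∃ φ ∈ Sp H k (ci c i), ∀ l ∈ ML H m, (∀ x ∈ ci c i, ¬ End l x) → φ l = 1 := by
    intro i
    refine gadget H hm hk (hc.adj01 i) (hc.adj12 i) ?_ ?_ (hcd i 0) (hcd i 1) (hcd i 2)
    · intro h
      have h1 := (hc.inj i i 0 2 h).2
      exact absurd h1 (by decide)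
    · intro h
      have h1 := (hc.nadj i i 0 2 h).2
      exact absurd h1 (by decide)
  choose φ hφ1 hφ2 using hg
  have hdis : ∀ i j, i ≠ j → Disjoint (ci c i) (ci c j) := by
    intro i j hij
    rw [Finset.disjoint_left]
    intro x hx hx'
    obtain ⟨a, ha⟩ := mem_ci hx
    obtain ⟨b, hb⟩ := mem_ci hx'
    exact hij (hc.inj i j a b (ha.symm.trans hb)).1
  obtain ⟨I, F, hI, hF, hF0, hne⟩ := prod_span H m φ (fun i => {F | Good H k (ci c i) F}) hφ1 (by
    intro l hl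
    obtain ⟨i, hi⟩ := exists_no_end l (ci c) hdis
    exact ⟨i, hφ2 i l ((mem_RL H m l).1 hl).1 hi⟩) hf
  -- edges at the cores
  have hedge : ∀ i, ∀ e ∈ F i, i ∈ I ∧ e ∈ H.edgeSet ∧ ∃ a, c i a ∈ e := by
    intro i e he
    have hi : i ∈ I := by
      by_contra h
      rw [hF0 i h] at he
      exact absurd he (Finset.notMem_empty _)
    have h1 : Good H k (ci c i) (F i) := hF i hi
    obtain ⟨h2, x, hx, hxe⟩ := h1.1 e he
    obtain ⟨a, ha⟩ := mem_ci hx
    exact ⟨hi, h2, a, ha ▸ hxe⟩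
  have hdF : ∀ i a, dF (univ.biUnion F) (c i a) = dF (F i) (c i a) := by
    intro i a
    unfold dF
    congr 1
    ext e
    rw [mem_filter, mem_filter, mem_biUnion]
    constructor
    · rintro ⟨⟨j, -, hj⟩, he⟩
      refine ⟨?_, he⟩
      obtain ⟨-, h2, b, hb⟩ := hedge j e hj
      have hij : i = j := by
        by_cases hxy : c i a = c j b
        · exact (hc.inj i j a b hxy).1
        · have h3 : e = s(c i a, c j b) := ((Sym2.mem_and_mem_iff hxy).1 ⟨he, hb⟩)
          rw [h3, SimpleGraph.mem_edgeSet] at h2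
          exact (hc.nadj i j a b h2).1
      rw [hij]
      exact hj
    · rintro ⟨h1, h2⟩
      exact ⟨⟨i, mem_univ _, h1⟩, h2⟩
  refine ⟨univ.biUnion F, hne, ?_, ?_, ?_⟩
  · intro e he
    obtain ⟨i, -, hi⟩ := mem_biUnion.1 he
    obtain ⟨-, h2, a, ha⟩ := hedge i e hi
    exact ⟨h2, c i a, mem_cs.2 ⟨i, a, rfl⟩, ha⟩
  · intro x hx
    obtain ⟨i, a, rfl⟩ := mem_cs.1 hx
    rw [hdF]
    by_cases hi : i ∈ I
    · have h1 : Good H k (ci c i) (F i) := hF i hi
      exact h1.2.1 _ (ci_mem c i a)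
    · rw [hF0 i hi]
      have h2 : dF (∅ : Finset (Sym2 V)) (c i a) = 0 := by
        unfold dF
        simp
      rw [h2]
      rcases hcd i a with h | h <;> omega
  · obtain ⟨i, hi⟩ := hI
    have h1 : Good H k (ci c i) (F i) := hF i hi
    obtain ⟨x, hx, h2⟩ := h1.2.2
    obtain ⟨a, rfl⟩ := mem_ci hx
    refine ⟨c i a, mem_cs.2 ⟨i, a, rfl⟩, ?_⟩
    rw [hdF]
    exact h2

end Pool.Agent.Helper52.DT
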