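import Pool.Agent.Helper52.DT.Reduce
import Pool.Agent.Helper52.DT.Reduced
import Pool.Agent.Helper52.DT.Off

/-! # DT: the graph with three gadgets (piece DT-GDown) -/

namespace Pool.Agent.Helper52.DT

open Finset Pool.Agent.Helper52.LP
open scoped Classical

variable {V : Type} [Fintype V] [DecidableEq V]

private theorem dg_del (H : SimpleGraph V) (F : Finset (Sym2 V)) (hF : ∀ e ∈ F, e ∈ H.edgeSet)
    (x : V) : dg (H.deleteEdges (F : Set (Sym2 V))) x + dF F x = dg H x := by
  unfold dg dF
  have h1 : (F.filter fun e => x ∈ e).card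
      = (univ.filter fun w => H.Adj x w ∧ s(x, w) ∈ F).card := by
    symm
    refine Finset.card_bij (fun w _ => s(x, w)) ?_ ?_ ?_
    · intro w hw
      rw [Finset.mem_filter] at hw ⊢
      exact ⟨hw.2.2, by simp⟩
    · intro a _ b _ h
      rcases Sym2.eq_iff.1 h with h | h
      · exact h.2
      · exact h.2.trans h.1
    · intro e he
      rw [Finset.mem_filter] at he
      obtain ⟨y, rfl⟩ := Sym2.mem_iff_exists.1 he.2
      refine ⟨y, ?_, rfl⟩
      rw [Finset.mem_filter]
      exact ⟨Finset.mem_univ _, by simpa using hF _ he.1, he.1⟩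
  rw [h1, ← Finset.card_union_of_disjoint]
  · congr 1
    ext w
    simp only [Finset.mem_union, Finset.mem_filter, Finset.mem_univ, true_and,
      SimpleGraph.deleteEdges_adj, Finset.mem_coe]
    tauto
  · rw [Finset.disjoint_left]
    intro w hw hw'
    simp only [Finset.mem_filter, Finset.mem_univ, true_and,
      SimpleGraph.deleteEdges_adj, Finset.mem_coe] at hw hw'
    exact hw.2 hw'.2

private theorem gad_fin (G G' : SimpleGraph V) {k : ℕ} (hk : 2 ≤ k)
    (c : Fin 3 → Fin 3 → V) (hnadj : ∀ i j a b, G'.Adj (c i a) (c j b) → i = j ∧ (a = 1 ∨ b = 1))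
    (hd : ∀ i a, k ≤ dg G' (c i a)) (hex : ∃ i a, dg G' (c i a) = k)
    (hkeep : ∀ x y, x ∉ cs c → y ∉ cs c → G.Adj x y → G'.Adj x y)
    (hout : ∀ y, y ∉ cs c → k ≤ (nb G y \ cs c).card) (hoff : OffConn G (cs c)) :
    Ex k G' := by
  have hoff' : OffConn G' (cs c) := hoff.mono hkeep
  have : Nonempty V := ⟨c 0 0⟩
  -- the outer cores have a neighbour outside
  have hend : ∀ i a, a ≠ 1 → ∃ x ∉ cs c, G'.Adj (c i a) x := by
    intro i a ha
    by_contra hcon
    push Not at hcon
    have hsub : (univ.filter fun w => G'.Adj (c i a) w) ⊆ {c i 1} := by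
      intro w hw
      rw [Finset.mem_filter] at hw
      have hwc : w ∈ cs c := by
        by_contra hwc
        exact hcon w hwc hw.2
      obtain ⟨j, b, rfl⟩ := mem_cs.1 hwc
      obtain ⟨hij, hab⟩ := hnadj i j a b hw.2
      subst hij
      rcases hab with h | h
      · exact absurd h ha
      · rw [h]; simp
    have h1 := Finset.card_le_card hsub
    have h2 := hd i a
    unfold dg at h2
    rw [Finset.card_singleton] at h1
    omega
  refine ⟨hoff'.connected ?_, ?_, ?_⟩
  · intro x hx
    obtain ⟨i, a, rfl⟩ := mem_cs.1 hx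
    by_cases ha : a = 1
    · subst ha
      have h2 := hd i 1
      have hpos : 0 < (univ.filter fun w => G'.Adj (c i 1) w).card := by
        unfold dg at h2
        omega
      obtain ⟨w, hw⟩ := Finset.card_pos.1 hpos
      rw [Finset.mem_filter] at hw
      by_cases hwc : w ∈ cs c
      · obtain ⟨j, b, rfl⟩ := mem_cs.1 hwc
        obtain ⟨hij, -⟩ := hnadj i j 1 b hw.2
        subst hij
        have hb : b ≠ 1 := by
          rintro rfl
          exact hw.2.ne rfl
        obtain ⟨x, hx', hax⟩ := hend i b hb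
        exact ⟨x, hx', hw.2.reachable.trans hax.reachable⟩
      · exact ⟨w, hwc, hw.2.reachable⟩
    · obtain ⟨x, hx', hax⟩ := hend i a ha
      exact ⟨x, hx', hax.reachable⟩
  · intro v
    by_cases hv : v ∈ cs c
    · obtain ⟨i, a, rfl⟩ := mem_cs.1 hv
      exact hd i a
    · refine (hout v hv).trans ?_
      rw [← card_nb]
      refine Finset.card_le_card ?_
      intro w hw
      rw [Finset.mem_sdiff, mem_nb] at hw
      rw [mem_nb]
      exact hkeep v w hv hw.2 hw.1
  · obtain ⟨i, a, h⟩ := hex
    exact ⟨_, h⟩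

/-- Nine cores, each other vertex has `k` neighbours outside the cores.  `reduce_cores` gives `H`;
if a core has degree `k` in `H` take `G' = H`, otherwise `reduced` gives `F` and
`G' = H.deleteEdges F` (the degree of a core `x` is `dg H x - dF F x`).
The neighbours outside the cores of a vertex outside the cores are not changed.
Connected: `OffConn.mono`, `OffConn.connected`; a core `c i 0` or `c i 2` has degree at least
`k ≥ 2` and at most one neighbour in `cs c`, so it has a neighbour outside; a core `c i 1` has a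
neighbour, which is outside `cs c` or is `c i 0` or `c i 2`. -/
theorem gad_down (G : SimpleGraph V) {m k : ℕ} (hm : 2 ≤ m) (hk : 2 ≤ k)
    (c : Fin 3 → Fin 3 → V) (hc : Cores G c) (hcd : ∀ i a, k + 1 ≤ dg G (c i a))
    (hout : ∀ y, y ∉ cs c → k ≤ (nb G y \ cs c).card) (hoff : OffConn G (cs c))
    (hf : f G m ≠ 0) : ∃ G' ≤ G, Ex k G' ∧ f G' m ≠ 0 := by
  obtain ⟨H, hHG, hfH, hdH, hko, hki⟩ := reduce_cores G hk c hc hcd hf
  have hmem : ∀ i a, c i a ∈ cs c := fun i a => mem_cs.2 ⟨i, a, rfl⟩
  have hcH : Cores H c :=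
    ⟨hc.inj, fun i => hki _ _ (hmem _ _) (hmem _ _) (hc.adj01 i),
      fun i => hki _ _ (hmem _ _) (hmem _ _) (hc.adj12 i),
      fun i j a b h => hc.nadj i j a b (hHG h)⟩
  by_cases hA : ∃ i a, dg H (c i a) = k
  · exact ⟨H, hHG, gad_fin G H hk c hcH.nadj (fun i a => (hdH i a).1) hA hko hout hoff, hfH⟩
  · push Not at hA
    have hcd' : ∀ i a, dg H (c i a) = k + 1 ∨ dg H (c i a) = k + 2 := by
      intro i a
      have h1 := hdH i a
      have h2 := hA i a
      omega
    obtain ⟨F, hfF, hFe, hFd, x, hx, hxd⟩ := reduced H hm hk c hcH hcd' hfH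
    have hle : H.deleteEdges (F : Set (Sym2 V)) ≤ H := SimpleGraph.deleteEdges_le _
    have hdel := dg_del H F (fun e he => (hFe e he).1)
    refine ⟨_, hle.trans hHG, gad_fin G _ hk c (fun i j a b h => hcH.nadj i j a b (hle h)) ?_ ?_ ?_
      hout hoff, hfF⟩
    · intro i a
      have h1 := hdel (c i a)
      have h2 := hFd _ (hmem i a)
      omega
    · obtain ⟨i, a, rfl⟩ := mem_cs.1 hx
      refine ⟨i, a, ?_⟩
      have h1 := hdel (c i a)
      omega
    · intro u v hu hv huv
      rw [SimpleGraph.deleteEdges_adj]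
      refine ⟨hko u v hu hv huv, ?_⟩
      intro he
      obtain ⟨-, z, hz, hze⟩ := hFe _ (by simpa using he)
      rcases Sym2.mem_iff.1 hze with h | h
      · exact hu (h ▸ hz)
      · exact hv (h ▸ hz)

end Pool.Agent.Helper52.DT
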