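import Pool.Agent.Helper52.DT.KM
import Pool.Agent.Helper52.LP.U

/-! # DT: three common neighbours, the relations (piece DT-K23) -/

namespace Pool.Agent.Helper52.DT

open Finset Function Pool.Agent.Helper52.LP
open scoped Classical

variable {V : Type} [Fintype V] [DecidableEq V]

omit [DecidableEq V] in
theorem up_reverse {G : SimpleGraph V} {m : ℕ} (hm : 2 ≤ m) {l : List V} (hl : l ∈ ML G m) :
    Up l.reverse ↔ ¬ Up l := by
  obtain ⟨h1, h2, h3⟩ := hl
  have hne : l ≠ [] := by rintro rfl; simp at h3; omega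
  obtain ⟨a, ha⟩ : ∃ a, a ∈ l.head? := by
    rcases l with _ | ⟨a, l⟩
    · exact absurd rfl hne
    · exact ⟨a, rfl⟩
  obtain ⟨b, hb⟩ : ∃ b, b ∈ l.getLast? := ⟨l.getLast hne, by rw [List.getLast?_eq_some_getLast hne]; rfl⟩
  have hab : a ≠ b := by
    rintro rfl
    rcases l with _ | ⟨x, l⟩
    · exact absurd rfl hne
    · simp only [List.head?_cons, Option.mem_some_iff] at ha
      subst ha
      have hl : l ≠ [] := by rintro rfl; simp at h3; omega
      rw [List.getLast?_cons_of_ne_nil hl] at hb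
      exact (List.nodup_cons.1 h1).1 (List.mem_of_mem_getLast? hb)
  have hky : ky a ≠ ky b := by
    intro h
    apply hab
    exact (Fintype.equivFin V).injective (Fin.ext h)
  have e1 : Up l ↔ ky a < ky b := by
    constructor
    · rintro ⟨a', ha', b', hb', h⟩
      rwa [Option.mem_unique ha ha', Option.mem_unique hb hb']
    · intro h; exact ⟨a, ha, b, hb, h⟩
  have e2 : Up l.reverse ↔ ky b < ky a := by
    unfold Up
    rw [List.head?_reverse, List.getLast?_reverse]
    constructor
    · rintro ⟨b', hb', a', ha', h⟩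
      rwa [Option.mem_unique ha ha', Option.mem_unique hb hb']
    · intro h; exact ⟨b, hb, a, ha, h⟩
  rw [e1, e2]
  omega

omit [DecidableEq V] in
/-- counting undirected paths through `u` and `v` -/
theorem count_half (G : SimpleGraph V) {m : ℕ} (hm : 2 ≤ m) {u v : V} (huv : u ≠ v)
    (Q : List V → Prop) (hQr : ∀ l ∈ ML G m, Q l → Q l.reverse)
    (hQ : ∀ l ∈ ML G m, Q l → u ∈ l ∧ v ∈ l) :
    ((RL G m).filter Q).card = ((TM G m u v).filter fun t => Q (flat u v t)).card := by
  set S : Finset (List V) := (ML_finite G m).toFinset.filter Q with hS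
  have hmem : ∀ l, l ∈ S ↔ l ∈ ML G m ∧ Q l := fun l => by
    rw [hS, mem_filter, (ML_finite G m).mem_toFinset]
  have hrev : ∀ l, l ∈ S → l.reverse ∈ S := by
    intro l hl
    rw [hmem] at hl ⊢
    exact ⟨ML_reverse hl.1, hQr l hl.1 hl.2⟩
  -- first count
  have a1 : (RL G m).filter Q = S.filter Up := by
    ext l
    rw [mem_filter, mem_filter, mem_RL, hmem]
    tauto
  have a2 : (S.filter fun l => ¬ Up l).card = (S.filter Up).card := by
    refine Finset.card_nbij' List.reverse List.reverse ?_ ?_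
      (fun l _ => List.reverse_reverse l) (fun l _ => List.reverse_reverse l)
    · intro l hl
      rw [mem_coe, mem_filter] at hl ⊢
      exact ⟨hrev l hl.1, (up_reverse hm ((hmem l).1 hl.1).1).2 hl.2⟩
    · intro l hl
      rw [mem_coe, mem_filter] at hl ⊢
      refine ⟨hrev l hl.1, ?_⟩
      intro h
      exact (up_reverse hm ((hmem l).1 hl.1).1).1 h hl.2
  -- second count
  have h1 : (S.filter fun l => ∃ t, l = flat u v t).card
      = ((TM G m u v).filter fun t => Q (flat u v t)).card := by
    symm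
    refine Finset.card_bij (fun t _ => flat u v t) ?_ ?_ ?_
    · intro t ht
      rw [mem_filter, mem_TM] at ht
      rw [mem_filter, hmem]
      exact ⟨ht, t, rfl⟩
    · intro t ht t' _ h
      rw [mem_filter, mem_TM] at ht
      exact flat_inj u v ht.1.1 h
    · intro l hl
      rw [mem_filter, hmem] at hl
      obtain ⟨hl, t, rfl⟩ := hl
      exact ⟨t, mem_filter.2 ⟨(mem_TM _ _ _ _ _).2 hl.1, hl.2⟩, rfl⟩
  have h2 : (S.filter fun l => ¬ ∃ t, l = flat u v t).card
      = (S.filter fun l => ∃ t, l = flat u v t).card := by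
    refine Finset.card_nbij' List.reverse List.reverse ?_ ?_
      (fun l _ => List.reverse_reverse l) (fun l _ => List.reverse_reverse l)
    · intro l hl
      rw [mem_coe, mem_filter] at hl ⊢
      obtain ⟨hl, hl'⟩ := hl
      refine ⟨hrev l hl, ?_⟩
      have hl2 := (hmem l).1 hl
      obtain ⟨hu, hv⟩ := hQ l hl2.1 hl2.2
      obtain ⟨A, R, rfl⟩ := List.append_of_mem hu
      rw [List.mem_append, List.mem_cons] at hv
      rcases hv with hv | hv | hv
      · obtain ⟨A1, A2, rfl⟩ := List.append_of_mem hv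
        exact ⟨(R.reverse, A2.reverse, A1.reverse), by simp [flat]⟩
      · exact absurd hv.symm huv
      · obtain ⟨B, C, rfl⟩ := List.append_of_mem hv
        exact absurd ⟨(A, B, C), rfl⟩ hl'
    · intro l hl
      rw [mem_coe, mem_filter] at hl ⊢
      obtain ⟨hl, ⟨A, B, C⟩, rfl⟩ := hl
      refine ⟨hrev _ hl, ?_⟩
      rintro ⟨⟨A', B', C'⟩, h⟩
      rw [flat_reverse] at h
      have hn := ((hmem _).1 hl).1.1
      simp only [flat] at h hn
      rw [List.nodup_append] at hn
      obtain ⟨n1, n2, n3⟩ := hn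
      have k1 : u ∉ A := fun hu => n3 u hu u (by simp) rfl
      obtain ⟨k2, n4⟩ := List.nodup_cons.1 n2
      have h' := congrArg List.reverse h
      simp only [List.reverse_append, List.reverse_cons, List.reverse_reverse,
        List.append_assoc, List.cons_append, List.nil_append] at h'
      obtain ⟨e1, -, e2⟩ := (List.append_cons_inj_of_notMem
        (x₂ := C'.reverse ++ v :: B'.reverse) (z₂ := A'.reverse) k1 k2).1 (by
          rw [h']; simp)
      have hvA : v ∈ A := by rw [e1]; simp
      exact n3 v hvA v (by simp) rfl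
  have b1 := Finset.card_filter_add_card_filter_not (s := S) Up
  have b2 := Finset.card_filter_add_card_filter_not (s := S) (fun l => ∃ t, l = flat u v t)
  rw [a1]
  omega

/-- the avoidance sum -/
theorem f_two (G : SimpleGraph V) (m : ℕ) (u v : V) (X Y : Finset V) :
    f (Dv (Dv G u X) v Y) m = ∑ l ∈ RL G m, (if ∀ x ∈ X, ¬ Con u x l then 1 else 0) *
      (if ∀ y ∈ Y, ¬ Con v y l then 1 else 0) := by
  have h1 : RL (Dv (Dv G u X) v Y) m
      = (RL G m).filter fun l => (∀ x ∈ X, ¬ Con u x l) ∧ ∀ y ∈ Y, ¬ Con v y l := by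
    ext l
    rw [mem_filter, mem_RL, mem_RL, mem_ML_Dv, mem_ML_Dv]
    tauto
  unfold f
  rw [h1, Finset.card_filter, Nat.cast_sum]
  refine Finset.sum_congr rfl fun l _ => ?_
  split_ifs <;> simp_all

theorem sum_f_two (G : SimpleGraph V) (m : ℕ) (u v : V) (X Y : Finset V) :
    ∑ X' ∈ X.powerset, ∑ Y' ∈ Y.powerset, f (Dv (Dv G u X') v Y') m
      = ∑ l ∈ RL G m, (if ∀ x ∈ X, Con u x l then 1 else 0) *
        (if ∀ y ∈ Y, Con v y l then 1 else 0) := by
  have h1 : ∀ X' : Finset V, ∑ Y' ∈ Y.powerset, f (Dv (Dv G u X') v Y') m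
      = ∑ l ∈ RL G m, (if ∀ x ∈ X', ¬ Con u x l then 1 else 0) *
        (if ∀ y ∈ Y, Con v y l then 1 else 0) := by
    intro X'
    simp only [f_two]
    rw [Finset.sum_comm]
    refine Finset.sum_congr rfl fun l _ => ?_
    rw [← Finset.mul_sum, mob]
  simp_rw [h1]
  rw [Finset.sum_comm]
  refine Finset.sum_congr rfl fun l _ => ?_
  rw [← Finset.sum_mul, mob]

/-- the number of paths through all the edges -/
theorem sum_f_nn (G : SimpleGraph V) {m : ℕ} (hm : 2 ≤ m) {u v : V} (huv : u ≠ v)
    {X Y : Finset V} (hX : X.Nonempty) (hY : Y.Nonempty) (hvX : v ∉ X) (huY : u ∉ Y) :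
    ∑ X' ∈ X.powerset, ∑ Y' ∈ Y.powerset, f (Dv (Dv G u X') v Y') m = nn G m u v X Y := by
  rw [sum_f_two]
  have h1 : ∑ l ∈ RL G m, (if ∀ x ∈ X, Con u x l then (1 : ZMod 2) else 0) *
        (if ∀ y ∈ Y, Con v y l then 1 else 0)
      = (((RL G m).filter fun l => (∀ x ∈ X, Con u x l) ∧ ∀ y ∈ Y, Con v y l).card : ZMod 2) := by
    rw [Finset.card_filter, Nat.cast_sum]
    refine Finset.sum_congr rfl fun l _ => ?_
    split_ifs <;> simp_all
  have h2 : nn G m u v X Y = (((TM G m u v).filter fun t =>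
      (∀ x ∈ X, Con u x (flat u v t)) ∧ ∀ y ∈ Y, Con v y (flat u v t)).card : ZMod 2) := by
    unfold nn
    rw [Finset.card_filter, Nat.cast_sum]
    refine Finset.sum_congr rfl fun t ht => ?_
    rw [mem_TM] at ht
    have e1 : (∀ x ∈ X, Con u x (flat u v t)) ↔ ∀ x ∈ X, nu t x :=
      forall_congr' fun x => forall_congr' fun hx => con_u ht.1 (fun h => hvX (h ▸ hx))
    have e2 : (∀ y ∈ Y, Con v y (flat u v t)) ↔ ∀ y ∈ Y, nv t y :=
      forall_congr' fun y => forall_congr' fun hy => con_v ht.1 (fun h => huY (h ▸ hy))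
    exact ite_mul_ite' (and_congr e1 e2).symm
  rw [h1, h2]
  congr 1
  have h3 := count_half G hm huv (fun l => (∀ x ∈ X, Con u x l) ∧ ∀ y ∈ Y, Con v y l) ?_ ?_
  · convert h3
  · intro l _ hl
    exact ⟨fun x hx => (hl.1 x hx).reverse, fun y hy => (hl.2 y hy).reverse⟩
  · intro l _ hl
    obtain ⟨x, hx⟩ := hX
    obtain ⟨y, hy⟩ := hY
    exact ⟨(hl.1 x hx).mem_left, (hl.2 y hy).mem_left⟩

omit [Fintype V] in
/-- three neighbours on a path -/
theorem con_three {l : List V} (hl : l.Nodup) {c : V} {S : Finset V} (hS : 3 ≤ S.card)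
    (h : ∀ y ∈ S, Con c y l) : False := by
  obtain ⟨T, hT, hT3⟩ := Finset.exists_subset_card_eq hS
  obtain ⟨x, y, z, hxy, hxz, hyz, rfl⟩ := Finset.card_eq_three.1 hT3
  have := sc_three hl (c := c) hxy hxz hyz
  have hx := h x (hT (by simp))
  have hy := h y (hT (by simp))
  have hz := h z (hT (by simp))
  unfold sc at this
  rw [if_pos hx, if_pos hy, if_pos hz] at this
  exact absurd this (by decide)

/-- the relations of a complete bipartite graph `K_{2,3}` for paths on `m` vertices.
Generalisation of `LP.rel` (files `LP/P.lean`, `Q`, `R`, `T`) from Hamilton paths to paths on `m`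
vertices; the last relation says that a path contains no circuit on four vertices. -/
theorem rel_m (G : SimpleGraph V) {m : ℕ} (hm : 2 ≤ m) {u v : V} (huv : u ≠ v) {c : Fin 3 → V}
    (hc : Injective c) (hu : ∀ i, G.Adj u (c i)) (hv : ∀ i, G.Adj v (c i)) :
    Rel (fun X Y => f (Dv (Dv G u (X.image c)) v (Y.image c)) m) ∧
      NN (fun X Y => f (Dv (Dv G u (X.image c)) v (Y.image c)) m) {1, 2} {1, 2} = 0 := by
  have hcu : ∀ X : Finset (Fin 3), u ∉ X.image c := by
    intro X h
    obtain ⟨i, _, hi⟩ := Finset.mem_image.1 h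
    exact (hu i).ne hi.symm
  have hcv : ∀ X : Finset (Fin 3), v ∉ X.image c := by
    intro X h
    obtain ⟨i, _, hi⟩ := Finset.mem_image.1 h
    exact (hv i).ne hi.symm
  have huniv : ∀ F : Finset (Fin 3) → ZMod 2,
      ∑ T, F T = ∑ T ∈ (univ : Finset (Fin 3)).powerset, F T := by
    intro F; rw [Finset.powerset_univ]
  have hcard : 3 ≤ ((univ : Finset (Fin 3)).image c).card := by
    rw [Finset.card_image_of_injective _ hc]; simp
  have hNN : ∀ S T : Finset (Fin 3), S.Nonempty → T.Nonempty →
      NN (fun X Y => f (Dv (Dv G u (X.image c)) v (Y.image c)) m) S T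
      = nn G m u v (S.image c) (T.image c) := by
    intro S T hS hT
    rw [← sum_f_nn G hm huv (hS.image c) (hT.image c) (hcv S) (hcu T), sum_pow_image hc]
    unfold NN
    refine Finset.sum_congr rfl fun X _ => ?_
    rw [sum_pow_image hc]
  have hNN' : ∀ S T : Finset (Fin 3), S.Nonempty → T.Nonempty →
      NN (fun X Y => f (Dv (Dv G u (X.image c)) v (Y.image c)) m) S T
      = nn G m v u (T.image c) (S.image c) := by
    intro S T hS hT
    rw [← sum_f_nn G hm huv.symm (hT.image c) (hS.image c) (hcu T) (hcv S), sum_pow_image hc]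
    unfold NN
    rw [Finset.sum_comm]
    refine Finset.sum_congr rfl fun Y _ => ?_
    rw [sum_pow_image hc]
    refine Finset.sum_congr rfl fun X _ => ?_
    rw [Dv_comm]
  refine ⟨⟨?_, ?_, ?_, ?_, ?_⟩, ?_⟩
  · intro X
    rw [huniv, ← sum_pow_image hc univ (fun T => f (Dv (Dv G u (X.image c)) v T) m)]
    simp only [f_two]
    rw [Finset.sum_comm]
    refine Finset.sum_eq_zero fun l hl => ?_
    rw [← Finset.mul_sum, mob, if_neg (c := ∀ y ∈ image c univ, Con v y l), mul_zero]
    exact fun h => con_three ((mem_RL _ _ _).1 hl).1.1 hcard h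
  · intro Y
    rw [huniv, ← sum_pow_image hc univ (fun T => f (Dv (Dv G u T) v (Y.image c)) m)]
    simp only [f_two]
    rw [Finset.sum_comm]
    refine Finset.sum_eq_zero fun l hl => ?_
    rw [← Finset.sum_mul, mob, if_neg (c := ∀ y ∈ image c univ, Con u y l), zero_mul]
    exact fun h => con_three ((mem_RL _ _ _).1 hl).1.1 hcard h
  · have e0 : ({0}ᶜ : Finset (Fin 3)) = {1, 2} := by decide
    have e1 : ({1}ᶜ : Finset (Fin 3)) = {0, 2} := by decide
    have e2 : ({2}ᶜ : Finset (Fin 3)) = {0, 1} := by decide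
    rw [Fin.sum_univ_three, e0, e1, e2, hNN _ _ (by simp) (by simp), hNN _ _ (by simp) (by simp),
      hNN _ _ (by simp) (by simp)]
    simp only [Finset.image_insert, Finset.image_singleton]
    exact k23 G (fun h => absurd (hc h) (by decide)) (fun h => absurd (hc h) (by decide))
      (fun h => absurd (hc h) (by decide)) (hu 0) (hu 1) (hu 2) (hv 0) (hv 1) (hv 2)
  · have e0 : ({0}ᶜ : Finset (Fin 3)) = {1, 2} := by decide
    have e1 : ({1}ᶜ : Finset (Fin 3)) = {0, 2} := by decide
    have e2 : ({2}ᶜ : Finset (Fin 3)) = {0, 1} := by decide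
    rw [Fin.sum_univ_three, e0, e1, e2, hNN' _ _ (by simp) (by simp),
      hNN' _ _ (by simp) (by simp), hNN' _ _ (by simp) (by simp)]
    simp only [Finset.image_insert, Finset.image_singleton]
    exact k23 G (fun h => absurd (hc h) (by decide)) (fun h => absurd (hc h) (by decide))
      (fun h => absurd (hc h) (by decide)) (hv 0) (hv 1) (hv 2) (hu 0) (hu 1) (hu 2)
  · intro i
    rw [hNN _ _ (by simp) (by simp), hNN _ _ (by simp) (by simp)]
    simp only [Finset.image_insert, Finset.image_singleton]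
    have h1 : i + 1 ≠ i := by fin_cases i <;> decide
    have h2 : i ≠ i + 2 := by fin_cases i <;> decide
    rw [p5 G (x := c (i + 1)) (y := c i) (z := c (i + 2)) (fun h => h1 (hc h))
      (fun h => h2 (hc h)) (hu _) (hu _) (hv _) (hv _)]
    rw [Finset.pair_comm (c i) (c (i + 1))]
    exact CharTwo.add_self_eq_zero _
  · rw [hNN _ _ (by simp) (by simp)]
    simp only [Finset.image_insert, Finset.image_singleton]
    have h12 : c 1 ≠ c 2 := fun h => absurd (hc h) (by decide)
    unfold nn
    refine Finset.sum_eq_zero ?_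
    rintro ⟨A, B, C⟩ ht
    obtain ⟨h1, h2, h3⟩ := parts G ht
    rw [ite_mul_ite' (R := False)]
    · simp
    simp only [nu, nv, Finset.mem_singleton, forall_eq, Finset.mem_insert, forall_eq_or_imp]
    constructor
    · rintro ⟨⟨a1, a2⟩, b1, b2⟩
      -- both are next to `u` and to `v`
      have key : ∀ x : V, (x ∈ A.getLast? ∨ x ∈ B.head?) → (x ∈ B.getLast? ∨ x ∈ C.head?) →
          x ∈ B.head? ∧ x ∈ B.getLast? := by
        rintro x (h | h) (h' | h')
        · exact absurd (List.mem_of_mem_getLast? h') (h1 x (List.mem_of_mem_getLast? h)).1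
        · exact absurd (List.mem_of_mem_head? h') (h1 x (List.mem_of_mem_getLast? h)).2
        · exact ⟨h, h'⟩
        · exact absurd (List.mem_of_mem_head? h') (h2 x (List.mem_of_mem_head? h))
      have k1 := key _ a1 b1
      have k2 := key _ a2 b2
      exact h12 (Option.mem_unique k1.1 k2.1)
    · exact False.elim

end Pool.Agent.Helper52.DT
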