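import Pool.Agent.Helper52.DT.K23
import Pool.Agent.Helper52.DT.Cert23
import Pool.Agent.Helper52.DT.Off

/-! # DT: the graph with three common neighbours (piece DT-KDown) -/

namespace Pool.Agent.Helper52.DT

open Finset Function Pool.Agent.Helper52.LP
open scoped Classical

variable {V : Type} [Fintype V] [DecidableEq V]

omit [Fintype V] in
/-- connectedness, if each vertex of `C` is adjacent to a vertex outside -/
private theorem kdown_conn {H : SimpleGraph V} {u : V} {c : Fin 3 → V} (hu : ∀ i, H.Adj u (c i))
    (hoff : OffConn H (univ.image c)) : H.Connected := by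
  have : Nonempty V := ⟨u⟩
  refine OffConn.connected hoff ?_
  intro x hx
  obtain ⟨i, _, rfl⟩ := Finset.mem_image.1 hx
  refine ⟨u, ?_, (hu i).symm.reachable⟩
  intro h
  obtain ⟨j, _, hj⟩ := Finset.mem_image.1 h
  exact (hu j).ne hj.symm

/-- the star step at `w`, keeping the edges at `u` and `v` -/
private theorem kdown_star (G : SimpleGraph V) {m : ℕ} (u v w : V) (k : ℕ)
    (hf : f G m ≠ 0) (hk : 2 ≤ k) (hδ : ∀ u, k + 1 ≤ dg G u) (hw : k + 3 ≤ dg G w) :
    ∃ F : Finset V, F.Nonempty ∧ (∀ x ∈ F, G.Adj w x ∧ x ≠ u ∧ x ≠ v) ∧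
      (∀ x, k ≤ dg (Dv G w F) x) ∧ f (Dv G w F) m ≠ 0 := by
  have h3' : 3 ≤ (((univ.filter fun x => G.Adj w x).erase u).erase v).card := by
    have h1 := Finset.pred_card_le_card_erase (s := univ.filter fun x => G.Adj w x) (a := u)
    have h2 := Finset.pred_card_le_card_erase
      (s := (univ.filter fun x => G.Adj w x).erase u) (a := v)
    unfold dg at hw
    omega
  obtain ⟨N, hNs, hNc⟩ := Finset.exists_subset_card_eq h3'
  have hNm : ∀ x ∈ N, G.Adj w x ∧ x ≠ u ∧ x ≠ v := by
    intro x hx
    have := hNs hx
    simp only [Finset.mem_erase, mem_filter, mem_univ, true_and] at this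
    exact ⟨this.2.2, this.2.1, this.1⟩
  obtain ⟨F, hF, hF0, hF2⟩ := star G w N hNc.ge hf
  refine ⟨F, hF0, fun x hx => hNm x (hF hx), ?_, hF2⟩
  intro x
  by_cases hx : x = w
  · rw [hx]
    have h5 := dg_Dv_self G w F
    have h6 := Finset.card_le_card hF
    omega
  · have h5 := dg_Dv_ne G w F x hx
    have h6 := hδ x
    omega

private theorem kdown_aux {m k : ℕ} (hm : 2 ≤ m) (hk : 2 ≤ k) {u v : V}
    (huv : u ≠ v) {c : Fin 3 → V} (hc : Injective c) :
    ∀ H : SimpleGraph V, (∀ i, H.Adj u (c i)) → (∀ i, H.Adj v (c i)) → k + 3 ≤ dg H u →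
      k + 3 ≤ dg H v → OffConn H (univ.image c) → f H m ≠ 0 → (∀ w, k ≤ dg H w) →
      ∃ G' ≤ H, Ex k G' ∧ f G' m ≠ 0 := by
  intro H
  induction H using (inferInstance : WellFoundedLT (SimpleGraph V)).induction with
  | ind H ih =>
    intro hu hv hdu hdv hoff hf hd
    by_cases h0 : ∃ w, dg H w = k
    · exact ⟨H, le_rfl, ⟨kdown_conn hu hoff, hd, h0⟩, hf⟩
    push Not at h0
    have hδ : ∀ w, k + 1 ≤ dg H w := by
      intro w
      have a1 := hd w
      have a2 := h0 w
      omega
    by_cases h1 : ∃ i, k + 3 ≤ dg H (c i)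
    · obtain ⟨i, hi⟩ := h1
      obtain ⟨F, hF0, hF, hδ1, hf1⟩ := kdown_star H u v (c i) k hf hk hδ hi
      have hlt : Dv H (c i) F < H := Dv_lt H (c i) F hF0 fun x hx => (hF x hx).1
      have ku : ∀ x, H.Adj u x → (Dv H (c i) F).Adj u x := fun x hx =>
        ⟨hx, fun h => (hu i).ne h.1, fun h => (hF u h.2).2.1 rfl⟩
      have kv : ∀ x, H.Adj v x → (Dv H (c i) F).Adj v x := fun x hx =>
        ⟨hx, fun h => (hv i).ne h.1, fun h => (hF v h.2).2.2 rfl⟩
      have hci : c i ∈ univ.image c := Finset.mem_image_of_mem c (mem_univ i)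
      obtain ⟨G', g1, g2, g3⟩ := ih (Dv H (c i) F) hlt (fun j => ku _ (hu j))
        (fun j => kv _ (hv j)) (hdu.trans (dg_mono ku)) (hdv.trans (dg_mono kv))
        (hoff.mono fun a b ha hb hab => ⟨hab, fun h => ha (h.1 ▸ hci), fun h => hb (h.1 ▸ hci)⟩)
        hf1 hδ1
      exact ⟨G', g1.trans hlt.le, g2, g3⟩
    · push Not at h1
      obtain ⟨hrel, hNN⟩ := rel_m H hm huv hc hu hv
      have hg0 : f (Dv (Dv H u ((∅ : Finset (Fin 3)).image c)) v
          ((∅ : Finset (Fin 3)).image c)) m ≠ 0 := by
        simpa only [Finset.image_empty, Dv_empty] using hf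
      obtain ⟨X, Y, e1, ⟨i0, e2⟩, e3, e4⟩ := exact_full hrel hNN hg0
        (fun i => dg H (c i) - k) (by
          intro i
          have a1 := hδ (c i)
          have a2 := h1 i
          have a3 : dg H (c i) - k = 1 ∨ dg H (c i) - k = 2 := by omega
          exact a3)
      have hcu : ∀ X : Finset (Fin 3), u ∉ X.image c := by
        intro X h
        obtain ⟨i, _, hi⟩ := Finset.mem_image.1 h
        exact (hu i).ne hi.symm
      have hcv : ∀ X : Finset (Fin 3), v ∉ X.image c := by
        intro X h
        obtain ⟨i, _, hi⟩ := Finset.mem_image.1 h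
        exact (hv i).ne hi.symm
      have hX : ∀ x ∈ X.image c, H.Adj u x := by
        intro x hx
        obtain ⟨i, _, rfl⟩ := Finset.mem_image.1 hx
        exact hu i
      have hY : ∀ y ∈ Y.image c, H.Adj v y := by
        intro x hx
        obtain ⟨i, _, rfl⟩ := Finset.mem_image.1 hx
        exact hv i
      obtain ⟨d1, d2, d3⟩ := dg_two H huv (X.image c) (Y.image c) hX hY (hcv X) (hcu Y)
      rw [Finset.card_image_of_injective _ hc] at d1 d2
      have d4 : ∀ i, dg H (c i) = dg (Dv (Dv H u (X.image c)) v (Y.image c)) (c i) + lo X Y i := by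
        intro i
        rw [d3 (c i) (hu i).ne' (hv i).ne']
        unfold lo
        simp only [Finset.mem_image, hc.eq_iff, exists_eq_right]
        ring
      have d5 : ∀ w, w ≠ u → w ≠ v → (∀ i, w ≠ c i) →
          dg H w = dg (Dv (Dv H u (X.image c)) v (Y.image c)) w := by
        intro w h1 h2 h4
        have k1 : ∀ X : Finset (Fin 3), w ∉ X.image c := by
          intro X h
          obtain ⟨i, _, hi⟩ := Finset.mem_image.1 h
          exact h4 i hi.symm
        rw [d3 w h1 h2, if_neg (k1 X), if_neg (k1 Y), add_zero, add_zero]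
      have hXc : X.card ≤ 3 := by
        have := Finset.card_le_univ X
        simpa using this
      have hYc : Y.card ≤ 3 := by
        have := Finset.card_le_univ Y
        simpa using this
      -- the degrees
      have hdeg : ∀ w, k ≤ dg (Dv (Dv H u (X.image c)) v (Y.image c)) w := by
        intro w
        by_cases hwu : w = u
        · rw [hwu]
          omega
        by_cases hwv : w = v
        · rw [hwv]
          omega
        by_cases hw : ∃ i, w = c i
        · obtain ⟨i, hi⟩ := hw
          rw [hi]
          have a1 := d4 i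
          have a2 := e1 i
          have a3 := hδ (c i)
          omega
        · push Not at hw
          rw [← d5 w hwu hwv hw]
          have := hδ w
          omega
      have hex : dg (Dv (Dv H u (X.image c)) v (Y.image c)) (c i0) = k := by
        have a1 := d4 i0
        have a3 := hδ (c i0)
        have e2' : lo X Y i0 = dg H (c i0) - k := e2
        omega
      refine ⟨Dv (Dv H u (X.image c)) v (Y.image c), fun a b h => h.1.1,
        ⟨?_, hdeg, c i0, hex⟩, e4⟩
      -- connected
      have : Nonempty V := ⟨u⟩
      have hsubu : ∀ X : Finset (Fin 3), ∀ a ∉ univ.image c, a ∉ X.image c := fun X a ha h =>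
        ha (Finset.image_subset_image (Finset.subset_univ X) h)
      refine OffConn.connected (C := univ.image c) (hoff.mono ?_) ?_
      · intro a b ha hb hab
        exact ⟨⟨hab, fun h => hsubu X b hb h.2, fun h => hsubu X a ha h.2⟩,
          fun h => hsubu Y b hb h.2, fun h => hsubu Y a ha h.2⟩
      -- some `c i` keeps a neighbour outside
      obtain ⟨i, hi⟩ : ∃ i, i ∉ X ∨ i ∉ Y := by
        by_contra hcon
        push Not at hcon
        exact e3 ⟨Finset.eq_univ_iff_forall.2 fun i => (hcon i).1,
          Finset.eq_univ_iff_forall.2 fun i => (hcon i).2⟩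
      have hinot : ∀ X : Finset (Fin 3), i ∉ X → c i ∉ X.image c := by
        intro X h h'
        obtain ⟨j, hj, e⟩ := Finset.mem_image.1 h'
        rw [hc e] at hj
        exact h hj
      obtain ⟨z, hz, hzi⟩ : ∃ z ∉ univ.image c,
          (Dv (Dv H u (X.image c)) v (Y.image c)).Adj (c i) z := by
        rcases hi with hi | hi
        · refine ⟨u, hcu univ, ⟨(hu i).symm, ?_, ?_⟩, ?_, ?_⟩
          · exact fun h => (hu i).ne h.1.symm
          · exact fun h => hinot X hi h.2
          · exact fun h => (hv i).ne h.1.symm
          · exact fun h => huv h.1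
        · refine ⟨v, hcv univ, ⟨(hv i).symm, ?_, ?_⟩, ?_, ?_⟩
          · exact fun h => (hu i).ne h.1.symm
          · exact fun h => huv h.1.symm
          · exact fun h => (hv i).ne h.1.symm
          · exact fun h => hinot Y hi h.2
      intro x hx
      obtain ⟨j, _, rfl⟩ := Finset.mem_image.1 hx
      by_cases hout : ∃ y ∉ univ.image c, (Dv (Dv H u (X.image c)) v (Y.image c)).Adj (c j) y
      · obtain ⟨y, hy, hjy⟩ := hout
        exact ⟨y, hy, hjy.reachable⟩
      · push Not at hout
        have hij : i ≠ j := by
          rintro rfl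
          exact hout z hz hzi
        have hadj : (Dv (Dv H u (X.image c)) v (Y.image c)).Adj (c j) (c i) := by
          by_contra hna
          have hsub : (univ.filter fun w =>
              (Dv (Dv H u (X.image c)) v (Y.image c)).Adj (c j) w) ⊆
              ((univ.image c).erase (c j)).erase (c i) := by
            intro w hw
            rw [mem_filter] at hw
            refine Finset.mem_erase.2 ⟨?_, Finset.mem_erase.2 ⟨hw.2.ne', ?_⟩⟩
            · rintro rfl
              exact hna hw.2
            · by_contra hwc
              exact hout w hwc hw.2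
          have hcard := Finset.card_le_card hsub
          rw [Finset.card_erase_of_mem (Finset.mem_erase.2 ⟨fun h => hij (hc h),
              Finset.mem_image_of_mem c (mem_univ i)⟩),
            Finset.card_erase_of_mem (Finset.mem_image_of_mem c (mem_univ j)),
            Finset.card_image_of_injective _ hc, Finset.card_univ, Fintype.card_fin] at hcard
          have h5 := hdeg (c j)
          unfold dg at h5
          omega
        exact ⟨z, hz, hadj.reachable.trans hzi.reachable⟩

/-- Two vertices `u`, `v` of degree at least `k + 3` with three common neighbours `c i`.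
Proof: among the subgraphs `H ≤ G` which agree with `G` on all pairs not meeting the `c i`, in which
`u` and `v` have the same neighbours as in `G`, with all degrees at least `k` and `f H m ≠ 0` take
one with the fewest edges.  All these `H` are connected (`OffConn.mono`, each `c i` is adjacent to
`u`).  If `dg H w = k` for some `w`, take `G' = H`.  Otherwise all degrees are at least `k + 1`, and
`dg H (c i) ≤ k + 2`: if `dg H (c i) ≥ k + 3` then `star` at `c i` with three neighbours other than
`u` and `v` gives a smaller `H`.  Now use `rel_m` and `exact_full` with `t i = dg H (c i) - k`: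
`G' = Dv (Dv H u (X.image c)) v (Y.image c)` (degrees: `LP.dg_two`, file `LP/U.lean`; the degrees of
`u`, `v` are at least `k`, the degree of `c i` is `dg H (c i) - lo X Y i`).  `G'` is connected: some
`c i` keeps `u` or `v` (not the full set), and each `c j` has degree at least `k ≥ 2`, hence a
neighbour outside the `c i`'s or the two other `c i`'s as neighbours. -/
theorem k23_down (G : SimpleGraph V) {m k : ℕ} (hm : 2 ≤ m) (hk : 2 ≤ k) {u v : V}
    (huv : u ≠ v) {c : Fin 3 → V} (hc : Injective c) (hu : ∀ i, G.Adj u (c i))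
    (hv : ∀ i, G.Adj v (c i)) (hd : ∀ w, k ≤ dg G w) (hdu : k + 3 ≤ dg G u)
    (hdv : k + 3 ≤ dg G v) (hoff : OffConn G (univ.image c)) (hf : f G m ≠ 0) :
    ∃ G' ≤ G, Ex k G' ∧ f G' m ≠ 0 :=
  kdown_aux hm hk huv hc G hu hv hdu hdv hoff hf hd

end Pool.Agent.Helper52.DT
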