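import Pool.Agent.Helper52.DT.BasicB
import Pool.Agent.Helper52.LP.R

/-! # DT: paths on `m` vertices through two vertices (helper52) -/

namespace Pool.Agent.Helper52.DT

open Finset Function Pool.Agent.Helper52.LP
open scoped Classical

variable {V : Type} [Fintype V] [DecidableEq V]

omit [DecidableEq V] in
theorem TM_finite (G : SimpleGraph V) (m : ℕ) (u v : V) :
    {t : List V × List V × List V | flat u v t ∈ ML G m}.Finite := by
  refine Set.Finite.of_injOn (f := flat u v) (t := ML G m) ?_ ?_ (ML_finite G m)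
  · intro t ht; exact ht
  · intro t ht t' _ h
    exact flat_inj u v ht.1 h

/-- the paths on `m` vertices with `u` before `v` -/
noncomputable def TM (G : SimpleGraph V) (m : ℕ) (u v : V) :
    Finset (List V × List V × List V) := (TM_finite G m u v).toFinset

omit [DecidableEq V] in
theorem mem_TM (G : SimpleGraph V) (m : ℕ) (u v : V) (t : List V × List V × List V) :
    t ∈ TM G m u v ↔ flat u v t ∈ ML G m := by
  simp [TM]

/-- the number of paths through all the edges from `u` to `X` and from `v` to `Y` -/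
noncomputable def nn (G : SimpleGraph V) (m : ℕ) (u v : V) (X Y : Finset V) : ZMod 2 :=
  ∑ t ∈ TM G m u v, (if ∀ x ∈ X, nu t x then 1 else 0) * (if ∀ y ∈ Y, nv t y then 1 else 0)

omit [DecidableEq V] in
/-- reversing the middle part -/
theorem sig_mid (G : SimpleGraph V) {m : ℕ} {u v : V} {A B C : List V} {x y : V}
    (ht : (A, B, C) ∈ TM G m u v) (hx : x ∈ B.head?) (hy : y ∈ B.getLast?)
    (huy : G.Adj u y) (hvx : G.Adj v x) : (A, B.reverse, C) ∈ TM G m u v := by
  rw [mem_TM] at ht ⊢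
  obtain ⟨h1, h2, h3⟩ := ht
  have hp : (flat u v (A, B.reverse, C)).Perm (flat u v (A, B, C)) := by
    simp only [flat]
    refine List.Perm.append_left _ (List.Perm.cons _ ?_)
    exact List.Perm.append_right _ (List.reverse_perm _)
  refine ⟨hp.nodup_iff.2 h1, ?_, hp.length_eq.trans h3⟩
  rw [chain_flat] at h2 ⊢
  obtain ⟨a1, a2, a3, a4, a5, a6, a7⟩ := h2
  have hB : B ≠ [] := by rintro rfl; simp at hx
  refine ⟨a1, chain_reverse a2, a3, a4, ?_, ?_, a7⟩
  · intro w hw
    rw [List.head?_append_of_ne_nil _ (by simpa using hB), List.head?_reverse] at hw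
    rw [Option.mem_unique hw hy]; exact huy
  · intro w hw
    rw [List.getLast?_reverse] at hw
    rw [Option.mem_unique hw hx]; exact hvx.symm

omit [DecidableEq V] in
/-- exchanging and reversing the outer parts -/
theorem sig_out (G : SimpleGraph V) {m : ℕ} {u v : V} {A B C : List V} {x z : V}
    (ht : (A, B, C) ∈ TM G m u v) (hx : x ∈ A.getLast?) (hz : z ∈ C.head?) (hB : B ≠ [])
    (huz : G.Adj u z) (hvx : G.Adj v x) : (C.reverse, B, A.reverse) ∈ TM G m u v := by
  rw [mem_TM] at ht ⊢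
  obtain ⟨h1, h2, h3⟩ := ht
  have hp : (flat u v (C.reverse, B, A.reverse)).Perm (flat u v (A, B, C)) := by
    simp only [flat]
    have e1 : (C.reverse ++ u :: (B ++ v :: A.reverse)).Perm (C ++ (u :: B ++ v :: A)) := by
      refine List.Perm.append (List.reverse_perm _) ?_
      rw [List.cons_append]
      refine List.Perm.cons _ (List.Perm.append_left _ (List.Perm.cons _ (List.reverse_perm _)))
    refine e1.trans ?_
    refine List.perm_append_comm.trans ?_
    have e2 : (u :: B ++ v :: A ++ C).Perm (u :: (B ++ v :: (A ++ C))) := by simp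
    refine e2.trans ?_
    have e3 : (A ++ u :: (B ++ v :: C)).Perm (u :: (A ++ (B ++ v :: C))) := List.perm_middle
    refine List.Perm.trans ?_ e3.symm
    refine List.Perm.cons _ ?_
    have e4 : (B ++ v :: (A ++ C)).Perm (v :: (B ++ (A ++ C))) := List.perm_middle
    have e5 : (A ++ (B ++ v :: C)).Perm (v :: (A ++ B ++ C)) := by
      rw [← List.append_assoc]; exact List.perm_middle
    refine e4.trans (List.Perm.trans (List.Perm.cons _ ?_) e5.symm)
    rw [← List.append_assoc]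
    exact List.Perm.append_right _ List.perm_append_comm
  refine ⟨hp.nodup_iff.2 h1, ?_, hp.length_eq.trans h3⟩
  rw [chain_flat] at h2 ⊢
  obtain ⟨a1, a2, a3, a4, a5, a6, a7⟩ := h2
  rw [List.head?_append_of_ne_nil _ hB] at a5
  refine ⟨chain_reverse a3, a2, chain_reverse a1, ?_, ?_, a6, ?_⟩
  · intro w hw
    rw [List.getLast?_reverse] at hw
    rw [Option.mem_unique hw hz]; exact huz.symm
  · intro w hw
    rw [List.head?_append_of_ne_nil _ hB] at hw
    exact a5 w hw
  · intro w hw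
    rw [List.head?_reverse] at hw
    rw [Option.mem_unique hw hx]; exact hvx

/-- `u` is next to `x` on the side of `v` -/
noncomputable def P1 (G : SimpleGraph V) (m : ℕ) (u v x y z : V) : ZMod 2 :=
  ((TM G m u v).filter fun t => x ∈ t.2.1.head? ∧ y ∈ t.2.1.getLast? ∧ z ∈ t.2.2.head?).card

/-- `u` is next to `x` on the other side -/
noncomputable def P2 (G : SimpleGraph V) (m : ℕ) (u v x y z : V) : ZMod 2 :=
  ((TM G m u v).filter fun t => x ∈ t.1.getLast? ∧ y ∈ t.2.1.getLast? ∧ z ∈ t.2.2.head?).card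

noncomputable def P3 (G : SimpleGraph V) (m : ℕ) (u v x y z : V) : ZMod 2 :=
  ((TM G m u v).filter fun t => x ∈ t.1.getLast? ∧ y ∈ t.2.1.head? ∧ y ∈ t.2.1.getLast? ∧
    z ∈ t.2.2.head?).card

theorem P1_symm (G : SimpleGraph V) {m : ℕ} {u v x y z : V} (hux : G.Adj u x) (huy : G.Adj u y)
    (hvx : G.Adj v x) (hvy : G.Adj v y) : P1 G m u v x y z = P1 G m u v y x z := by
  unfold P1
  congr 1
  refine Finset.card_nbij' (fun t => (t.1, t.2.1.reverse, t.2.2))
    (fun t => (t.1, t.2.1.reverse, t.2.2)) ?_ ?_ ?_ ?_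
  · rintro ⟨A, B, C⟩ ht
    rw [mem_coe, mem_filter] at ht ⊢
    obtain ⟨h1, h2, h3, h4⟩ := ht
    exact ⟨sig_mid G h1 h2 h3 huy hvx, by simpa using h3, by simpa using h2, h4⟩
  · rintro ⟨A, B, C⟩ ht
    rw [mem_coe, mem_filter] at ht ⊢
    obtain ⟨h1, h2, h3, h4⟩ := ht
    exact ⟨sig_mid G h1 h2 h3 hux hvy, by simpa using h3, by simpa using h2, h4⟩
  · rintro ⟨A, B, C⟩ _; simp
  · rintro ⟨A, B, C⟩ _; simp

theorem P2_symm (G : SimpleGraph V) {m : ℕ} {u v x y z : V} (hux : G.Adj u x) (huz : G.Adj u z)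
    (hvx : G.Adj v x) (hvz : G.Adj v z) : P2 G m u v x y z = P2 G m u v z y x := by
  unfold P2
  congr 1
  refine Finset.card_nbij' (fun t => (t.2.2.reverse, t.2.1, t.1.reverse))
    (fun t => (t.2.2.reverse, t.2.1, t.1.reverse)) ?_ ?_ ?_ ?_
  · rintro ⟨A, B, C⟩ ht
    rw [mem_coe, mem_filter] at ht ⊢
    obtain ⟨h1, h2, h3, h4⟩ := ht
    have hB : B ≠ [] := by rintro rfl; simp at h3
    exact ⟨sig_out G h1 h2 h4 hB huz hvx, by simpa using h4, h3, by simpa using h2⟩
  · rintro ⟨A, B, C⟩ ht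
    rw [mem_coe, mem_filter] at ht ⊢
    obtain ⟨h1, h2, h3, h4⟩ := ht
    have hB : B ≠ [] := by rintro rfl; simp at h3
    exact ⟨sig_out G h1 h2 h4 hB hux hvz, by simpa using h4, h3, by simpa using h2⟩
  · rintro ⟨A, B, C⟩ _; simp
  · rintro ⟨A, B, C⟩ _; simp

theorem P3_symm (G : SimpleGraph V) {m : ℕ} {u v x y z : V} (hux : G.Adj u x) (huz : G.Adj u z)
    (hvx : G.Adj v x) (hvz : G.Adj v z) : P3 G m u v x y z = P3 G m u v z y x := by
  unfold P3
  congr 1
  refine Finset.card_nbij' (fun t => (t.2.2.reverse, t.2.1, t.1.reverse))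
    (fun t => (t.2.2.reverse, t.2.1, t.1.reverse)) ?_ ?_ ?_ ?_
  · rintro ⟨A, B, C⟩ ht
    rw [mem_coe, mem_filter] at ht ⊢
    obtain ⟨h1, h2, h0, h3, h4⟩ := ht
    have hB : B ≠ [] := by rintro rfl; simp at h3
    exact ⟨sig_out G h1 h2 h4 hB huz hvx, by simpa using h4, h0, h3, by simpa using h2⟩
  · rintro ⟨A, B, C⟩ ht
    rw [mem_coe, mem_filter] at ht ⊢
    obtain ⟨h1, h2, h0, h3, h4⟩ := ht
    have hB : B ≠ [] := by rintro rfl; simp at h3
    exact ⟨sig_out G h1 h2 h4 hB hux hvz, by simpa using h4, h0, h3, by simpa using h2⟩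
  · rintro ⟨A, B, C⟩ _; simp
  · rintro ⟨A, B, C⟩ _; simp

omit [DecidableEq V] in
/-- the parts of a marked path are disjoint -/
theorem parts (G : SimpleGraph V) {m : ℕ} {u v : V} {A B C : List V} (h : (A, B, C) ∈ TM G m u v) :
    (∀ x ∈ A, x ∉ B ∧ x ∉ C) ∧ (∀ x ∈ B, x ∉ C) ∧ B.Nodup := by
  rw [mem_TM] at h
  have hn := h.1
  simp only [flat] at hn
  rw [List.nodup_append] at hn
  obtain ⟨n1, n2, n3⟩ := hn
  obtain ⟨n4, n5⟩ := List.nodup_cons.1 n2
  rw [List.nodup_append] at n5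
  obtain ⟨n6, n7, n8⟩ := n5
  refine ⟨fun x hx => ⟨fun h => n3 x hx x (by simp [h]) rfl,
    fun h => n3 x hx x (by simp [h]) rfl⟩, fun x hx h => n8 x hx x (by simp [h]) rfl, n6⟩

theorem nn_12 (G : SimpleGraph V) {m : ℕ} {u v x y z : V} (hyz : y ≠ z) :
    nn G m u v {x} {y, z} = P1 G m u v x y z + P1 G m u v x z y + P2 G m u v x y z + P2 G m u v x z y := by
  simp only [nn, P1, P2, Finset.card_filter, Nat.cast_sum, ← Finset.sum_add_distrib]
  refine Finset.sum_congr rfl ?_
  rintro ⟨A, B, C⟩ ht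
  obtain ⟨h1, h2, h3⟩ := parts G ht
  simp only [nu, nv, Finset.mem_singleton, forall_eq, Finset.mem_insert, forall_eq_or_imp]
  have c1 : ¬ (x ∈ A.getLast? ∧ x ∈ B.head?) := fun h =>
    (h1 x (List.mem_of_mem_getLast? h.1)).1 (List.mem_of_mem_head? h.2)
  have c2 : ¬ (y ∈ B.getLast? ∧ y ∈ C.head?) := fun h =>
    h2 y (List.mem_of_mem_getLast? h.1) (List.mem_of_mem_head? h.2)
  have c3 : ¬ (z ∈ B.getLast? ∧ z ∈ C.head?) := fun h =>
    h2 z (List.mem_of_mem_getLast? h.1) (List.mem_of_mem_head? h.2)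
  have c4 : ¬ (y ∈ B.getLast? ∧ z ∈ B.getLast?) := fun h => hyz (Option.mem_unique h.1 h.2)
  have c5 : ¬ (y ∈ C.head? ∧ z ∈ C.head?) := fun h => hyz (Option.mem_unique h.1 h.2)
  by_cases a1 : x ∈ A.getLast? <;> by_cases a2 : x ∈ B.head? <;>
    by_cases a3 : y ∈ B.getLast? <;> by_cases a4 : z ∈ B.getLast? <;>
    by_cases a5 : y ∈ C.head? <;> by_cases a6 : z ∈ C.head? <;>
    first
    | (exfalso; tauto)
    | (simp only [a1, a2, a3, a4, a5, a6]; simp)

/-- three common neighbours -/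
theorem k23 (G : SimpleGraph V) {m : ℕ} {u v a b c : V} (hab : a ≠ b) (hac : a ≠ c) (hbc : b ≠ c)
    (ua : G.Adj u a) (ub : G.Adj u b) (uc : G.Adj u c) (va : G.Adj v a) (vb : G.Adj v b)
    (vc : G.Adj v c) :
    nn G m u v {a} {b, c} + nn G m u v {b} {a, c} + nn G m u v {c} {a, b} = 0 := by
  rw [nn_12 G hbc, nn_12 G hac, nn_12 G hab, P1_symm G (x := b) (y := a) ub ua vb va,
    P1_symm G (x := c) (y := a) uc ua vc va, P1_symm G (x := c) (y := b) uc ub vc vb,
    P2_symm G (x := b) (z := c) ub uc vb vc, P2_symm G (x := b) (z := a) ub ua vb va,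
    P2_symm G (x := c) (z := b) uc ub vc vb, P2_symm G (x := c) (z := a) uc ua vc va]
  have h2 : (2 : ZMod 2) = 0 := rfl
  linear_combination (P1 G m u v a b c + P1 G m u v a c b + P1 G m u v b c a + P2 G m u v a b c +
    P2 G m u v a c b + P2 G m u v b a c) * h2

theorem nn_22 (G : SimpleGraph V) {m : ℕ} {u v x y z : V} (hxy : x ≠ y) (hyz : y ≠ z) :
    nn G m u v {x, y} {y, z} = P3 G m u v x y z := by
  simp only [nn, P3, Finset.card_filter, Nat.cast_sum]
  refine Finset.sum_congr rfl ?_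
  rintro ⟨A, B, C⟩ ht
  obtain ⟨h1, h2, h3⟩ := parts G ht
  refine ite_mul_ite' ?_
  simp only [nu, nv, Finset.mem_singleton, forall_eq, Finset.mem_insert, forall_eq_or_imp]
  constructor
  · rintro ⟨⟨hx, hy⟩, hy', hz⟩
    have hyA : y ∉ A.getLast? := by
      intro h
      rcases hy' with h' | h'
      · exact (h1 y (List.mem_of_mem_getLast? h)).1 (List.mem_of_mem_getLast? h')
      · exact (h1 y (List.mem_of_mem_getLast? h)).2 (List.mem_of_mem_head? h')
    have hyB := hy.resolve_left hyA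
    have hyB' : y ∈ B.getLast? := by
      refine hy'.resolve_right fun h => ?_
      exact h2 y (List.mem_of_mem_head? hyB) (List.mem_of_mem_head? h)
    refine ⟨hx.resolve_right fun h => hxy (Option.mem_unique h hyB), hyB, hyB',
      hz.resolve_left fun h => hyz (Option.mem_unique hyB' h)⟩
  · rintro ⟨hx, hy, hy', hz⟩
    exact ⟨⟨Or.inl hx, Or.inr hy⟩, Or.inl hy', Or.inr hz⟩

/-- exchanging the two middle vertices of a path on five vertices -/
theorem p5 (G : SimpleGraph V) {m : ℕ} {u v x y z : V} (hxy : x ≠ y) (hyz : y ≠ z)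
    (hux : G.Adj u x) (huz : G.Adj u z) (hvx : G.Adj v x) (hvz : G.Adj v z) :
    nn G m u v {x, y} {y, z} = nn G m u v {z, y} {y, x} := by
  rw [nn_22 G hxy hyz, nn_22 G hyz.symm hxy.symm, P3_symm G hux huz hvx hvz]

end Pool.Agent.Helper52.DT
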