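import Pool.Agent.Helper52.DT.Select

/-! # DT: the region (piece DT-Region) -/

namespace Pool.Agent.Helper52.DT

open Finset Pool.Agent.Helper52.LP
open scoped Classical

variable {V : Type} [Fintype V] [DecidableEq V]

/-- A vertex of `K` has at least `k' - 10` neighbours in `K`. -/
theorem region_inK (G : SimpleGraph V) (o : V) (K X : Finset V) (hX : X.card ≤ 9)
    (hKn : ∀ a ∈ K, ∀ b, G.Adj a b → b ∈ K ∨ b ∈ X ∨ b = o) {k' : ℕ}
    (hd : ∀ v, k' ≤ dg G v) (w : V) (hw : w ∈ K) : k' ≤ (nb G w ∩ K).card + 10 := by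
  have h1 : nb G w ⊆ (nb G w ∩ K) ∪ (X ∪ {o}) := by
    intro b hb
    rcases hKn w hw b (mem_nb.1 hb) with h | h | h
    · exact mem_union_left _ (mem_inter.2 ⟨hb, h⟩)
    · exact mem_union_right _ (mem_union_left _ h)
    · exact mem_union_right _ (mem_union_right _ (by simp [h]))
  have h2 := card_le_card h1
  have h3 := card_union_le (nb G w ∩ K) (X ∪ {o})
  have h4 := card_union_le X {o}
  have h5 := hd w
  rw [← card_nb] at h5
  simp only [card_singleton] at h4
  omega

/-- The neighbours of `w` in `K` are neighbours of `o` or not. -/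
theorem region_split (G : SimpleGraph V) (o : V) (K : Finset V) (w : V) :
    (nb G w ∩ K).card = (nb G w ∩ K ∩ nb G o).card + ((nb G w ∩ K) \ nb G o).card := by
  rw [add_comm, card_sdiff_add_card_inter]

/-- Two bad vertices are impossible. -/
theorem region_bad (G : SimpleGraph V) (o : V) (K X : Finset V) (hKo : o ∉ K) (hX : X.card ≤ 9)
    (hKn : ∀ a ∈ K, ∀ b, G.Adj a b → b ∈ K ∨ b ∈ X ∨ b = o) {k k' : ℕ} (hkk : k + 3 ≤ k')
    (h200 : 200 ≤ k') (hd : ∀ v, k' ≤ dg G v)
    (hco : ∀ y z, y ≠ z → y ≠ o → z ≠ o → (nb G y ∩ nb G z ∩ K).card ≤ 2)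
    (ho : dg G o < k + 12) (y z : V) (hy : y ∈ K) (hz : z ∈ K)
    (hby : ((nb G y ∩ K) \ nb G o).card ≤ 80) (hbz : ((nb G z ∩ K) \ nb G o).card ≤ 80) :
    y = z := by
  by_contra hyz
  have hyo : y ≠ o := fun h => hKo (h ▸ hy)
  have hzo : z ≠ o := fun h => hKo (h ▸ hz)
  have h1 := region_inK G o K X hX hKn hd y hy
  have h2 := region_inK G o K X hX hKn hd z hz
  have h3 := region_split G o K y
  have h4 := region_split G o K z
  have h5 := card_union_add_card_inter (nb G y ∩ K ∩ nb G o) (nb G z ∩ K ∩ nb G o)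
  have h6 : ((nb G y ∩ K ∩ nb G o) ∪ (nb G z ∩ K ∩ nb G o)).card ≤ (nb G o).card := by
    refine card_le_card (union_subset ?_ ?_)
    · exact inter_subset_right
    · exact inter_subset_right
  have h7 : ((nb G y ∩ K ∩ nb G o) ∩ (nb G z ∩ K ∩ nb G o)).card ≤ 2 := by
    refine (card_le_card ?_).trans (hco y z hyz hyo hzo)
    intro b hb
    simp only [mem_inter] at hb ⊢
    exact ⟨⟨hb.1.1.1, hb.2.1.1⟩, hb.1.1.2⟩
  rw [card_nb] at h6
  omega

/-- If `k + 12 ≤ dg G o` use `select` with `S = K` (a vertex of `K` has at least `k' - 10` neighbours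
in `K`).  Otherwise call `w ∈ K` bad if it has at most `80` neighbours in `K` which are not adjacent
to `o`; two bad vertices would have at least `2 (k' - 90) - 2 > k' + 8 ≥ k + 11 ≥ dg G o` neighbours
adjacent to `o` together, so at most one vertex is bad; let `S` be the set of the vertices of `K`
which are not adjacent to `o` and not bad. -/
theorem region (G : SimpleGraph V) (o : V) (K X : Finset V) (hK : K.Nonempty) (hKo : o ∉ K)
    (hXo : o ∉ X) (hKX : Disjoint K X) (hX : X.card ≤ 9)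
    (hKn : ∀ a ∈ K, ∀ b, G.Adj a b → b ∈ K ∨ b ∈ X ∨ b = o) {k k' : ℕ} (hkk : k + 3 ≤ k')
    (h200 : 200 ≤ k') (hd : ∀ v, k' ≤ dg G v)
    (hco : ∀ y z, y ≠ z → y ≠ o → z ≠ o → (nb G y ∩ nb G z ∩ K).card ≤ 2) :
    ∃ c : Fin 3 → Fin 3 → V, Cores G c ∧ (∀ i a, c i a ∈ K) ∧
      (∀ x ∈ X, ∀ i a, ¬ G.Adj (c i a) x) ∧ (∀ y ∈ K, y ∉ cs c → (nb G y ∩ cs c).card ≤ 3) ∧
      ((∀ i a, ¬ G.Adj (c i a) o) ∨ k + 12 ≤ dg G o) := by
  by_cases ho : k + 12 ≤ dg G o
  · obtain ⟨c, h1, h2, h3, h4⟩ := select G o K X K hKo hXo hKX hX (Subset.refl K) hK hco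
      (fun w hw => by have := region_inK G o K X hX hKn hd w hw; omega)
    exact ⟨c, h1, h2, h3, h4, Or.inr ho⟩
  · rw [not_le] at ho
    -- the bad vertices
    let B : V → Prop := fun w => ((nb G w ∩ K) \ nb G o).card ≤ 80
    let S : Finset V := K.filter fun w => w ∉ nb G o ∧ ¬ B w
    have hSK : S ⊆ K := filter_subset _ _
    -- many neighbours in `S`
    have key : ∀ w ∈ K, ¬ B w → 80 ≤ (nb G w ∩ S).card := by
      intro w hw hB
      have hB1 : 81 ≤ ((nb G w ∩ K) \ nb G o).card := by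
        have : ¬ ((nb G w ∩ K) \ nb G o).card ≤ 80 := hB
        omega
      by_cases hex : ∃ z ∈ K, B z
      · obtain ⟨z, hz, hBz⟩ := hex
        have hsub : (((nb G w ∩ K) \ nb G o).erase z) ⊆ nb G w ∩ S := by
          intro b hb
          rw [mem_erase, mem_sdiff, mem_inter] at hb
          refine mem_inter.2 ⟨hb.2.1.1, mem_filter.2 ⟨hb.2.1.2, hb.2.2, fun hBb => hb.1 ?_⟩⟩
          exact region_bad G o K X hKo hX hKn hkk h200 hd hco ho b z hb.2.1.2 hz hBb hBz
        have h1 := card_le_card hsub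
        have h2 := pred_card_le_card_erase (s := (nb G w ∩ K) \ nb G o) (a := z)
        omega
      · have hsub : ((nb G w ∩ K) \ nb G o) ⊆ nb G w ∩ S := by
          intro b hb
          rw [mem_sdiff, mem_inter] at hb
          exact mem_inter.2 ⟨hb.1.1, mem_filter.2 ⟨hb.1.2, hb.2, fun hBb => hex ⟨b, hb.1.2, hBb⟩⟩⟩
        have h1 := card_le_card hsub
        omega
    -- a vertex which is not bad
    obtain ⟨w, hw, hBw⟩ : ∃ w ∈ K, ¬ B w := by
      obtain ⟨w0, hw0⟩ := hK
      by_cases hB0 : B w0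
      · have h1 := region_inK G o K X hX hKn hd w0 hw0
        have h2 : (nb G w0 ∩ K).Nonempty := by
          rw [← card_pos]
          omega
        obtain ⟨w1, hw1⟩ := h2
        rw [mem_inter, mem_nb] at hw1
        refine ⟨w1, hw1.2, fun hB1 => hw1.1.ne ?_⟩
        exact region_bad G o K X hKo hX hKn hkk h200 hd hco ho w0 w1 hw0 hw1.2 hB0 hB1
      · exact ⟨w0, hw0, hB0⟩
    have hSn : S.Nonempty := by
      have h1 := key w hw hBw
      have h2 : (nb G w ∩ S).Nonempty := by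
        rw [← card_pos]
        omega
      obtain ⟨b, hb⟩ := h2
      exact ⟨b, (mem_inter.1 hb).2⟩
    obtain ⟨c, h1, h2, h3, h4⟩ := select G o K X S hKo hXo hKX hX hSK hSn hco
      (fun v hv => key v (hSK hv) (mem_filter.1 hv).2.2)
    refine ⟨c, h1, fun i a => hSK (h2 i a), h3, h4, Or.inl fun i a h => ?_⟩
    exact (mem_filter.1 (h2 i a)).2.1 (mem_nb.2 h.symm)

end Pool.Agent.Helper52.DT
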