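import Pool.Agent.Helper52.DT.BasicB
import Pool.Agent.Helper52.DT.Off

/-! # DT: the end of a detour (piece DT-Strict) -/

namespace Pool.Agent.Helper52.DT

open Finset Pool.Agent.Helper52.LP
open scoped Classical

variable {V : Type} [Fintype V] [DecidableEq V]

omit [Fintype V] [DecidableEq V] in
/-- all neighbours of the first vertex of a longest path are on the path -/
theorem nb_mem {G : SimpleGraph V} {m : ℕ} {o : V} {t : List V} (hl : o :: t ∈ ML G m)
    (hmax : ML G (m + 1) = ∅) {y : V} (hy : G.Adj o y) : y ∈ t := by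
  by_contra hyt
  have h : y :: o :: t ∈ ML G (m + 1) := by
    refine ⟨?_, ?_, ?_⟩
    · refine List.nodup_cons.2 ⟨?_, hl.1⟩
      intro h
      rcases List.mem_cons.1 h with h | h
      · exact hy.ne h.symm
      · exact hyt h
    · exact List.isChain_cons_cons.2 ⟨hy.symm, hl.2.1⟩
    · rw [List.length_cons, hl.2.2]
  rw [hmax] at h
  exact h

omit [Fintype V] [DecidableEq V] in
private theorem chain_reach {G : SimpleGraph V} : ∀ {l : List V} {a : V}, (a :: l).IsChain G.Adj →
    ∀ x ∈ a :: l, G.Reachable a x := by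
  intro l
  induction l with
  | nil =>
    intro a _ x hx
    rw [List.mem_singleton] at hx
    rw [hx]
  | cons b l ih =>
    intro a h x hx
    rw [List.isChain_cons_cons] at h
    rcases List.mem_cons.1 hx with hx | hx
    · rw [hx]
    · exact h.1.reachable.trans (ih h.2 x hx)

omit [Fintype V] [DecidableEq V] in
private theorem chain_reach2 {G : SimpleGraph V} {l : List V} (h : l.IsChain G.Adj) {x y : V} (hx : x ∈ l)
    (hy : y ∈ l) : G.Reachable x y := by
  rcases l with _ | ⟨a, l⟩
  · exact absurd hx (by simp)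
  · exact (chain_reach h x hx).symm.trans (chain_reach h y hy)

omit [Fintype V] in
/-- the first vertex of a longest path is not a cut vertex -/
theorem off_end {G : SimpleGraph V} (hG : G.Connected) {m : ℕ} {o : V} {t : List V}
    (hl : o :: t ∈ ML G m) (hmax : ML G (m + 1) = ∅) : OffConn G {o} := by
  have hot : o ∉ t := (List.nodup_cons.1 hl.1).1
  have hch : t.IsChain (off G {o}).Adj := by
    have h1 : t.IsChain G.Adj := List.IsChain.tail hl.2.1
    rw [List.isChain_iff_getElem] at h1 ⊢
    intro i hi
    refine ⟨h1 i hi, ?_, ?_⟩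
    · intro h
      rw [Finset.mem_singleton] at h
      exact hot (h ▸ List.getElem_mem _)
    · intro h
      rw [Finset.mem_singleton] at h
      exact hot (h ▸ List.getElem_mem _)
  intro a b ha hb
  have key : ∀ c, Relation.ReflTransGen G.Adj a c → (c ∉ ({o} : Finset V) → (off G {o}).Reachable a c) ∧
      (c = o → ∃ y ∈ t, (off G {o}).Reachable a y) := by
    intro c hc
    induction hc with
    | refl => exact ⟨fun _ => SimpleGraph.Reachable.refl a, fun h => absurd (Finset.mem_singleton.2 h) ha⟩
    | @tail c d _ hcd ih =>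
      by_cases hc : c = o
      · obtain ⟨y, hy, hr⟩ := ih.2 hc
        have hd : d ∈ t := nb_mem hl hmax (hc ▸ hcd)
        refine ⟨fun _ => hr.trans (chain_reach2 hch hy hd), fun h => ?_⟩
        exact absurd (h.trans hc.symm) hcd.ne'
      · have hc' : c ∉ ({o} : Finset V) := fun h => hc (Finset.mem_singleton.1 h)
        refine ⟨fun hd => (ih.1 hc').trans (SimpleGraph.Adj.reachable ⟨hcd, hc', hd⟩), fun hd => ?_⟩
        exact ⟨c, nb_mem hl hmax (hd ▸ hcd.symm), ih.1 hc'⟩
  exact (key b ((SimpleGraph.reachable_iff_reflTransGen a b).1 (hG.preconnected a b))).1 hb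

omit [Fintype V] [DecidableEq V] in
/-- each edge at the first vertex of a longest path is on a longest path:
`o :: t = o :: (A ++ y :: B)`; take `A.reverse ++ o :: y :: B` -/
theorem useful {G : SimpleGraph V} {m : ℕ} {o : V} {t : List V} (hl : o :: t ∈ ML G m)
    (hmax : ML G (m + 1) = ∅) {y : V} (hy : G.Adj o y) : ∃ l ∈ ML G m, Con o y l := by
  obtain ⟨A, B, rfl⟩ := List.append_of_mem (nb_mem hl hmax hy)
  obtain ⟨hn, hch, hlen⟩ := hl
  refine ⟨A.reverse ++ o :: y :: B, ⟨?_, ?_, ?_⟩, Or.inl ⟨A.reverse, B, by simp⟩⟩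
  · refine (List.Perm.nodup_iff ?_).1 hn
    refine List.Perm.trans (List.Perm.trans ?_ (List.perm_middle (l₁ := A) (a := o)).symm)
      (List.Perm.append_right _ (List.reverse_perm A).symm)
    exact List.Perm.refl _
  · have h1 : (A ++ y :: B).IsChain G.Adj := List.IsChain.tail hch
    refine List.IsChain.append (chain_reverse h1.left_of_append) ?_ ?_
    · exact List.isChain_cons_cons.2 ⟨hy, h1.right_of_append⟩
    · intro x hx z hz
      rw [List.getLast?_reverse] at hx
      have hz' : z = o := by
        have := Option.mem_def.1 hz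
        simp at this
        exact this.symm
      rw [hz']
      rcases A with _ | ⟨a, A⟩
      · simp at hx
      · have hx' : x = a := by
          have := Option.mem_def.1 hx
          simp at this
          exact this.symm
        rw [hx']
        rw [List.cons_append, List.isChain_cons_cons] at hch
        exact hch.1.symm
  · rw [← hlen]
    simp
    omega

/-- the number of longest paths decreases -/
theorem strict {G : SimpleGraph V} {m : ℕ} (hm : 2 ≤ m) {o : V} {t : List V}
    (hl : o :: t ∈ ML G m) (hmax : ML G (m + 1) = ∅) {B : Finset V} (hB : B.Nonempty)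
    (hBn : B ⊆ nb G o) : (RL (Dv G o B) m).card < (RL G m).card := by
  refine Finset.card_lt_card ((Finset.ssubset_iff_of_subset ?_).2 ?_)
  · intro l h
    rw [mem_RL, mem_ML_Dv] at h
    rw [mem_RL]
    exact ⟨h.1.1, h.2⟩
  · obtain ⟨y, hy⟩ := hB
    obtain ⟨l, hl1, hc⟩ := useful hl hmax (mem_nb.1 (hBn hy))
    by_cases hu : Up l
    · refine ⟨l, (mem_RL _ _ _).2 ⟨hl1, hu⟩, fun h => ?_⟩
      rw [mem_RL, mem_ML_Dv] at h
      exact h.1.2 y hy hc
    · refine ⟨l.reverse, (mem_RL _ _ _).2 ⟨ML_reverse hl1, (basicA_up hm hl1).2 hu⟩, fun h => ?_⟩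
      rw [mem_RL, mem_ML_Dv] at h
      exact h.1.2 y hy hc.reverse

end Pool.Agent.Helper52.DT
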