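import Pool.Agent.Helper52.DT.KDown
import Pool.Agent.Helper52.DT.GDown
import Pool.Agent.Helper52.DT.Atom
import Pool.Agent.Helper52.DT.Region
import Pool.Agent.Helper52.DT.Strict

/-! # DT: the main theorem for graphs (typed by helper52) -/

namespace Pool.Agent.Helper52.DT

open Finset Function Pool.Agent.Helper52.LP
open scoped Classical

variable {V : Type} [Fintype V] [DecidableEq V]

omit [Fintype V] [DecidableEq V] in
theorem ML_mono {G G' : SimpleGraph V} (h : G' ≤ G) (m : ℕ) : ML G' m ⊆ ML G m := by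
  rintro l ⟨h1, h2, h3⟩
  exact ⟨h1, h2.imp fun a b hab => h hab, h3⟩

omit [DecidableEq V] in
theorem RL_mono {G G' : SimpleGraph V} (h : G' ≤ G) (m : ℕ) : (RL G' m).card ≤ (RL G m).card := by
  refine Finset.card_le_card fun l hl => ?_
  rw [mem_RL] at hl ⊢
  exact ⟨ML_mono h m hl.1, hl.2⟩

omit [Fintype V] [DecidableEq V] in
theorem Dv_le (G : SimpleGraph V) (v : V) (F : Finset V) : Dv G v F ≤ G := fun _ _ h => h.1

omit [Fintype V] [DecidableEq V] in
theorem Dv_adj {G : SimpleGraph V} {o a b : V} (F : Finset V) (ha : a ≠ o) (hb : b ≠ o)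
    (h : G.Adj a b) : (Dv G o F).Adj a b := ⟨h, fun h' => ha h'.1, fun h' => hb h'.1⟩

/-- the first step -/
theorem first_step (G : SimpleGraph V) {m : ℕ} {o : V} (Z : Finset V)
    (hZ : 3 + Z.card ≤ dg G o) (hf : f G m ≠ 0) : ∃ B : Finset V, B ⊆ nb G o ∧ Disjoint B Z ∧
      B.Nonempty ∧ B.card ≤ 3 ∧ f (Dv G o B) m ≠ 0 := by
  have h1 : 3 ≤ (nb G o \ Z).card := by
    have h2 := Finset.le_card_sdiff Z (nb G o)
    rw [card_nb] at h2
    omega
  obtain ⟨Y, hY, hYc⟩ := Finset.exists_subset_card_eq h1
  obtain ⟨B, hBY, hB, hfB⟩ := star G o Y (by omega) hf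
  refine ⟨B, fun x hx => (Finset.mem_sdiff.1 (hY (hBY hx))).1, ?_, hB, ?_, hfB⟩
  · rw [Finset.disjoint_left]
    intro x hx
    exact (Finset.mem_sdiff.1 (hY (hBY hx))).2
  · rw [← hYc]; exact Finset.card_le_card hBY

theorem off_step {G : SimpleGraph V} {o : V} {B C : Finset V} (hB3 : B.card ≤ 3)
    (hC : OffConn G (insert o C)) (ho : o ∉ C) (hdeg : 3 + C.card < dg G o) :
    OffConn (Dv G o B) C := by
  have h1 : ∃ x, x ∉ C ∧ (Dv G o B).Adj o x := by
    by_contra hc
    push Not at hc
    have h2 : nb (Dv G o B) o ⊆ C := by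
      intro x hx
      by_contra hxC
      exact hc x hxC (mem_nb.1 hx)
    have h3 := Finset.card_le_card h2
    rw [card_nb] at h3
    have h4 := dg_Dv_self G o B
    omega
  obtain ⟨x, hx, hox⟩ := h1
  refine OffConn.erase (o := o) ?_ ho hx hox
  refine hC.mono ?_
  intro a b ha hb hab
  refine Dv_adj B ?_ ?_ hab
  · rintro rfl; exact ha (Finset.mem_insert_self _ _)
  · rintro rfl; exact hb (Finset.mem_insert_self _ _)

/-- `m` is the order of a longest path -/
theorem main_down (G : SimpleGraph V) (hG : G.Connected) {m k k' : ℕ} (hm : 2 ≤ m) (hk : 2 ≤ k)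
    (hkk : k + 3 ≤ k') (h200 : 200 ≤ k') (hd : ∀ v, k' ≤ dg G v) (hne : (ML G m).Nonempty)
    (hmax : ML G (m + 1) = ∅) (hf : f G m ≠ 0) :
    ∃ G' ≤ G, Ex k G' ∧ f G' m ≠ 0 ∧ (RL G' m).card < (RL G m).card := by
  obtain ⟨l, hl⟩ := hne
  obtain ⟨o, t, rfl⟩ : ∃ o t, l = o :: t := by
    rcases l with _ | ⟨o, t⟩
    · have := hl.2.2
      simp only [List.length_nil] at this
      omega
    · exact ⟨o, t, rfl⟩
  have hoff := off_end hG hl hmax
  have hdo := hd o
  have hV : ∃ v, v ≠ o := by
    have h1 : 0 < (nb G o).card := by rw [card_nb]; omega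
    obtain ⟨v, hv⟩ := Finset.card_pos.1 h1
    exact ⟨v, (mem_nb.1 hv).ne'⟩
  obtain ⟨K, X, hKne, hKo, hXo, hKX, hX, hKn, hY⟩ := atom G o 9 hoff hV
  -- it suffices to treat the graph after one step
  have key : ∀ B : Finset V, B ⊆ nb G o → B.Nonempty → (∃ G' ≤ Dv G o B, Ex k G' ∧ f G' m ≠ 0) →
      ∃ G' ≤ G, Ex k G' ∧ f G' m ≠ 0 ∧ (RL G' m).card < (RL G m).card := by
    rintro B hB hBne ⟨G', hle, hEx, hf'⟩
    refine ⟨G', hle.trans (Dv_le _ _ _), hEx, hf', ?_⟩
    exact lt_of_le_of_lt (RL_mono hle m) (strict hm hl hmax hBne hB)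
  by_cases hco : ∀ y z, y ≠ z → y ≠ o → z ≠ o → (nb G y ∩ nb G z ∩ K).card ≤ 2
  · -- three gadgets
    obtain ⟨c, hc, hcK, hcX, hc3, hco'⟩ := region G o K X hKne hKo hXo hKX hX hKn hkk h200 hd hco
    have hcsK : cs c ⊆ K := by
      intro x hx
      obtain ⟨i, a, rfl⟩ := mem_cs.1 hx
      exact hcK i a
    have hcs9 : (cs c).card ≤ 9 := by
      unfold cs
      refine Finset.card_image_le.trans ?_
      simp
    have hocs : o ∉ cs c := fun h => hKo (hcsK h)
    -- the number of neighbours among the cores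
    have hj : ∀ y, y ≠ o → y ∉ cs c → (nb G y ∩ cs c).card ≤ 3 := by
      intro y hyo hy
      by_cases hyK : y ∈ K
      · exact hc3 y hyK hy
      · have : nb G y ∩ cs c = ∅ := by
          rw [Finset.eq_empty_iff_forall_notMem]
          intro x hx
          rw [Finset.mem_inter, mem_nb, mem_cs] at hx
          obtain ⟨hx1, i, a, rfl⟩ := hx
          rcases hKn _ (hcK i a) y hx1.symm with h | h | h
          · exact hyK h
          · exact hcX y h i a hx1.symm
          · exact hyo h
        rw [this]; simp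
    set Z : Finset V := cs c ∪ K.filter fun y => 3 ≤ (nb G y ∩ cs c).card with hZ
    have hZc : Z.card ≤ 33 := by
      have h1 := full_card G K (cs c) (fun a ha b hb hab => hco a b hab
        (fun h => hKo (h ▸ hcsK ha)) (fun h => hKo (h ▸ hcsK hb)))
      have h2 : (cs c).card * ((cs c).card - 1) ≤ 9 * 8 :=
        Nat.mul_le_mul hcs9 (by omega)
      have h3 := Finset.card_union_le (cs c) (K.filter fun y => 3 ≤ (nb G y ∩ cs c).card)
      rw [← hZ] at h3
      omega
    obtain ⟨B, hBn, hBZ, hBne, hB3, hfB⟩ := first_step (o := o) G Z (by omega) hf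
    refine key B hBn hBne ?_
    have hBo : ∀ x ∈ B, G.Adj o x := fun x hx => mem_nb.1 (hBn hx)
    -- in `B` there are at most two neighbours among the cores
    have hj2 : ∀ y ∈ B, (nb G y ∩ cs c).card ≤ 2 := by
      intro y hy
      have hyo : y ≠ o := (hBo y hy).ne'
      have hyZ : y ∉ Z := Finset.disjoint_left.1 hBZ hy
      rw [hZ, Finset.mem_union, not_or] at hyZ
      by_cases hyK : y ∈ K
      · by_contra hc'
        exact hyZ.2 (Finset.mem_filter.2 ⟨hyK, by omega⟩)
      · have : nb G y ∩ cs c = ∅ := by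
          rw [Finset.eq_empty_iff_forall_notMem]
          intro x hx
          rw [Finset.mem_inter, mem_nb, mem_cs] at hx
          obtain ⟨hx1, i, a, rfl⟩ := hx
          rcases hKn _ (hcK i a) y hx1.symm with h | h | h
          · exact hyK h
          · exact hcX y h i a hx1.symm
          · exact hyo h
        rw [this]; simp
    have hoff1 : OffConn (Dv G o B) (cs c) :=
      off_step hB3 (hY (cs c) hcsK hcs9) hocs (by omega)
    refine gad_down (Dv G o B) hm hk c ⟨hc.inj, ?_, ?_, ?_⟩ ?_ ?_ hoff1 hfB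
    · intro i
      exact Dv_adj B (fun h => hKo (h ▸ hcK i 0)) (fun h => hKo (h ▸ hcK i 1)) (hc.adj01 i)
    · intro i
      exact Dv_adj B (fun h => hKo (h ▸ hcK i 1)) (fun h => hKo (h ▸ hcK i 2)) (hc.adj12 i)
    · intro i j a b h
      exact hc.nadj i j a b h.1
    · intro i a
      have h1 := dg_Dv_ne G o B (c i a) (fun h => hKo (h ▸ hcK i a))
      have h2 := hd (c i a)
      omega
    · intro y hy
      have hsub : ∀ H : SimpleGraph V, H ≤ G →
          dg H y ≤ (nb H y \ cs c).card + (nb G y ∩ cs c).card := by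
        intro H hH
        rw [← card_nb, ← Finset.card_sdiff_add_card_inter (nb H y) (cs c)]
        refine Nat.add_le_add_left (Finset.card_le_card ?_) _
        refine Finset.inter_subset_inter_right ?_
        intro x hx
        exact mem_nb.2 (hH (mem_nb.1 hx))
      have h1 := hsub (Dv G o B) (Dv_le _ _ _)
      by_cases hyo : y = o
      · subst hyo
        have h2 := dg_Dv_self G y B
        rcases hco' with h3 | h3
        · have h4 : nb G y ∩ cs c = ∅ := by
            rw [Finset.eq_empty_iff_forall_notMem]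
            intro x hx
            rw [Finset.mem_inter, mem_nb, mem_cs] at hx
            obtain ⟨hx1, i, a, rfl⟩ := hx
            exact h3 i a hx1.symm
          rw [h4, Finset.card_empty] at h1
          omega
        · have h4 : (nb G y ∩ cs c).card ≤ 9 :=
            (Finset.card_le_card Finset.inter_subset_right).trans hcs9
          omega
      · have h2 := hd y
        by_cases hyB : y ∈ B
        · have h3 := hj2 y hyB
          have h4 := dg_Dv_ne G o B y hyo
          omega
        · have h3 := hj y hyo hy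
          have h4 := dg_Dv_other G o B y hyo (fun h => absurd h hyB)
          rw [if_neg hyB] at h4
          omega
  · -- three common neighbours
    push Not at hco
    obtain ⟨u, v, huv, huo, hvo, h3⟩ := hco
    obtain ⟨S, hS, hS3⟩ := Finset.exists_subset_card_eq (show 3 ≤ (nb G u ∩ nb G v ∩ K).card from h3)
    obtain ⟨c, hc, hcS⟩ : ∃ c : Fin 3 → V, Injective c ∧ ∀ i, c i ∈ S := by
      have e : S ≃ Fin 3 := Fintype.equivFinOfCardEq (by rw [Fintype.card_coe, hS3])
      refine ⟨fun i => (e.symm i : V), ?_, fun i => (e.symm i).2⟩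
      intro i j hij
      exact e.symm.injective (Subtype.ext hij)
    have hcm : ∀ i, G.Adj u (c i) ∧ G.Adj v (c i) ∧ c i ∈ K := by
      intro i
      have := hS (hcS i)
      rw [Finset.mem_inter, Finset.mem_inter, mem_nb, mem_nb] at this
      exact ⟨this.1.1, this.1.2, this.2⟩
    have hco : ∀ i, c i ≠ o := fun i h => hKo (h ▸ (hcm i).2.2)
    set Z : Finset V := {u, v} with hZ
    have hZc : Z.card ≤ 2 := Finset.card_le_two
    obtain ⟨B, hBn, hBZ, hBne, hB3, hfB⟩ := first_step (o := o) G Z (by omega) hf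
    refine key B hBn hBne ?_
    have hoC : o ∉ univ.image c := by
      intro h
      obtain ⟨i, _, hi⟩ := Finset.mem_image.1 h
      exact hco i hi
    have hcc : (univ.image c).card ≤ 3 := by
      refine Finset.card_image_le.trans ?_
      simp
    have huB : u ∉ B := fun h => Finset.disjoint_left.1 hBZ h (by simp [hZ])
    have hvB : v ∉ B := fun h => Finset.disjoint_left.1 hBZ h (by simp [hZ])
    refine k23_down (Dv G o B) hm hk huv hc (fun i => Dv_adj B huo (hco i) (hcm i).1)
      (fun i => Dv_adj B hvo (hco i) (hcm i).2.1) ?_ ?_ ?_ ?_ hfB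
    · intro w
      have h1 := hd w
      by_cases hw : w = o
      · subst hw
        have h2 := dg_Dv_self G w B
        omega
      · have h2 := dg_Dv_ne G o B w hw
        omega
    · have h1 := hd u
      have h2 := dg_Dv_other G o B u huo (fun h => absurd h huB)
      rw [if_neg huB] at h2
      omega
    · have h1 := hd v
      have h2 := dg_Dv_other G o B v hvo (fun h => absurd h hvB)
      rw [if_neg hvB] at h2
      omega
    · refine off_step hB3 (hY (univ.image c) ?_ (by omega)) hoC (by omega)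
      intro x hx
      obtain ⟨i, _, rfl⟩ := Finset.mem_image.1 hx
      exact (hcm i).2.2

end Pool.Agent.Helper52.DT
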