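import Pool.Agent.Helper52.DT.Cores
import Pool.Agent.Helper52.DT.BasicB
import Pool.Agent.Helper52.LP.U

/-! # DT: star steps at the cores (piece DT-Reduce) -/

namespace Pool.Agent.Helper52.DT

open Finset Pool.Agent.Helper52.LP
open scoped Classical

variable {V : Type} [Fintype V] [DecidableEq V]

/-- a core of large degree has three neighbours outside `cs c` -/
private theorem exists_three {G : SimpleGraph V} (H : SimpleGraph V) {k : ℕ} (hk : 2 ≤ k)
    (c : Fin 3 → Fin 3 → V) (hHG : H ≤ G) (hc : Cores G c) (i a : Fin 3)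
    (hd : k + 3 ≤ dg H (c i a)) :
    ∃ Y : Finset V, (∀ u ∈ Y, H.Adj (c i a) u) ∧ (∀ u ∈ Y, u ∉ cs c) ∧ Y.card = 3 := by
  classical
  set N : Finset V := univ.filter fun w => H.Adj (c i a) w with hN
  have h1 : (N ∩ cs c) ⊆ (univ.erase a).image (c i) := by
    intro w hw
    rw [Finset.mem_inter, hN, Finset.mem_filter] at hw
    obtain ⟨⟨-, hw1⟩, hw2⟩ := hw
    obtain ⟨j, b, rfl⟩ := mem_cs.1 hw2
    obtain ⟨rfl, -⟩ := hc.nadj i j a b (hHG hw1)
    refine Finset.mem_image.2 ⟨b, Finset.mem_erase.2 ⟨?_, Finset.mem_univ _⟩, rfl⟩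
    rintro rfl
    exact hw1.ne rfl
  have h2 : (N ∩ cs c).card ≤ 2 := by
    refine le_trans (Finset.card_le_card h1) (le_trans Finset.card_image_le ?_)
    rw [Finset.card_erase_of_mem (Finset.mem_univ _)]
    simp
  have h3 : N.card = (N \ cs c).card + (N ∩ cs c).card :=
    (Finset.card_sdiff_add_card_inter N (cs c)).symm
  have h4 : N.card = dg H (c i a) := by
    rw [hN]
    unfold dg
    congr 1
  have h5 : 3 ≤ (N \ cs c).card := by omega
  obtain ⟨Y, hY, hY3⟩ := Finset.exists_subset_card_eq h5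
  refine ⟨Y, fun u hu => ?_, fun u hu => (Finset.mem_sdiff.1 (hY hu)).2, hY3⟩
  have := (Finset.mem_sdiff.1 (hY hu)).1
  rw [hN, Finset.mem_filter] at this
  exact this.2

/-- First phase: star steps (`star`) at the cores, always with three neighbours outside `cs c` (a core
of degree at least `k + 3` has at most two neighbours in `cs c`), until all degrees of the cores are at
most `k + 2`: take a subgraph with the fewest edges among those which agree with `G` on the pairs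
of vertices outside `cs c` and on the pairs of vertices in `cs c`, with all degrees of the cores at
least `k` and `f H m ≠ 0`.  (`LP.dg_Dv_self`, `LP.dg_Dv_self_eq`, `LP.dg_Dv_other`, `LP.Dv_lt`,
files `LP/M.lean`, `LP/U.lean`.) -/
theorem reduce_cores (G : SimpleGraph V) {m k : ℕ} (hk : 2 ≤ k)
    (c : Fin 3 → Fin 3 → V) (hc : Cores G c) (hcd : ∀ i a, k + 1 ≤ dg G (c i a))
    (hf : f G m ≠ 0) :
    ∃ H ≤ G, f H m ≠ 0 ∧ (∀ i a, k ≤ dg H (c i a) ∧ dg H (c i a) ≤ k + 2) ∧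
      (∀ x y, x ∉ cs c → y ∉ cs c → G.Adj x y → H.Adj x y) ∧
      ∀ x y, x ∈ cs c → y ∈ cs c → G.Adj x y → H.Adj x y := by
  classical
  have hwf : WellFounded ((· < ·) : SimpleGraph V → SimpleGraph V → Prop) :=
    Finite.wellFounded_of_trans_of_irrefl _
  obtain ⟨H, ⟨hHG, hHf, hHd, hHo, hHi⟩, hmin⟩ := hwf.has_min
    {H : SimpleGraph V | H ≤ G ∧ f H m ≠ 0 ∧ (∀ i a, k ≤ dg H (c i a)) ∧
      (∀ x y, x ∉ cs c → y ∉ cs c → G.Adj x y → H.Adj x y) ∧
      ∀ x y, x ∈ cs c → y ∈ cs c → G.Adj x y → H.Adj x y}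
    ⟨G, le_refl G, hf, fun i a => le_trans (Nat.le_succ k) (hcd i a), fun _ _ _ _ h => h,
      fun _ _ _ _ h => h⟩
  refine ⟨H, hHG, hHf, fun i a => ⟨hHd i a, ?_⟩, hHo, hHi⟩
  by_contra hlt
  have hlt' : k + 3 ≤ dg H (c i a) := by omega
  obtain ⟨Y, hYN, hYc, hY3⟩ := exists_three H hk c hHG hc i a hlt'
  obtain ⟨B, hBY, hBn, hBf⟩ := star H (c i a) Y (le_of_eq hY3.symm) hHf
  have hBc : ∀ x ∈ B, x ∉ cs c := fun x hx => hYc x (hBY hx)
  have hB3 : B.card ≤ 3 := le_trans (Finset.card_le_card hBY) (le_of_eq hY3)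
  have hv : c i a ∈ cs c := mem_cs.2 ⟨i, a, rfl⟩
  refine hmin (Dv H (c i a) B) ⟨?_, hBf, ?_, ?_, ?_⟩
    (Dv_lt H (c i a) B hBn fun u hu => hYN u (hBY hu))
  · exact le_trans (fun x y h => h.1) hHG
  · intro j b
    by_cases hjb : c j b = c i a
    · rw [hjb]
      have := dg_Dv_self H (c i a) B
      omega
    · have hnB : c j b ∉ B := fun h => hBc _ h (mem_cs.2 ⟨j, b, rfl⟩)
      have := dg_Dv_other H (c i a) B (c j b) hjb (fun h => absurd h hnB)
      rw [if_neg hnB, add_zero] at this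
      rw [← this]
      exact hHd j b
  · intro x y hx hy hxy
    refine ⟨hHo x y hx hy hxy, fun h => hx (h.1 ▸ hv), fun h => hy (h.1 ▸ hv)⟩
  · intro x y hx hy hxy
    exact ⟨hHi x y hx hy hxy, fun h => hBc y h.2 hy, fun h => hBc x h.2 hx⟩

end Pool.Agent.Helper52.DT
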