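import Pool.Agent.Helper52.DT.Count

/-! # DT: the choice of the nine cores (piece DT-Select) -/

namespace Pool.Agent.Helper52.DT

open Finset Pool.Agent.Helper52.LP
open scoped Classical

variable {V : Type} [Fintype V] [DecidableEq V]

/-- the invariant of the greedy choice -/
def Inv (G : SimpleGraph V) (K X S C : Finset V) : Prop :=
  C ⊆ S ∧ (∀ x ∈ X, ∀ v ∈ C, ¬ G.Adj v x) ∧ ∀ y ∈ K, y ∉ C → (nb G y ∩ C).card ≤ 3

/-- one step of the greedy choice -/
theorem select_step (G : SimpleGraph V) (o : V) (K X S : Finset V) (hKo : o ∉ K) (hXo : o ∉ X)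
    (hKX : Disjoint K X) (hX : X.card ≤ 9) (hSK : S ⊆ K)
    (hco : ∀ y z, y ≠ z → y ≠ o → z ≠ o → (nb G y ∩ nb G z ∩ K).card ≤ 2)
    (hdeg : ∀ w ∈ S, 80 ≤ (nb G w ∩ S).card) (C : Finset V) (hC : Inv G K X S C)
    (h8 : C.card ≤ 8) (z : V) (hz : z ∈ S) (hz2 : z ∈ C ∨ (nb G z ∩ C).card ≤ 2) :
    ∃ x, G.Adj z x ∧ x ∉ C ∧ (∀ y ∈ C, y ≠ z → ¬ G.Adj y x) ∧ Inv G K X S (insert x C) := by
  obtain ⟨hCS, hCX, hC3⟩ := hC
  have hne : ∀ y ∈ K, y ≠ o := fun y hy h => hKo (h ▸ hy)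
  have hzK : z ∈ K := hSK hz
  set A : Finset V := K.filter fun y => 3 ≤ (nb G y ∩ C).card with hA
  have hAc : 3 * A.card ≤ C.card * (C.card - 1) :=
    full_card G K C fun a ha b hb hab =>
      hco a b hab (hne a (hSK (hCS ha))) (hne b (hSK (hCS hb)))
  have hA18 : A.card ≤ 18 := by
    have h1 : C.card * (C.card - 1) ≤ 8 * 7 := Nat.mul_le_mul h8 (by omega)
    omega
  set Q : Finset V := X ∪ (C.erase z ∪ A.filter fun y => y ∉ C) with hQ
  have hQc : Q.card ≤ 35 := by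
    have h1 := Finset.card_union_le X (C.erase z ∪ A.filter fun y => y ∉ C)
    have h2 := Finset.card_union_le (C.erase z) (A.filter fun y => y ∉ C)
    have h3 := Finset.card_filter_le A fun y => y ∉ C
    have h4 := Finset.card_erase_le (s := C) (a := z)
    rw [hQ]
    omega
  have hQo : o ∉ Q := by
    rw [hQ, Finset.mem_union, Finset.mem_union, Finset.mem_erase, Finset.mem_filter, hA, Finset.mem_filter]
    rintro (h | ⟨_, h⟩ | ⟨⟨h, _⟩, _⟩)
    · exact hXo h
    · exact hKo (hSK (hCS h))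
    · exact hKo h
  have hQz : z ∉ Q := by
    rw [hQ, Finset.mem_union, Finset.mem_union, Finset.mem_erase, Finset.mem_filter, hA, Finset.mem_filter]
    rintro (h | ⟨h, _⟩ | ⟨⟨_, h⟩, h'⟩)
    · exact (Finset.disjoint_left.1 hKX) hzK h
    · exact h rfl
    · rcases hz2 with h2 | h2
      · exact h' h2
      · omega
  obtain ⟨x, hxS, hzx, hxC, hxQ⟩ := pick G o K S hSK hco z (hne z hzK) Q C hQo hQz (hdeg z hz) (by omega)
  refine ⟨x, hzx, hxC, ?_, ?_, ?_, ?_⟩
  · intro y hy hyz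
    exact hxQ y (Finset.mem_union_right _ (Finset.mem_union_left _ (Finset.mem_erase.2 ⟨hyz, hy⟩)))
  · exact Finset.insert_subset hxS hCS
  · intro w hw v hv h
    rcases Finset.mem_insert.1 hv with rfl | hv
    · exact hxQ w (Finset.mem_union_left _ hw) h.symm
    · exact hCX w hw v hv h
  · intro y hy hyC
    rw [Finset.mem_insert, not_or] at hyC
    have h1 := hC3 y hy hyC.2
    by_cases h2 : (nb G y ∩ C).card = 3
    · have h3 : ¬ G.Adj y x := hxQ y (Finset.mem_union_right _ (Finset.mem_union_right _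
        (Finset.mem_filter.2 ⟨Finset.mem_filter.2 ⟨hy, h2.ge⟩, hyC.2⟩)))
      have h4 : nb G y ∩ insert x C = nb G y ∩ C := by
        rw [Finset.inter_insert_of_notMem]
        rw [mem_nb]
        exact h3
      rw [h4]
      exact h1
    · have h4 : nb G y ∩ insert x C ⊆ insert x (nb G y ∩ C) := by
        intro w hw
        rw [Finset.mem_inter, Finset.mem_insert] at hw
        rcases hw with ⟨hw1, rfl | hw2⟩
        · exact Finset.mem_insert_self _ _
        · exact Finset.mem_insert_of_mem (Finset.mem_inter.2 ⟨hw1, hw2⟩)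
      have h5 := (Finset.card_le_card h4).trans (Finset.card_insert_le _ _)
      omega

/-- a new path on three vertices -/
theorem select_path (G : SimpleGraph V) (o : V) (K X S : Finset V) (hKo : o ∉ K) (hXo : o ∉ X)
    (hKX : Disjoint K X) (hX : X.card ≤ 9) (hSK : S ⊆ K) (hS : S.Nonempty)
    (hco : ∀ y z, y ≠ z → y ≠ o → z ≠ o → (nb G y ∩ nb G z ∩ K).card ≤ 2)
    (hdeg : ∀ w ∈ S, 80 ≤ (nb G w ∩ S).card) (C : Finset V) (hC : Inv G K X S C)
    (h6 : C.card ≤ 6) :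
    ∃ a b c, a ∉ C ∧ b ∉ C ∧ c ∉ C ∧ b ≠ a ∧ c ≠ a ∧ c ≠ b ∧ G.Adj a b ∧ G.Adj b c ∧ ¬ G.Adj a c ∧
      (∀ y ∈ C, ¬ G.Adj y a) ∧ (∀ y ∈ C, ¬ G.Adj y b) ∧ (∀ y ∈ C, ¬ G.Adj y c) ∧
      Inv G K X S (insert c (insert b (insert a C))) := by
  have hne : ∀ y ∈ K, y ≠ o := fun y hy h => hKo (h ▸ hy)
  have hAc : 3 * (K.filter fun y => 3 ≤ (nb G y ∩ C).card).card ≤ C.card * (C.card - 1) :=
    full_card G K C fun a ha b hb hab =>
      hco a b hab (hne a (hSK (hC.1 ha))) (hne b (hSK (hC.1 hb)))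
  have hA10 : (K.filter fun y => 3 ≤ (nb G y ∩ C).card).card ≤ 10 := by
    have h1 : C.card * (C.card - 1) ≤ 6 * 5 := Nat.mul_le_mul h6 (by omega)
    omega
  obtain ⟨w, hw⟩ := hS
  have hSc : 80 ≤ S.card := (hdeg w hw).trans (Finset.card_le_card Finset.inter_subset_right)
  have hex : ∃ z ∈ S, z ∉ C ∪ K.filter fun y => 3 ≤ (nb G y ∩ C).card := by
    by_contra h
    push Not at h
    have h1 := Finset.card_le_card (fun z hz => h z hz : S ⊆ _)
    have h2 := Finset.card_union_le C (K.filter fun y => 3 ≤ (nb G y ∩ C).card)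
    omega
  obtain ⟨z, hzS, hzn⟩ := hex
  rw [Finset.mem_union, not_or, Finset.mem_filter] at hzn
  have hz2 : (nb G z ∩ C).card ≤ 2 := by
    by_contra h
    exact hzn.2 ⟨hSK hzS, by omega⟩
  obtain ⟨a, _, haC, haN, hI1⟩ := select_step G o K X S hKo hXo hKX hX hSK hco hdeg C hC (by omega) z hzS
    (Or.inr hz2)
  have hc1 := Finset.card_insert_le a C
  obtain ⟨b, hab, hbC, hbN, hI2⟩ := select_step G o K X S hKo hXo hKX hX hSK hco hdeg _ hI1 (by omega) a
    (hI1.1 (Finset.mem_insert_self _ _)) (Or.inl (Finset.mem_insert_self _ _))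
  have hc2 := Finset.card_insert_le b (insert a C)
  obtain ⟨c, hbc, hcC, hcN, hI3⟩ := select_step G o K X S hKo hXo hKX hX hSK hco hdeg _ hI2 (by omega) b
    (hI2.1 (Finset.mem_insert_self _ _)) (Or.inl (Finset.mem_insert_self _ _))
  rw [Finset.mem_insert, not_or] at hbC
  rw [Finset.mem_insert, not_or, Finset.mem_insert, not_or] at hcC
  refine ⟨a, b, c, haC, hbC.2, hcC.2.2, hbC.1, hcC.2.1, hcC.1, hab, hbc, ?_, ?_, ?_, ?_, hI3⟩
  · exact hcN a (Finset.mem_insert_of_mem (Finset.mem_insert_self _ _)) (fun h => hbC.1 h.symm)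
  · intro y hy
    exact haN y hy (fun h => hzn.1 (h ▸ hy))
  · intro y hy
    exact hbN y (Finset.mem_insert_of_mem hy) (fun h => haC (h ▸ hy))
  · intro y hy
    exact hcN y (Finset.mem_insert_of_mem (Finset.mem_insert_of_mem hy)) (fun h => hbC.2 (h ▸ hy))

/-- Greedy choice: keep `C ⊆ S` with no edges to `X` and with
`∀ y ∈ K, y ∉ C → (nb G y ∩ C).card ≤ 3`.  The next core is a neighbour `x ∈ S` of a vertex `z ∈ S`
(`z` is the previous core of the path, or, when a new path is started, any vertex `z ∈ S` which is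
not in `C` and has at most two neighbours in `C`), not in `C`, not adjacent to the vertices of `C`
other than `z`, not adjacent to `X`, not adjacent to the vertices `y ∈ K`, `y ∉ C` with three
neighbours in `C` (at most `18` by `full_card`).  Use `pick` with `Q.card ≤ 8 + 9 + 18`,
`E = C`, `M = 80`. -/
theorem select (G : SimpleGraph V) (o : V) (K X S : Finset V) (hKo : o ∉ K) (hXo : o ∉ X)
    (hKX : Disjoint K X) (hX : X.card ≤ 9) (hSK : S ⊆ K) (hS : S.Nonempty)
    (hco : ∀ y z, y ≠ z → y ≠ o → z ≠ o → (nb G y ∩ nb G z ∩ K).card ≤ 2)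
    (hdeg : ∀ w ∈ S, 80 ≤ (nb G w ∩ S).card) :
    ∃ c : Fin 3 → Fin 3 → V, Cores G c ∧ (∀ i a, c i a ∈ S) ∧
      (∀ x ∈ X, ∀ i a, ¬ G.Adj (c i a) x) ∧ ∀ y ∈ K, y ∉ cs c → (nb G y ∩ cs c).card ≤ 3 := by
  have hI0 : Inv G K X S ∅ := ⟨Finset.empty_subset _, by simp, by simp⟩
  obtain ⟨a1, b1, c1, ha1, hb1, hc1, e1, e2, e3, p1, q1, r1, sa1, sb1, sc1, hI1⟩ :=
    select_path G o K X S hKo hXo hKX hX hSK hS hco hdeg ∅ hI0 (by simp)
  have k1 : (insert c1 (insert b1 (insert a1 (∅ : Finset V)))).card ≤ 3 :=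
    Finset.card_le_three
  obtain ⟨a2, b2, c2, ha2, hb2, hc2, f1, f2, f3, p2, q2, r2, sa2, sb2, sc2, hI2⟩ :=
    select_path G o K X S hKo hXo hKX hX hSK hS hco hdeg _ hI1 (by omega)
  have k2 : (insert c2 (insert b2 (insert a2 (insert c1 (insert b1 (insert a1 (∅ : Finset V))))))).card ≤ 6 := by
    have h1 := Finset.card_insert_le c2 (insert b2 (insert a2 (insert c1 (insert b1 (insert a1 (∅ : Finset V))))))
    have h2 := Finset.card_insert_le b2 (insert a2 (insert c1 (insert b1 (insert a1 (∅ : Finset V)))))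
    have h3 := Finset.card_insert_le a2 (insert c1 (insert b1 (insert a1 (∅ : Finset V))))
    omega
  obtain ⟨a3, b3, c3, ha3, hb3, hc3, g1, g2, g3, p3, q3, r3, sa3, sb3, sc3, hI3⟩ :=
    select_path G o K X S hKo hXo hKX hX hSK hS hco hdeg _ hI2 k2
  set c : Fin 3 → Fin 3 → V := ![![a1, b1, c1], ![a2, b2, c2], ![a3, b3, c3]] with hc
  have hcs : cs c = insert c3 (insert b3 (insert a3 (insert c2 (insert b2 (insert a2
      (insert c1 (insert b1 (insert a1 ∅)))))))) := by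
    ext v
    rw [mem_cs]
    simp only [Finset.mem_insert, Finset.notMem_empty, or_false]
    constructor
    · rintro ⟨i, a, h⟩
      fin_cases i <;> fin_cases a <;> simp [hc] at h <;> simp [h]
    · rintro (h | h | h | h | h | h | h | h | h)
      · exact ⟨2, 2, h.symm⟩
      · exact ⟨2, 1, h.symm⟩
      · exact ⟨2, 0, h.symm⟩
      · exact ⟨1, 2, h.symm⟩
      · exact ⟨1, 1, h.symm⟩
      · exact ⟨1, 0, h.symm⟩
      · exact ⟨0, 2, h.symm⟩
      · exact ⟨0, 1, h.symm⟩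
      · exact ⟨0, 0, h.symm⟩
  rw [← hcs] at hI3
  simp only [Finset.mem_insert, Finset.notMem_empty, or_false, not_or, forall_eq_or_imp, forall_eq] at ha2 hb2 hc2 ha3 hb3 hc3 sa2 sb2 sc2 sa3 sb3 sc3
  obtain ⟨u1, u2, u3⟩ := ha2
  obtain ⟨u4, u5, u6⟩ := hb2
  obtain ⟨u7, u8, u9⟩ := hc2
  obtain ⟨v1, v2, v3, v4, v5, v6⟩ := ha3
  obtain ⟨w1, w2, w3, w4, w5, w6⟩ := hb3
  obtain ⟨x1, x2, x3, x4, x5, x6⟩ := hc3
  obtain ⟨m1, m2, m3⟩ := sa2
  obtain ⟨m4, m5, m6⟩ := sb2
  obtain ⟨m7, m8, m9⟩ := sc2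
  obtain ⟨n1, n2, n3, n4, n5, n6⟩ := sa3
  obtain ⟨o1, o2, o3, o4, o5, o6⟩ := sb3
  obtain ⟨y1, y2, y3, y4, y5, y6⟩ := sc3
  refine ⟨c, ⟨?_, ?_, ?_, ?_⟩, ?_, ?_, ?_⟩
  · intro i j a b h
    fin_cases i <;> fin_cases j <;> fin_cases a <;> fin_cases b <;> simp only [hc] at h <;>
      first
        | exact ⟨rfl, rfl⟩
        | exact absurd h (by assumption)
        | exact absurd h.symm (by assumption)
  · intro i
    fin_cases i
    · exact p1
    · exact p2
    · exact p3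
  · intro i
    fin_cases i
    · exact q1
    · exact q2
    · exact q3
  · intro i j a b h
    fin_cases i <;> fin_cases j <;> fin_cases a <;> fin_cases b <;> simp only [hc] at h <;>
      first
        | exact ⟨rfl, Or.inl rfl⟩
        | exact ⟨rfl, Or.inr rfl⟩
        | exact absurd rfl h.ne
        | exact absurd h (by assumption)
        | exact absurd h.symm (by assumption)
  · intro i a
    exact hI3.1 (mem_cs.2 ⟨i, a, rfl⟩)
  · intro x hx i a
    exact hI3.2.1 x hx _ (mem_cs.2 ⟨i, a, rfl⟩)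
  · exact hI3.2.2

end Pool.Agent.Helper52.DT
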